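import Pool.Agent.Helper57.RP.Kappa

/-!
# Uniform contact order, explicit value (after Helper57/RP/Kappa)
-/

set_option autoImplicit false

namespace Pool.Agent.Helper53.RC

open MvPolynomial Filter Topology
open Pool.Agent.Helper65.RP
open Pool.Agent.Helper57.RP
open Pool.Agent.Helper13.RP (GeOrd.congr GeOrd.of_zero GeOrd.zero GeOrd.neg GeOrd.mul GeOrd.mono
  GeOrd.add GeOrd.sub GeOrd.sum GeOrd.cst GeOrd.algMap GeOrd.one GeOrd.smul GeOrd.mul_left
  GeOrd.mul_right GeOrd.scale aeval_ge Phi Phi_ge Phi_zero Trans trans_of bdd_of)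

section local_
variable {K L Ω : Type} [Field K] [Field L] [Algebra K L] [NormedField Ω]
  [Algebra K Ω] [Algebra L Ω] [IsScalarTower K L Ω] {N e : ℕ}
  {𝒰 : Ultrafilter ℕ} {i₀ : Fin N}
  {F : Fin N → MvPolynomial (Fin N) K} {q : Fin N → L}
  {s : ℕ → ℕ → ℝ} {z : ℕ → ℕ → Fin N → K}

/-- The contact order with the centre is eventually at least `1 / (e - 1)`. -/
theorem kappa_unif (he : 2 ≤ e) (hF : ∀ i, (F i).totalDegree ≤ e) (hq : q i₀ = 1)
    {c : L} (hc : c ≠ 0) (hfix : ∀ i, aeval q (homogeneousComponent e (F i)) = c * q i)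
    (hs : ∀ m, ∀ᶠ n in (𝒰 : Filter ℕ), s m n = e * s (m + 1) n)
    (hz : ∀ m, ∀ᶠ n in (𝒰 : Filter ℕ), ∀ i, z m n i = eval (z (m + 1) n) (F i))
    (hlev : ∀ m, Lev Ω 𝒰 (s m) (z m) i₀)
    (hcen : ∀ m, ∃ κ : ℝ, 0 < κ ∧ ∀ i, GeOrd 𝒰 (s m) (fun n =>
      algebraMap K Ω (z m n i / z m n i₀) - algebraMap L Ω (q i)) κ)
    (hmult : ∀ n : ℕ, Module.finrank L (MvPolynomial (Fin N) L ⧸
      (sliceIdeal (fun i => homogeneousComponent e (F i)) q i₀ ⊔ ptIdeal q ^ n)) < e) :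
    ∃ m₀ : ℕ, ∀ m, m₀ ≤ m → ∀ i, GeOrd 𝒰 (s m) (fun n =>
      algebraMap K Ω (z m n i / z m n i₀) - algebraMap L Ω (q i)) (1 / ((e - 1 : ℕ) : ℝ)) := by
  obtain ⟨ν, rfl⟩ : ∃ ν, e = ν + 1 := ⟨e - 1, by omega⟩
  have hν : 1 ≤ ν := by omega
  have hν1 : (1 : ℝ) ≤ ν := by exact_mod_cast hν
  have hν0 : (0 : ℝ) < ν := by linarith
  have hepos : (0 : ℝ) < ((ν + 1 : ℕ) : ℝ) := by positivity
  set J : Ideal (MvPolynomial (Fin N) L) :=
    sliceIdeal (fun i => homogeneousComponent (ν + 1) (F i)) q i₀ with hJdef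
  have hJ : ptIdeal q ^ ν ≤ J ⊔ ptIdeal q ^ (ν + 1) :=
    kappa_chain q J (Nat.lt_succ_iff.1 (hmult (ν + 1)))
  set FL : Fin N → MvPolynomial (Fin N) L := fun i => map (algebraMap K L) (F i) with hFL
  have hcomp : ∀ k i, homogeneousComponent k (FL i) =
      map (algebraMap K L) (homogeneousComponent k (F i)) := by
    intro k i
    rw [hFL]
    ext d
    rw [coeff_homogeneousComponent, coeff_map, coeff_map, coeff_homogeneousComponent]
    split_ifs <;> simp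
  have hFLdeg : ∀ i, (FL i).totalDegree ≤ ν + 1 := fun i =>
    (Finset.sup_mono (support_map_subset _ _)).trans (hF i)
  set y : ℕ → Fin N → ℕ → Ω := fun m i n =>
    algebraMap K Ω (z m n i) / algebraMap K Ω (z m n i₀) with hy
  have hyeq : ∀ m i, (fun n => algebraMap K Ω (z m n i / z m n i₀) - algebraMap L Ω (q i)) =
      y m i - algebraMap L (ℕ → Ω) (q i) := by
    intro m i
    funext n
    rw [Pi.sub_apply, Pi.algebraMap_apply, map_div₀]
  have htop : ∀ m, HasOrd 𝒰 (s m) (fun n => algebraMap K Ω (z m n i₀)) (-1) :=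
    fun m => (hlev m).top
  set t : ℕ → ℕ → Ω := fun m n => (algebraMap K Ω (z m n i₀))⁻¹ with ht
  have ht1 : ∀ m, GeOrd 𝒰 (s m) (t m) 1 := by
    intro m
    exact geOrd_inv_top (hlev m).hs (htop m)
  have htr : ∀ m, Trans 𝒰 (ν + 1) FL i₀ (t (m + 1)) (t m) (y (m + 1)) (y m) := by
    intro m
    refine trans_of (x := fun n i => algebraMap K Ω (z (m + 1) n i))
      (x' := fun n i => algebraMap K Ω (z m n i)) hFLdeg ?_ (htop (m + 1)).1 (htop m).1
    filter_upwards [hz m] with n h1 i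
    rw [h1 i, hFL, aeval_map_algebraMap]
    exact (aeval_algebraMap_apply Ω (z (m + 1) n) (F i)).symm
  have hcen' : ∀ m, ∃ κ : ℝ, 0 < κ ∧ ∀ i, GeOrd 𝒰 (s m)
      (y m i - algebraMap L (ℕ → Ω) (q i)) κ := by
    intro m
    obtain ⟨κ, h1, h2⟩ := hcen m
    refine ⟨κ, h1, fun i => ?_⟩
    rw [← hyeq]
    exact h2 i
  have hbdd : ∀ m i, GeOrd 𝒰 (s m) (y m i) 0 := by
    intro m i
    obtain ⟨κ, h1, h2⟩ := hcen' m
    exact bdd_of (hlev m).hs h1.le h2 i
  -- the slice ideal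
  have hslice : ∀ m κ, (∀ i, GeOrd 𝒰 (s m) (y m i - algebraMap L (ℕ → Ω) (q i)) κ) →
      J ≤ geIdeal (L := L) (hlev (m + 1)).hs (hbdd (m + 1)) (min (((ν + 1 : ℕ) : ℝ) * κ) 1) := by
    intro m κ hκ
    have hs1 := (hlev (m + 1)).hs
    refine Ideal.span_le.2 ?_
    rintro p (rfl | ⟨i, rfl⟩)
    · rw [SetLike.mem_coe, mem_geIdeal, map_sub, aeval_X, map_one]
      refine GeOrd.of_zero ?_
      filter_upwards [(htr m).top] with n h1
      rw [Pi.sub_apply, h1, Pi.one_apply, sub_self]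
    · rw [SetLike.mem_coe, mem_geIdeal, map_sub, map_mul, aeval_C, ← hcomp, ← hcomp]
      have h4 : GeOrd 𝒰 (s (m + 1)) (Phi (ν + 1) (t (m + 1)) (y (m + 1)) (FL i₀) *
          (y m i - algebraMap L (ℕ → Ω) (q i))) (min (((ν + 1 : ℕ) : ℝ) * κ) 1) :=
        GeOrd.mono hs1 (GeOrd.mul_left (Phi_ge hs1 (ht1 (m + 1)) (hbdd (m + 1)) (FL i₀))
          (GeOrd.scale hepos (hs m) (hκ i))) (min_le_left _ _)
      have h5 : GeOrd 𝒰 (s (m + 1)) (Phi (ν + 1) (t (m + 1)) (y (m + 1)) (FL i) -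
          algebraMap L (ℕ → Ω) (q i) * Phi (ν + 1) (t (m + 1)) (y (m + 1)) (FL i₀))
          (min (((ν + 1 : ℕ) : ℝ) * κ) 1) := by
        refine GeOrd.congr h4 ?_
        filter_upwards [(htr m).eq i] with n h6
        rw [Pi.sub_apply, h6, Pi.mul_apply, Pi.mul_apply, Pi.sub_apply]
        ring
      have hz1 : ∀ i, GeOrd 𝒰 (s (m + 1)) (Phi (ν + 1) (t (m + 1)) (y (m + 1)) (FL i) -
          aeval (y (m + 1)) (homogeneousComponent (ν + 1) (FL i)))
          (min (((ν + 1 : ℕ) : ℝ) * κ) 1) := fun i =>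
        GeOrd.mono hs1 (Phi_zero hs1 (ht1 (m + 1)) (hbdd (m + 1)) (FL i)) (min_le_right _ _)
      have h7 := GeOrd.add hs1 h5 (GeOrd.sub hs1
        (GeOrd.mul_left (GeOrd.algMap (L := L) (Ω := Ω) hs1 (q i)) (hz1 i₀)) (hz1 i))
      refine GeOrd.congr h7 (Eventually.of_forall fun n => congrFun ?_ n)
      ring
  obtain ⟨κ₀, hκ₀, hc0⟩ := hcen' 0
  set r : ℝ := ((ν + 1 : ℕ) : ℝ) / ν with hr
  have hr1 : 1 < r := by
    rw [hr, lt_div_iff₀ hν0]
    push_cast
    linarith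
  have hr0 : 0 < r := by linarith
  have hmain : ∀ m i, GeOrd 𝒰 (s m) (y m i - algebraMap L (ℕ → Ω) (q i))
      (min (1 / ν) (r ^ m * κ₀)) := by
    intro m
    induction m with
    | zero =>
        intro i
        refine GeOrd.mono (hlev 0).hs (hc0 i) ?_
        rw [pow_zero, one_mul]
        exact min_le_right _ _
    | succ m ih =>
        intro i
        have hs1 := (hlev (m + 1)).hs
        obtain ⟨κ, hκ, hc1⟩ := hcen' (m + 1)
        have h0 : 0 < min (1 / (ν : ℝ)) (r ^ m * κ₀) := lt_min (by positivity) (by positivity)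
        have h1 : 0 < min (((ν + 1 : ℕ) : ℝ) * min (1 / (ν : ℝ)) (r ^ m * κ₀)) 1 :=
          lt_min (by positivity) one_pos
        have h2 := full hs1 (hbdd (m + 1)) hν hJ h1 (hslice m _ ih) hκ hc1 i
        refine GeOrd.mono hs1 h2 ?_
        rw [← min_div_div_right hν0.le]
        refine le_min ?_ (min_le_left _ _)
        have h3 : ((ν + 1 : ℕ) : ℝ) * min (1 / (ν : ℝ)) (r ^ m * κ₀) / ν =
            r * min (1 / (ν : ℝ)) (r ^ m * κ₀) := by
          rw [hr]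
          ring
        rw [h3, mul_min_of_nonneg _ _ hr0.le]
        refine le_min ((min_le_left _ _).trans ?_) ((min_le_right _ _).trans (le_of_eq ?_))
        · have h4 : 0 < 1 / (ν : ℝ) := by positivity
          nlinarith
        · rw [pow_succ]
          ring
  obtain ⟨m₀, hm₀⟩ := pow_unbounded_of_one_lt (1 / (ν : ℝ) / κ₀) hr1
  refine ⟨m₀, ?_⟩
  intro m hm i
  rw [hyeq, show ν + 1 - 1 = ν by omega]
  refine GeOrd.mono (hlev m).hs (hmain m i) (le_min le_rfl ?_)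
  rw [div_lt_iff₀ hκ₀] at hm₀
  refine hm₀.le.trans ?_
  exact mul_le_mul_of_nonneg_right (pow_le_pow_right₀ hr1.le hm) hκ₀.le

end local_

end Pool.Agent.Helper53.RC
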