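import Pool.Agent.Helper65.RP.Defs
import Pool.Agent.Helper65.RP.Ord
import Pool.Agent.Helper63.RP.Dim
import Pool.Agent.Helper62.RP.Lower

/-!
# Finitely many levels, with a uniform bound

A finite family of different curves stays different in a general plane projection, so the
intersection of their ideals has quadratic growth up to the number of curves.
-/

set_option autoImplicit false

namespace Pool.Agent.Helper53.RC

open MvPolynomial Filter Topology
open Pool.Agent.Helper65.RP

section
variable {K : Type} [Field K] {N : ℕ}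

/-- The algebraic closure of the field of rational functions. -/
abbrev Om (K : Type) [Field K] : Type := AlgebraicClosure (FractionRing (Polynomial K))

lemma algK_apply (x : K) :
    algebraMap K (Om K) x = algebraMap (Polynomial K) (Om K) (Polynomial.C x) := by
  rw [IsScalarTower.algebraMap_apply K (Polynomial K) (Om K)]
  rfl

lemma polK_injective : Function.Injective (algebraMap (Polynomial K) (Om K)) := by
  rw [IsScalarTower.algebraMap_eq (Polynomial K) (FractionRing (Polynomial K)) (Om K)]
  exact (algebraMap (FractionRing (Polynomial K)) (Om K)).injective.comp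
    (IsFractionRing.injective _ _)

/-- The generic point of a curve, over the algebraic closure of `K(t)`. -/
theorem exists_pt (P : Ideal (MvPolynomial (Fin N) K)) (hP : P.IsPrime) (i₀ : Fin N)
    (htr : ∀ p : Polynomial K, p ≠ 0 → Polynomial.aeval (X i₀ : MvPolynomial (Fin N) K) p ∉ P)
    (halg : ∀ i, ∃ R : Polynomial (Polynomial K), R ≠ 0 ∧
      R.eval₂ (Polynomial.aeval (X i₀ : MvPolynomial (Fin N) K)).toRingHom (X i) ∈ P) :
    ∃ v : Fin N → Om K, v i₀ = algebraMap (Polynomial K) (Om K) Polynomial.X ∧
      ∀ p : MvPolynomial (Fin N) K, aeval v p = 0 ↔ p ∈ P := by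
  classical
  have : IsDomain (MvPolynomial (Fin N) K ⧸ P) := (Ideal.Quotient.isDomain_iff_prime P).2 hP
  set A := MvPolynomial (Fin N) K ⧸ P with hA
  set τ : Polynomial K →ₐ[K] A :=
    (Ideal.Quotient.mkₐ K P).comp (Polynomial.aeval (X i₀ : MvPolynomial (Fin N) K)) with hτ
  have hτinj : Function.Injective τ := by
    rw [injective_iff_map_eq_zero]
    intro p hp
    by_contra h0
    exact htr p h0 (Ideal.Quotient.eq_zero_iff_mem.1 hp)
  let _ : Algebra (Polynomial K) A := τ.toRingHom.toAlgebra
  have hmap : ∀ p : Polynomial K, algebraMap (Polynomial K) A p = τ p := fun _ => rfl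
  have : FaithfulSMul (Polynomial K) A := (faithfulSMul_iff_algebraMap_injective _ _).2 hτinj
  have : FaithfulSMul (Polynomial K) (Om K) :=
    (faithfulSMul_iff_algebraMap_injective _ _).2 polK_injective
  have hXalg : ∀ i, IsAlgebraic (Polynomial K) (Ideal.Quotient.mk P (X i) : A) := by
    intro i
    obtain ⟨R, hR, hRP⟩ := halg i
    refine ⟨R, hR, ?_⟩
    have h1 : Polynomial.aeval (Ideal.Quotient.mk P (X i) : A) R =
        Ideal.Quotient.mk P (R.eval₂
          (Polynomial.aeval (X i₀ : MvPolynomial (Fin N) K)).toRingHom (X i)) := by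
      rw [Polynomial.hom_eval₂, Polynomial.aeval_def]
      rfl
    rw [h1]
    exact Ideal.Quotient.eq_zero_iff_mem.2 hRP
  have hCalg : ∀ c : K, IsAlgebraic (Polynomial K) (Ideal.Quotient.mk P (C c) : A) := by
    intro c
    have h1 : (Ideal.Quotient.mk P (C c) : A) = algebraMap (Polynomial K) A (Polynomial.C c) := by
      rw [hmap, hτ, AlgHom.comp_apply, Polynomial.aeval_C]
      rfl
    rw [h1]
    exact isAlgebraic_algebraMap _
  have halgA : Algebra.IsAlgebraic (Polynomial K) A := by
    refine ⟨fun a => ?_⟩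
    obtain ⟨p, rfl⟩ := Ideal.Quotient.mk_surjective a
    induction p using MvPolynomial.induction_on with
    | C c => exact hCalg c
    | add p q hp hq => rw [map_add]; exact hp.add hq
    | mul_X p i hp => rw [map_mul]; exact hp.mul (hXalg i)
  have hT1 : Module.IsTorsionFree (Polynomial K) A := inferInstance
  have hT2 : Module.IsTorsionFree (Polynomial K) (Om K) := inferInstance
  let φ : A →ₐ[Polynomial K] Om K := IsAlgClosed.lift
  have hφinj : ∀ a : A, φ a = 0 → a = 0 := by
    intro a ha
    by_contra h0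
    obtain ⟨r, hr, b, hb⟩ := (Algebra.IsAlgebraic.isAlgebraic (R := Polynomial K) a).exists_nonzero_dvd
      (mem_nonZeroDivisors_of_ne_zero h0)
    have h1 : φ (algebraMap (Polynomial K) A r) = 0 := by rw [hb, map_mul, ha, zero_mul]
    rw [AlgHom.commutes] at h1
    exact hr (polK_injective (h1.trans (map_zero _).symm))
  set v : Fin N → Om K := fun i => φ (Ideal.Quotient.mk P (X i)) with hv
  have hev : ∀ p : MvPolynomial (Fin N) K, aeval v p = φ (Ideal.Quotient.mk P p) := by
    intro p
    induction p using MvPolynomial.induction_on with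
    | C c =>
        rw [aeval_C, algK_apply]
        have h1 : (Ideal.Quotient.mk P (C c) : A) =
            algebraMap (Polynomial K) A (Polynomial.C c) := by
          rw [hmap, hτ, AlgHom.comp_apply, Polynomial.aeval_C]
          rfl
        rw [h1, AlgHom.commutes]
    | add p q hp hq => rw [map_add, map_add, map_add, hp, hq]
    | mul_X p i hp => rw [map_mul, map_mul, map_mul, hp, aeval_X]
  refine ⟨v, ?_, fun p => ?_⟩
  · have h1 : (Ideal.Quotient.mk P (X i₀) : A) = algebraMap (Polynomial K) A Polynomial.X := by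
      rw [hmap, hτ, AlgHom.comp_apply, Polynomial.aeval_X]
      rfl
    simp only [hv]
    rw [h1, AlgHom.commutes]
  · rw [hev]
    constructor
    · intro h
      exact Ideal.Quotient.eq_zero_iff_mem.1 (hφinj _ h)
    · intro h
      rw [Ideal.Quotient.eq_zero_iff_mem.2 h, map_zero]

/-- The intersection of `k + 1` different curves has quadratic growth up to degree `2 k`. -/
theorem rho_inf_ge [Infinite K] {k D : ℕ} (hkD : 2 * k ≤ D)
    (P : Fin (k + 1) → Ideal (MvPolynomial (Fin N) K))
    (hP : ∀ m, (P m).IsPrime) (hinj : Function.Injective P) (i₀ : Fin N)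
    (htr : ∀ m (p : Polynomial K), p ≠ 0 →
      Polynomial.aeval (X i₀ : MvPolynomial (Fin N) K) p ∉ P m)
    (halg : ∀ m i, ∃ R : Polynomial (Polynomial K), R ≠ 0 ∧
      R.eval₂ (Polynomial.aeval (X i₀ : MvPolynomial (Fin N) K)).toRingHom (X i) ∈ P m)
    (J : Ideal (MvPolynomial (Fin N) K)) (hJ : ∀ m, J ≤ P m) :
    (k + 1) ^ 2 ≤ rho J D := by
  classical
  have hpt := fun m => exists_pt (P m) (hP m) i₀ (htr m) (halg m)
  choose v hv0 hv using hpt
  have hvinj : Function.Injective v := by
    intro m m' h
    apply hinj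
    ext p
    rw [← hv m, ← hv m', h]
  -- a linear form that separates the points
  set Q : Fin (k + 1) → Fin (k + 1) → Polynomial (Om K) := fun m m' =>
    ∑ i : Fin N, Polynomial.C (v m i - v m' i) * Polynomial.X ^ (i : ℕ) with hQ
  have hQ0 : ∀ m m', m ≠ m' → Q m m' ≠ 0 := by
    intro m m' hmm h0
    apply hmm
    apply hvinj
    funext i
    have h1 := congrArg (fun p => Polynomial.coeff p (i : ℕ)) h0
    simp only [hQ, Polynomial.finsetSum_coeff, Polynomial.coeff_C_mul, Polynomial.coeff_X_pow,
      Polynomial.coeff_zero] at h1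
    rw [Finset.sum_eq_single i] at h1
    · simp only [if_true, mul_one] at h1
      exact sub_eq_zero.1 h1
    · intro j _ hj
      rw [if_neg, mul_zero]
      intro h2
      exact hj (Fin.ext h2.symm)
    · intro h
      exact absurd (Finset.mem_univ i) h
  obtain ⟨c, hc⟩ : ∃ c : K, ∀ m m', m ≠ m' → (Q m m').eval (algebraMap K (Om K) c) ≠ 0 := by
    have hfin : (⋃ m : Fin (k + 1), ⋃ m' : Fin (k + 1), {c : K | m ≠ m' ∧
        (Q m m').eval (algebraMap K (Om K) c) = 0}).Finite := by
      refine Set.finite_iUnion fun m => Set.finite_iUnion fun m' => ?_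
      by_cases hmm : m = m'
      · refine Set.finite_empty.subset ?_
        rintro c ⟨h1, -⟩
        exact absurd hmm h1
      · have hf : {x : Om K | (Q m m').IsRoot x}.Finite :=
          Polynomial.finite_setOfPred_isRoot (hQ0 m m' hmm)
        refine (hf.preimage ((algebraMap K (Om K)).injective.injOn)).subset ?_
        rintro c ⟨-, h2⟩
        exact h2
    obtain ⟨c, hc⟩ := hfin.exists_notMem
    refine ⟨c, fun m m' hmm h0 => hc ?_⟩
    exact Set.mem_iUnion.2 ⟨m, Set.mem_iUnion.2 ⟨m', hmm, h0⟩⟩
  set l : MvPolynomial (Fin N) K := ∑ i : Fin N, C (c ^ (i : ℕ)) * X i with hl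
  have hldeg : l.totalDegree ≤ 1 := by
    refine totalDegree_finsetSum_le fun i _ => ?_
    refine (totalDegree_mul _ _).trans ?_
    rw [totalDegree_C, zero_add, totalDegree_X]
  have hlv : ∀ m, aeval (v m) l = ∑ i : Fin N, algebraMap K (Om K) c ^ (i : ℕ) * v m i := by
    intro m
    rw [hl, map_sum]
    refine Finset.sum_congr rfl fun i _ => ?_
    rw [map_mul, aeval_C, aeval_X, map_pow]
  have hyinj : Function.Injective fun m => aeval (v m) l := by
    intro m m' h
    by_contra hmm
    apply hc m m' hmm
    simp only [hlv] at h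
    simp only [hQ]
    rw [Polynomial.eval_finsetSum]
    simp only [Polynomial.eval_mul, Polynomial.eval_C, Polynomial.eval_pow, Polynomial.eval_X]
    rw [← sub_eq_zero] at h
    rw [← h, ← Finset.sum_sub_distrib]
    refine Finset.sum_congr rfl fun i _ => ?_
    ring
  -- the independent family
  set V := restrictTotalDegree (Fin N) K D with hV
  set π := (Ideal.Quotient.mkₐ K J).toLinearMap with hπ
  set b : Fin (k + 1) × Fin (k + 1) → MvPolynomial (Fin N) K :=
    fun x => X i₀ ^ (x.1 : ℕ) * l ^ (x.2 : ℕ) with hb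
  have hmem : ∀ x, π (b x) ∈ V.map π := fun x => by
    refine Submodule.mem_map_of_mem ?_
    rw [hV, mem_restrictTotalDegree]
    refine (totalDegree_mul _ _).trans ?_
    have h1 : (X i₀ ^ (x.1 : ℕ) : MvPolynomial (Fin N) K).totalDegree ≤ k := by
      refine (totalDegree_pow _ _).trans ?_
      rw [totalDegree_X, mul_one]
      exact Nat.lt_succ_iff.1 x.1.2
    have h2 : (l ^ (x.2 : ℕ)).totalDegree ≤ k := by
      refine (totalDegree_pow _ _).trans ?_
      calc (x.2 : ℕ) * l.totalDegree ≤ x.2 * 1 := Nat.mul_le_mul_left _ hldeg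
        _ ≤ k := by rw [mul_one]; exact Nat.lt_succ_iff.1 x.2.2
    omega
  have hli : LinearIndependent K fun x => π (b x) := by
    rw [Fintype.linearIndependent_iff]
    intro r hr
    have h1 : ∑ x, r x • b x ∈ J := by
      have h2 : π (∑ x, r x • b x) = 0 := by
        rw [map_sum, ← hr]
        exact Finset.sum_congr rfl fun x _ => map_smul _ _ _
      exact Ideal.Quotient.eq_zero_iff_mem.1 h2
    set R : Polynomial (Om K) := ∑ j : Fin (k + 1),
      Polynomial.C (algebraMap (Polynomial K) (Om K)
        (∑ i : Fin (k + 1), Polynomial.C (r (i, j)) * Polynomial.X ^ (i : ℕ))) *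
        Polynomial.X ^ (j : ℕ) with hR
    have hRev : ∀ m, R.eval (aeval (v m) l) = 0 := by
      intro m
      have h2 : aeval (v m) (∑ x, r x • b x) = 0 := (hv m _).2 (hJ m h1)
      have h3 : aeval (v m) (∑ x, r x • b x) = ∑ x, aeval (v m) (r x • b x) :=
        map_sum (aeval (v m)) _ _
      rw [h3, Fintype.sum_prod_type_right] at h2
      rw [← h2, hR, Polynomial.eval_finsetSum]
      refine Finset.sum_congr rfl fun j _ => ?_
      have h4 : algebraMap (Polynomial K) (Om K)
          (∑ i : Fin (k + 1), Polynomial.C (r (i, j)) * Polynomial.X ^ (i : ℕ)) =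
          ∑ i : Fin (k + 1), algebraMap (Polynomial K) (Om K)
            (Polynomial.C (r (i, j)) * Polynomial.X ^ (i : ℕ)) := map_sum _ _ _
      rw [Polynomial.eval_mul, Polynomial.eval_C, Polynomial.eval_pow, Polynomial.eval_X, h4,
        Finset.sum_mul]
      refine Finset.sum_congr rfl fun i _ => ?_
      simp only [hb]
      rw [map_smul, map_mul (aeval (v m)), map_pow (aeval (v m)), map_pow (aeval (v m)), aeval_X,
        hv0, map_mul, map_pow, Algebra.smul_def, algK_apply]
      ring
    have hRdeg : R.natDegree < Fintype.card (Fin (k + 1)) := by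
      rw [Fintype.card_fin, Nat.lt_succ_iff, hR]
      refine Polynomial.natDegree_sum_le_of_forall_le _ _ fun j _ => ?_
      refine (Polynomial.natDegree_C_mul_X_pow_le _ _).trans ?_
      exact Nat.lt_succ_iff.1 j.2
    have hR0 : R = 0 :=
      Polynomial.eq_zero_of_natDegree_lt_card_of_eval_eq_zero R hyinj hRev hRdeg
    rintro ⟨i, j⟩
    have h2 := congrArg (fun p => Polynomial.coeff p (j : ℕ)) hR0
    simp only [hR, Polynomial.finsetSum_coeff, Polynomial.coeff_C_mul, Polynomial.coeff_X_pow,
      Polynomial.coeff_zero] at h2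
    rw [Finset.sum_eq_single j] at h2
    · simp only [if_true, mul_one] at h2
      have h3 : (∑ i : Fin (k + 1), Polynomial.C (r (i, j)) * Polynomial.X ^ (i : ℕ)) = 0 :=
        polK_injective (h2.trans (map_zero _).symm)
      have h4 := congrArg (fun p => Polynomial.coeff p (i : ℕ)) h3
      simp only [Polynomial.finsetSum_coeff, Polynomial.coeff_C_mul, Polynomial.coeff_X_pow,
        Polynomial.coeff_zero] at h4
      rw [Finset.sum_eq_single i] at h4
      · simpa using h4
      · intro i' _ hi'
        rw [if_neg, mul_zero]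
        intro h5
        exact hi' (Fin.ext h5.symm)
      · simp
    · intro j' _ hj'
      rw [if_neg, mul_zero]
      intro h5
      exact hj' (Fin.ext h5.symm)
    · simp
  have hli2 : LinearIndependent K fun x => (⟨π (b x), hmem x⟩ : V.map π) :=
    LinearIndependent.of_comp (V.map π).subtype hli
  have hfin := Pool.Agent.Helper62.RP.finite_restrict K N D
  have : Module.Finite K (V.map π) := Module.Finite.map _ _
  have h := hli2.fintype_card_le_finrank
  rw [Fintype.card_prod, Fintype.card_fin] at h
  calc (k + 1) ^ 2 = (k + 1) * (k + 1) := sq _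
    _ ≤ rho J D := h

end

/-- If the ideal of all levels from `m₁` on has small growth in ONE degree `D`, then two of the
levels `m₁, ..., m₁ + D` coincide. -/
theorem finite_levels_unif {K : Type} [Field K] [Infinite K] {N : ℕ} {𝒰 : Ultrafilter ℕ}
    (z : ℕ → ℕ → Fin N → K) (i₀ : Fin N)
    (htr : ∀ (m : ℕ) (p : Polynomial K), p ≠ 0 →
      ∀ᶠ n in (𝒰 : Filter ℕ), p.eval (z m n i₀) ≠ 0)
    (halg : ∀ m i, ∃ R : Polynomial (Polynomial K), R ≠ 0 ∧
      ∀ᶠ n in (𝒰 : Filter ℕ), (R.map (Polynomial.evalRingHom (z m n i₀))).eval (z m n i) = 0)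
    {D m₁ : ℕ}
    (hgr : rho (⨅ m : {m : ℕ // m₁ ≤ m}, van 𝒰 (z m)) D < (D / 2 + 1) ^ 2) :
    ∃ m m' : ℕ, m < m' ∧ m' ≤ m + D ∧ van 𝒰 (z m) = van 𝒰 (z m') := by
  classical
  by_contra hcon
  push Not at hcon
  set k := D / 2 with hk
  have hkD : 2 * k ≤ D := Nat.mul_div_le D 2
  refine absurd hgr (not_lt.2 ?_)
  refine rho_inf_ge (K := K) hkD (fun m : Fin (k + 1) => van 𝒰 (z (m₁ + m)))
    (fun m => van_isPrime 𝒰 _) ?_ i₀ ?_ ?_ _ ?_
  · intro a b hab
    rcases lt_trichotomy a b with h | h | h
    · exfalso
      refine hcon (m₁ + a) (m₁ + b) (by omega) (by omega) hab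
    · exact h
    · exfalso
      refine hcon (m₁ + b) (m₁ + a) (by omega) (by omega) hab.symm
  · intro m p hp hmem
    rw [mem_van] at hmem
    obtain ⟨n, h1, h2⟩ := (hmem.and (htr (m₁ + m) p hp)).exists
    apply h2
    rw [← h1, Polynomial.aeval_def, Polynomial.hom_eval₂, eval_X, Polynomial.eval_eq_sum,
      Polynomial.eval₂_eq_sum]
    refine Finset.sum_congr rfl fun k _ => ?_
    simp [MvPolynomial.algebraMap_eq]
  · intro m i
    obtain ⟨R, hR, hRv⟩ := halg (m₁ + m) i
    refine ⟨R, hR, ?_⟩
    rw [mem_van]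
    filter_upwards [hRv] with n hn
    rw [← hn, Polynomial.hom_eval₂, eval_X, Polynomial.eval_map]
    congr 1
    refine Polynomial.ringHom_ext (fun x => ?_) ?_
    · simp
    · simp
  · intro m
    exact iInf_le (fun m : {m : ℕ // m₁ ≤ m} => van 𝒰 (z m)) ⟨m₁ + m, Nat.le_add_right _ _⟩

end Pool.Agent.Helper53.RC
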