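import Pool.Agent.Helper65.RP.Api2
import Pool.Agent.Helper53.RC.Kappa
import Pool.Agent.Helper53.RC.Levels

/-!
# The local part of the proof with a uniform exponent
-/

set_option autoImplicit false
set_option linter.unusedVariables false

namespace Pool.Agent.Helper53.RC

open MvPolynomial Filter Topology
open Pool.Agent.Helper65.RP

section shift
variable {K : Type} [Field K] {N : ℕ} {𝒰 : Ultrafilter ℕ} {z : ℕ → ℕ → Fin N → K}
  {F : Fin N → MvPolynomial (Fin N) K}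

lemma shift_le
    (hz : ∀ m, ∀ᶠ n in (𝒰 : Filter ℕ), ∀ i, z m n i = eval (z (m + 1) n) (F i)) {m m' : ℕ}
    (hmm : m < m') (h : van 𝒰 (z m) = van 𝒰 (z m')) :
    ∀ P ∈ van 𝒰 (z 0), bind₁ (iter F (m' - m)) P ∈ van 𝒰 (z 0) := by
  have h0 : ∀ P, P ∈ van 𝒰 (z 0) ↔ P ∈ van 𝒰 (z (m' - m)) := by
    intro P
    rw [mem_van_shift hz 0 m P, mem_van_shift hz (m' - m) m P, zero_add,
      show m' - m + m = m' by omega, h]
  intro P hP
  rw [h0]
  have h1 := (mem_van_shift hz 0 (m' - m) P).1 hP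
  rwa [zero_add] at h1

end shift

section local_
variable {K L Kb Ω : Type} [Field K] [CharZero K] [Field L] [Field Kb] [Algebra K L] [Algebra K Kb]
  [Algebra L Kb] [IsScalarTower K L Kb] [NormedField Ω] [Algebra K Ω] [Algebra L Ω] [Algebra Kb Ω]
  [IsScalarTower K Kb Ω] [IsScalarTower L Kb Ω] [IsScalarTower K L Ω] [FiniteDimensional K L]
  {N e : ℕ} {𝒰 : Ultrafilter ℕ} {i₀ : Fin N}
  {F : Fin N → MvPolynomial (Fin N) K} {q : Fin N → L}
  {s : ℕ → ℕ → ℝ} {z : ℕ → ℕ → Fin N → K}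

/-- The local part of the proof, at a fixed point of small multiplicity, with a uniform exponent:
`D` only depends on `e`, a bound `B` for the constant of the height inequalities and a bound `r`
for the degree of the limit point. -/
theorem final_unif {Λ : Type} [Fintype Λ] (Z : PD K Ω Λ) {g : Λ → ℝ} (he : 2 ≤ e)
    {r j D : ℕ} {B : ℝ} (hD1 : 1 ≤ D) (hD2 : (D : ℝ) * B < (e : ℝ) ^ j * (1 / ((e - 1 : ℕ) : ℝ)))
    (hD3 : (r : ℝ) * ((e * (e - 1) : ℕ) : ℝ) ^ j ≤ 1 / 8 * (D : ℝ) ^ 2)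
    (hB : Z.bd g ≤ B) (hr : Module.finrank K L ≤ r)
    (hF : ∀ i, (F i).totalDegree ≤ e)
    (hs : ∀ m, ∀ᶠ n in (𝒰 : Filter ℕ), s m n = e * s (m + 1) n)
    (hz : ∀ m, ∀ᶠ n in (𝒰 : Filter ℕ), ∀ i, z m n i = eval (z (m + 1) n) (F i))
    (hlev : ∀ m, Lev Ω 𝒰 (s m) (z m) i₀) (hgrow : ∀ m, Grow Z g 𝒰 (s m) (z m))
    (hcen : ∀ m, IsCenter Ω 𝒰 (s m) (z m) i₀ (fun i => algebraMap L Kb (q i)))
    {c : L} (hc : c ≠ 0) (hfix : ∀ i, aeval q (homogeneousComponent e (F i)) = c * q i)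
    (hmult : MultLT (fun i => homogeneousComponent e (F i)) (fun i => algebraMap L Kb (q i)) e) :
    ∃ k, 1 ≤ k ∧ k ≤ D ∧ ∀ P ∈ van 𝒰 (z 0), bind₁ (iter F k) P ∈ van 𝒰 (z 0) := by
  classical
  have hq : q i₀ = 1 := by
    have h1 : algebraMap L Kb (q i₀) = 1 := (hcen 0).1
    exact (algebraMap L Kb).injective (by rw [h1, map_one])
  have hm := mult_slice (Kb := Kb) (by omega) (fun i => homogeneousComponent e (F i))
    (fun i => homogeneousComponent_isHomogeneous e (F i)) q i₀ hq hc hfix hmult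
  obtain ⟨m₀, hcen'⟩ := kappa_unif he hF hq hc hfix hs hz hlev
    (fun m => IsCenter.exists_kappa (hlev m) (hcen m)) hm
  have he1 : (1 : ℝ) ≤ ((e - 1 : ℕ) : ℝ) := by
    have h1 : 1 ≤ e - 1 := by omega
    exact_mod_cast h1
  have hκ : (0 : ℝ) < 1 / ((e - 1 : ℕ) : ℝ) := by positivity
  have hκ1 : 1 / ((e - 1 : ℕ) : ℝ) ≤ 1 := by
    rw [div_le_one (by linarith)]
    exact he1
  have hI := exists_ideal he hF hq hc hfix hs hz hlev hκ hκ1 hcen'
    (ν := e - 1) (fun n => Nat.le_sub_one_of_lt (hm n)) j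
  obtain ⟨I, m₁, hfd, hfr, hord⟩ := hI
  have hD2' : (D : ℝ) * Z.bd g < (e : ℝ) ^ j * (1 / ((e - 1 : ℕ) : ℝ)) :=
    (mul_le_mul_of_nonneg_left hB (Nat.cast_nonneg D)).trans_lt hD2
  have h1 := rho_inf_le Z hlev hgrow I hord hD2'
  have h2 : (rho (⨅ m : {m : ℕ // m₁ ≤ m}, van 𝒰 (z m)) D : ℝ) ≤ 1 / 8 * (D : ℝ) ^ 2 := by
    refine le_trans ?_ hD3
    calc (rho (⨅ m : {m : ℕ // m₁ ≤ m}, van 𝒰 (z m)) D : ℝ)
        ≤ ((Module.finrank K L *
          Module.finrank L (MvPolynomial (Option (Fin N)) L ⧸ I) : ℕ) : ℝ) := by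
          exact_mod_cast h1
      _ ≤ ((r * (e * (e - 1)) ^ j : ℕ) : ℝ) := by
          exact_mod_cast Nat.mul_le_mul hr hfr
      _ = (r : ℝ) * ((e * (e - 1) : ℕ) : ℝ) ^ j := by push_cast; ring
  have h3 : rho (⨅ m : {m : ℕ // m₁ ≤ m}, van 𝒰 (z m)) D < (D / 2 + 1) ^ 2 := by
    have h4 : (D : ℝ) ≤ 2 * ((D / 2 + 1 : ℕ) : ℝ) := by
      have h5 : D ≤ 2 * (D / 2 + 1) := by omega
      exact_mod_cast h5
    have h5 : (0 : ℝ) < D := by exact_mod_cast hD1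
    have h6 : (rho (⨅ m : {m : ℕ // m₁ ≤ m}, van 𝒰 (z m)) D : ℝ) <
        (((D / 2 + 1) ^ 2 : ℕ) : ℝ) := by
      rw [Nat.cast_pow]
      nlinarith
    exact_mod_cast h6
  obtain ⟨m, m', hmm, hmD, hvan⟩ := finite_levels_unif z i₀ (fun m p hp => (hlev m).eval_ne hp)
    (fun m i => (hlev m).alg i) h3
  exact ⟨m' - m, by omega, by omega, shift_le hz hmm hvan⟩

end local_

end Pool.Agent.Helper53.RC
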