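import Pool.Agent.Helper53.RC.Nil

/-!
# Nilpotency index of the slice (after Helper47/RP/MultSlice)
-/

set_option autoImplicit false

namespace Pool.Agent.Helper53.RC

open MvPolynomial Pool.Agent.Helper65.RP
open Pool.Agent.Helper47.RP

/-- The nilpotency index of the slice of the fibre. -/
theorem nil_slice {K L Kb : Type} [Field K] [CharZero K] [Field L] [Field Kb] [Algebra K L]
    [Algebra K Kb] [Algebra L Kb] [IsScalarTower K L Kb] {N e : ℕ} (he : 1 ≤ e)
    (H : Fin N → MvPolynomial (Fin N) K) (hH : ∀ i, (H i).IsHomogeneous e) (q : Fin N → L)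
    (i₀ : Fin N) (hq : q i₀ = 1) {c : L} (hc : c ≠ 0) (hfix : ∀ i, aeval q (H i) = c * q i)
    (hnil : NilLT H (fun i => algebraMap L Kb (q i)) e) :
    ptIdeal q ^ (e - 1) ≤ sliceIdeal H q i₀ ⊔ ptIdeal q ^ e := by
  rw [nil_base H q he] at hnil
  obtain ⟨n, hne⟩ : ∃ n, n = e := ⟨e, rfl⟩
  have hn : 0 < n := by omega
  have : CharZero L := charZero_of_injective_algebraMap (algebraMap K L).injective
  set I := sliceIdeal H q i₀ ⊔ ptIdeal q ^ n with hI
  set A := MvPolynomial (Fin N) L ⧸ I with hA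
  set mk : MvPolynomial (Fin N) L →ₐ[L] A := Ideal.Quotient.mkₐ L I with hmk
  have hmk0 : ∀ p, mk p = 0 ↔ p ∈ I := fun p => Ideal.Quotient.eq_zero_iff_mem
  have hIle : I ≤ ptIdeal q := by
    rw [hI]
    refine sup_le ?_ (Ideal.pow_le_self hn.ne')
    unfold sliceIdeal
    rw [Ideal.span_le]
    rintro _ (rfl | ⟨i, rfl⟩)
    · rw [SetLike.mem_coe, mem_ptIdeal]
      simp [hq]
    · rw [SetLike.mem_coe, mem_ptIdeal, map_sub, map_mul, eval_C, eval_map, eval_map,
        ← aeval_def, ← aeval_def, hfix, hfix, hq]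
      ring
  set y : Fin N → A := fun i => mk (X i) with hy
  have hy0 : y i₀ = 1 := by
    have : mk (X i₀ - 1) = 0 := by
      rw [hmk0]
      exact Ideal.mem_sup_left (Ideal.subset_span (Set.mem_insert _ _))
    rw [map_sub, map_one, sub_eq_zero] at this
    exact this
  have hpow : ∀ p, p ∈ ptIdeal q → mk p ^ n = 0 := by
    intro p hp
    rw [← map_pow, hmk0]
    exact Ideal.mem_sup_right (Ideal.pow_mem_pow hp n)
  have hmkmap : ∀ P : MvPolynomial (Fin N) K, mk (MvPolynomial.map (algebraMap K L) P) = aeval y P := by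
    intro P
    have h1 : mk = aeval y := by
      apply MvPolynomial.algHom_ext
      intro i
      rw [aeval_X]
    rw [h1, MvPolynomial.aeval_map_algebraMap]
  set h : A := aeval y (H i₀) with hh
  have hHi : ∀ i, aeval y (H i) = algebraMap L A (q i) * h := by
    intro i
    have h1 : mk (MvPolynomial.map (algebraMap K L) (H i) -
        C (q i) * MvPolynomial.map (algebraMap K L) (H i₀)) = 0 := by
      rw [hmk0]
      exact Ideal.mem_sup_left (Ideal.subset_span (Set.mem_insert_of_mem _ ⟨i, rfl⟩))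
    rw [map_sub, map_mul, hmkmap, hmkmap, sub_eq_zero] at h1
    exact h1
  have hhc : IsNilpotent (h - algebraMap L A c) := by
    refine ⟨n, ?_⟩
    have h1 := hpow (MvPolynomial.map (algebraMap K L) (H i₀) - C c) (by
      rw [mem_ptIdeal, map_sub, eval_C, eval_map, ← aeval_def, hfix, hq]
      ring)
    rw [map_sub, hmkmap] at h1
    exact h1
  have hcu : IsUnit (algebraMap L A c) := (IsUnit.mk0 c hc).map (algebraMap L A)
  have hhu : IsUnit h := by
    have := hhc.isUnit_add_left_of_commute hcu (Commute.all _ _)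
    rwa [add_sub_cancel] at this
  obtain ⟨g, hg⟩ : ∃ g : A, g * h = algebraMap L A c := by
    obtain ⟨h', hh'⟩ := hhu.exists_left_inv
    exact ⟨algebraMap L A c * h', by rw [mul_assoc, hh', mul_one]⟩
  have hg1 : IsNilpotent (1 - g) := by
    obtain ⟨h', hh'⟩ := hhu.exists_left_inv
    have h1 : 1 - g = (h - algebraMap L A c) * h' := by
      rw [← hg]
      linear_combination (g - 1) * hh'
    rw [h1]
    exact (Commute.all _ _).isNilpotent_mul_right hhc
  have heu : IsUnit ((e : ℕ) : A) := by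
    have h1 : ((e : ℕ) : L) ≠ 0 := by
      exact_mod_cast (by omega : e ≠ 0)
    have h2 := (IsUnit.mk0 _ h1).map (algebraMap L A)
    rwa [map_natCast] at h2
  obtain ⟨r, ⟨hr1, hr2⟩, -⟩ := Polynomial.existsUnique_nilpotent_sub_and_aeval_eq_zero
    (R := A) (S := A) (P := Polynomial.X ^ e - Polynomial.C g) (x := 1)
    (by simpa using hg1)
    (by
      rw [Polynomial.derivative_sub, Polynomial.derivative_C, sub_zero, Polynomial.derivative_X_pow,
        map_mul, Polynomial.aeval_C, map_pow, Polynomial.aeval_X, one_pow, mul_one]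
      exact heu)
  have hr : r ^ e = g := by
    rw [map_sub, map_pow, Polynomial.aeval_X, Polynomial.aeval_C, sub_eq_zero] at hr2
    exact hr2
  obtain ⟨R, hR⟩ : ∃ R, mk R = r := Ideal.Quotient.mkₐ_surjective L I r
  have hR1 : 1 - R ∈ ptIdeal q := by
    obtain ⟨k, hk⟩ := hr1
    have h1 : mk ((1 - R) ^ k) = 0 := by
      rw [map_pow, map_sub, map_one, hR, hk]
    rw [hmk0] at h1
    have h2 := (mem_ptIdeal q _).1 (hIle h1)
    rw [map_pow] at h2
    rw [mem_ptIdeal]
    exact eq_zero_of_pow_eq_zero h2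
  set θ : MvPolynomial (Fin N) L →ₐ[L] A := aeval (fun i => r * y i) with hθ
  have hθH : ∀ i, θ (MvPolynomial.map (algebraMap K L) (H i) - C (c * q i)) = 0 := by
    intro i
    rw [map_sub, hθ, MvPolynomial.aeval_map_algebraMap, aeval_mul_hom (hH i), hr, hHi, aeval_C,
      map_mul, ← hg]
    ring
  set J : Ideal (MvPolynomial (Fin N) L) :=
    Ideal.span (Set.range fun i => MvPolynomial.map (algebraMap K L) (H i) - C (c * q i)) ⊔
      ptIdeal q ^ n with hJ
  have hθm : (ptIdeal q).map θ.toRingHom ≤ (ptIdeal q).map mk.toRingHom := by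
    conv_lhs => unfold ptIdeal
    rw [Ideal.map_span, Ideal.span_le]
    rintro _ ⟨_, ⟨i, rfl⟩, rfl⟩
    have h1 : θ.toRingHom (X i - C (q i)) =
        mk.toRingHom (X i - C (q i)) - mk.toRingHom (X i) * mk.toRingHom (1 - R) := by
      change θ (X i - C (q i)) = mk (X i - C (q i)) - mk (X i) * mk (1 - R)
      rw [map_sub, map_sub, map_sub mk 1 R, hR, hθ, aeval_X, aeval_C, map_one]
      change r * mk (X i) - algebraMap L A (q i) = mk (X i) - algebraMap L A (q i) -
        mk (X i) * (1 - r)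
      ring
    show θ.toRingHom (X i - C (q i)) ∈ _
    rw [h1]
    exact sub_mem (Ideal.mem_map_of_mem _ (Ideal.subset_span ⟨i, rfl⟩))
      (Ideal.mul_mem_left _ _ (Ideal.mem_map_of_mem _ hR1))
  have hθJ : J ≤ RingHom.ker θ.toRingHom := by
    rw [hJ]
    refine sup_le ?_ ?_
    · rw [Ideal.span_le]
      rintro _ ⟨i, rfl⟩
      exact hθH i
    · rw [RingHom.ker_eq_comap_bot, ← Ideal.map_le_iff_le_comap, Ideal.map_pow]
      refine (Ideal.pow_right_mono hθm n).trans ?_
      rw [← Ideal.map_pow, Ideal.map_le_iff_le_comap, ← RingHom.ker_eq_comap_bot]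
      intro p hp
      exact (hmk0 p).2 (Ideal.mem_sup_right hp)
  have hfib : fibreIdeal H q = Ideal.span (Set.range fun i =>
      MvPolynomial.map (algebraMap K L) (H i) - C (c * q i)) := by
    unfold fibreIdeal
    congr 1
    congr 1
    funext i
    rw [hfix]
  have hmkθ : (ptIdeal q).map mk.toRingHom ≤ (ptIdeal q).map θ.toRingHom := by
    conv_lhs => unfold ptIdeal
    rw [Ideal.map_span, Ideal.span_le]
    rintro _ ⟨_, ⟨i, rfl⟩, rfl⟩
    have h0 : ∀ j, θ (X j - C (q j)) = r * y j - algebraMap L A (q j) := by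
      intro j
      rw [map_sub, hθ, aeval_X, aeval_C]
    have h1 : mk.toRingHom (X i - C (q i)) =
        θ.toRingHom (X i - C (q i)) - y i * θ.toRingHom (X i₀ - C (q i₀)) := by
      change mk (X i - C (q i)) = θ (X i - C (q i)) - y i * θ (X i₀ - C (q i₀))
      have h2 : mk (C (q i)) = algebraMap L A (q i) := mk.commutes _
      rw [h0, h0, map_sub, h2, hy0, hq, map_one]
      change y i - algebraMap L A (q i) = _
      ring
    show mk.toRingHom (X i - C (q i)) ∈ _
    rw [h1]
    exact sub_mem (Ideal.mem_map_of_mem _ (Ideal.subset_span ⟨i, rfl⟩))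
      (Ideal.mul_mem_left _ _ (Ideal.mem_map_of_mem _ (Ideal.subset_span ⟨i₀, rfl⟩)))
  -- the end
  have h1 : (ptIdeal q ^ (e - 1)).map mk.toRingHom ≤ ⊥ := by
    rw [Ideal.map_pow]
    refine (Ideal.pow_right_mono hmkθ _).trans ?_
    rw [← Ideal.map_pow, Ideal.map_le_iff_le_comap, ← RingHom.ker_eq_comap_bot]
    refine le_trans ?_ hθJ
    rw [hJ, ← hfib, hne]
    exact hnil
  intro p hp
  have h2 := h1 (Ideal.mem_map_of_mem mk.toRingHom hp)
  rw [Ideal.mem_bot] at h2
  have h3 := (hmk0 p).1 h2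
  rwa [hI, hne] at h3

end Pool.Agent.Helper53.RC
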