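import Mathlib

/-!
# A numerical lemma: bootstrapping the growth
-/

set_option autoImplicit false

namespace Pool.Agent.Helper53.RC

open Real

theorem num_step {e ν r : ℕ} {κ B θ β C : ℝ} (he : 2 ≤ e) (hν : 1 ≤ ν) (hκ : 0 < κ) (hB : 0 ≤ B)
    (hθ : (e : ℝ) ^ θ = ν) (hβ : 0 ≤ β) (hθ0 : 0 ≤ θ) (hC : 0 ≤ C) (ρ : ℕ → ℕ)
    (hρ : ∀ j D : ℕ, (D : ℝ) * B < (e : ℝ) ^ j * κ → ν ^ j * ρ D ≤ r * e ^ j * ρ (2 * ν ^ j))
    (hb : ∀ D : ℕ, 1 ≤ D → (ρ D : ℝ) ≤ C * (D : ℝ) ^ (1 + β)) (D : ℕ) (hD : 1 ≤ D) :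
    (ρ D : ℝ) ≤ (r * C * 2 ^ (1 + β) * (e * (B / κ + 1)) ^ (1 + θ * β)) *
      (D : ℝ) ^ (1 + θ * β) := by
  have he1 : (1 : ℝ) < e := by exact_mod_cast (by omega : 1 < e)
  have he0 : (0 : ℝ) < e := by linarith
  have hν0 : (0 : ℝ) < ν := by exact_mod_cast (by omega : 0 < ν)
  have hD1 : (1 : ℝ) ≤ D := by exact_mod_cast hD
  have hBκ : 0 ≤ B / κ := by positivity
  have hx : 1 ≤ (D : ℝ) * (B / κ + 1) := by nlinarith
  obtain ⟨n, hn1, hn2⟩ := exists_nat_pow_near hx he1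
  set j := n + 1 with hj
  have hej : (e : ℝ) ^ j ≤ (e * (B / κ + 1)) * D := by
    rw [hj, pow_succ]
    calc (e : ℝ) ^ n * e ≤ (D * (B / κ + 1)) * e := mul_le_mul_of_nonneg_right hn1 he0.le
      _ = _ := by ring
  have hDj : (D : ℝ) * B < (e : ℝ) ^ j * κ := by
    have h1 : (D : ℝ) * (B / κ) < (e : ℝ) ^ j := by
      refine lt_of_le_of_lt ?_ hn2
      nlinarith
    have h2 := mul_lt_mul_of_pos_right h1 hκ
    have h3 : (D : ℝ) * (B / κ) * κ = D * B := by field_simp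
    rwa [h3] at h2
  have h1 := hρ j D hDj
  have h2 : (ν : ℝ) ^ j * ρ D ≤ r * (e : ℝ) ^ j * ρ (2 * ν ^ j) := by exact_mod_cast h1
  have h3 := hb (2 * ν ^ j) (by
    have : 1 ≤ ν ^ j := Nat.one_le_pow _ _ (by omega)
    omega)
  have hνj : (0 : ℝ) < (ν : ℝ) ^ j := by positivity
  have h4 : (((2 * ν ^ j : ℕ) : ℝ)) ^ (1 + β) = 2 ^ (1 + β) * ((ν : ℝ) ^ j * ((ν : ℝ) ^ j) ^ β) := by
    push_cast
    rw [mul_rpow (by norm_num) hνj.le, rpow_add hνj, rpow_one]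
  rw [h4] at h3
  have h5 : ((ν : ℝ) ^ j) ^ β = ((e : ℝ) ^ j) ^ (θ * β) := by
    rw [rpow_mul (by positivity), ← hθ]
    congr 1
    rw [← rpow_natCast, ← rpow_natCast, ← rpow_mul he0.le, ← rpow_mul he0.le, mul_comm]
  have h6 : (ν : ℝ) ^ j * ρ D ≤
      (ν : ℝ) ^ j * (r * C * 2 ^ (1 + β) * ((e : ℝ) ^ j) ^ (1 + θ * β)) := by
    refine h2.trans ?_
    have h7 : r * (e : ℝ) ^ j * ρ (2 * ν ^ j) ≤ r * (e : ℝ) ^ j *
        (C * (2 ^ (1 + β) * ((ν : ℝ) ^ j * ((ν : ℝ) ^ j) ^ β))) :=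
      mul_le_mul_of_nonneg_left h3 (by positivity)
    refine h7.trans (le_of_eq ?_)
    rw [h5, rpow_add (by positivity : (0 : ℝ) < (e : ℝ) ^ j), rpow_one]
    ring
  have h7 := le_of_mul_le_mul_left h6 hνj
  refine h7.trans ?_
  rw [mul_assoc (r * C * 2 ^ (1 + β)), ← mul_rpow (by positivity) (by positivity)]
  refine mul_le_mul_of_nonneg_left ?_ (by positivity)
  exact rpow_le_rpow (by positivity) hej (by positivity)

theorem num_iter {e ν r N : ℕ} {κ B θ : ℝ} (he : 2 ≤ e) (hν : 1 ≤ ν) (hκ : 0 < κ) (hB : 0 ≤ B)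
    (hθ : (e : ℝ) ^ θ = ν) (hθ0 : 0 ≤ θ) (i : ℕ) :
    ∃ C : ℝ, 0 ≤ C ∧ ∀ ρ : ℕ → ℕ, (∀ D, ρ D ≤ (D + 1) ^ N) →
      (∀ j D : ℕ, (D : ℝ) * B < (e : ℝ) ^ j * κ → ν ^ j * ρ D ≤ r * e ^ j * ρ (2 * ν ^ j)) →
      ∀ D : ℕ, 1 ≤ D → (ρ D : ℝ) ≤ C * (D : ℝ) ^ (1 + θ ^ i * N) := by
  induction i with
  | zero =>
    refine ⟨2 ^ N, by positivity, fun ρ h1 _ D hD => ?_⟩
    have hD1 : (1 : ℝ) ≤ D := by exact_mod_cast hD
    have h2 : (ρ D : ℝ) ≤ ((D : ℝ) + 1) ^ N := by exact_mod_cast h1 D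
    have h3 : ((D : ℝ) + 1) ^ N ≤ (2 * D) ^ N := pow_le_pow_left₀ (by positivity) (by linarith) N
    rw [mul_pow] at h3
    refine h2.trans (h3.trans (mul_le_mul_of_nonneg_left ?_ (by positivity)))
    rw [pow_zero, one_mul, ← rpow_natCast]
    exact rpow_le_rpow_of_exponent_le hD1 (by linarith)
  | succ i ih =>
    obtain ⟨C, hC, hb⟩ := ih
    have hβ : 0 ≤ θ ^ i * N := by positivity
    refine ⟨r * C * 2 ^ (1 + θ ^ i * N) * (e * (B / κ + 1)) ^ (1 + θ * (θ ^ i * N)), ?_,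
      fun ρ h1 h2 D hD => ?_⟩
    · have : 0 ≤ B / κ := by positivity
      positivity
    · have h3 := num_step he hν hκ hB hθ hβ hθ0 hC ρ h2 (hb ρ h1 h2) D hD
      have h4 : θ ^ (i + 1) * N = θ * (θ ^ i * N) := by ring
      rw [h4]
      exact h3

/-- The growth is subquadratic in a uniform degree. -/
theorem num_unif (e ν r N : ℕ) (κ B : ℝ) (he : 2 ≤ e) (hν : 1 ≤ ν) (hνe : ν < e) (hκ : 0 < κ)
    (hB : 0 ≤ B) :
    ∃ D : ℕ, 1 ≤ D ∧ ∀ ρ : ℕ → ℕ, (∀ D, ρ D ≤ (D + 1) ^ N) →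
      (∀ j D : ℕ, (D : ℝ) * B < (e : ℝ) ^ j * κ → ν ^ j * ρ D ≤ r * e ^ j * ρ (2 * ν ^ j)) →
      (ρ D : ℝ) ≤ 1 / 8 * (D : ℝ) ^ 2 := by
  have he1 : (1 : ℝ) < e := by exact_mod_cast (by omega : 1 < e)
  have he0 : (0 : ℝ) < e := by linarith
  have hν1 : (1 : ℝ) ≤ ν := by exact_mod_cast hν
  have hνe' : (ν : ℝ) < e := by exact_mod_cast hνe
  set θ := Real.logb e ν with hθd
  have hθ : (e : ℝ) ^ θ = ν := Real.rpow_logb he0 he1.ne' (by linarith)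
  have hθ0 : 0 ≤ θ := Real.logb_nonneg he1 hν1
  have hθ1 : θ < 1 := by
    rw [hθd, Real.logb_lt_iff_lt_rpow he1 (by linarith), rpow_one]
    exact hνe'
  obtain ⟨i, hi⟩ : ∃ i : ℕ, θ ^ i < 1 / (2 * (N + 1)) :=
    exists_pow_lt_of_lt_one (by positivity) hθ1
  have hi2 : θ ^ i * N ≤ 1 / 2 := by
    have h1 : θ ^ i * N ≤ 1 / (2 * (N + 1)) * N :=
      mul_le_mul_of_nonneg_right hi.le (Nat.cast_nonneg N)
    refine h1.trans ?_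
    rw [div_mul_eq_mul_div, one_mul, div_le_iff₀ (by positivity)]
    linarith
  obtain ⟨C, hC, hb⟩ := num_iter (r := r) (N := N) he hν hκ hB hθ hθ0 i
  obtain ⟨D, hD⟩ := exists_nat_ge (max 1 ((8 * C) ^ 2))
  have hD1 : (1 : ℝ) ≤ D := (le_max_left _ _).trans hD
  have hD2 : (8 * C) ^ 2 ≤ (D : ℝ) := (le_max_right _ _).trans hD
  have hD0 : (0 : ℝ) < D := by linarith
  refine ⟨D, by exact_mod_cast hD1, fun ρ h1 h2 => ?_⟩
  refine (hb ρ h1 h2 D (by exact_mod_cast hD1)).trans ?_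
  have h3 : (D : ℝ) ^ (1 + θ ^ i * N) ≤ (D : ℝ) ^ (1 + 1 / 2 : ℝ) :=
    rpow_le_rpow_of_exponent_le hD1 (by linarith)
  refine (mul_le_mul_of_nonneg_left h3 hC).trans ?_
  have h4 : (D : ℝ) ^ (1 + 1 / 2 : ℝ) = D * Real.sqrt D := by
    rw [rpow_add hD0, rpow_one, ← Real.sqrt_eq_rpow]
  rw [h4]
  have h5 : 8 * C ≤ Real.sqrt D := Real.le_sqrt_of_sq_le hD2
  have h6 : Real.sqrt D * Real.sqrt D = D := Real.mul_self_sqrt hD0.le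
  have h7 : 0 ≤ Real.sqrt D := Real.sqrt_nonneg _
  have h8 : C * Real.sqrt D ≤ 1 / 8 * D := by
    nlinarith
  nlinarith

end Pool.Agent.Helper53.RC
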