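import Pool.Agent.Helper53.RC.Hilb
import Pool.Agent.Helper53.RC.Num
import Pool.Agent.Helper53.RC.Final
import Pool.Agent.Helper53.RC.KappaNil
import Pool.Agent.Helper53.RC.NilSlice

/-!
# The local part of the proof with a uniform exponent, from the nilpotency index
-/

set_option autoImplicit false
set_option linter.unusedVariables false

namespace Pool.Agent.Helper53.RC

open MvPolynomial Filter Topology
open Pool.Agent.Helper65.RP

theorem rho_le_pow {K : Type} [Field K] {N : ℕ} (J : Ideal (MvPolynomial (Fin N) K)) (D : ℕ) :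
    rho J D ≤ (D + 1) ^ N := by
  classical
  have hfin := Pool.Agent.Helper62.RP.finite_restrict K N D
  have h1 : rho J D ≤ Module.finrank K (restrictTotalDegree (Fin N) K D) := by
    have : Module.Finite K (restrictTotalDegree (Fin N) K D) := hfin
    exact Submodule.finrank_map_le _ _
  refine h1.trans ?_
  set S : Set (Fin N →₀ ℕ) := {n : Fin N →₀ ℕ | (n.sum fun _ e => e) ≤ D} with hS
  have h2 : Module.finrank K (restrictTotalDegree (Fin N) K D) = Nat.card S :=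
    Module.finrank_eq_nat_card_basis (basisRestrictSupport K S)
  rw [h2]
  have hle : ∀ (n : S) (i : Fin N), (n : Fin N →₀ ℕ) i < D + 1 := by
    intro n i
    have h3 : (n : Fin N →₀ ℕ) i ≤ ((n : Fin N →₀ ℕ).sum fun _ e => e) := by
      have := Finsupp.le_degree i (n : Fin N →₀ ℕ)
      exact this
    have h4 : ((n : Fin N →₀ ℕ).sum fun _ e => e) ≤ D := n.2
    omega
  have h3 : Nat.card S ≤ Nat.card (Fin N → Fin (D + 1)) := by
    refine Nat.card_le_card_of_injective (fun n i => ⟨(n : Fin N →₀ ℕ) i, hle n i⟩) ?_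
    intro n n' h
    apply Subtype.ext
    ext i
    have := congrFun h i
    exact Fin.mk.inj_iff.1 this
  refine h3.trans (le_of_eq ?_)
  rw [Nat.card_eq_fintype_card, Fintype.card_fun, Fintype.card_fin, Fintype.card_fin]

section local_
variable {K L Kb Ω : Type} [Field K] [CharZero K] [Field L] [Field Kb] [Algebra K L] [Algebra K Kb]
  [Algebra L Kb] [IsScalarTower K L Kb] [NormedField Ω] [Algebra K Ω] [Algebra L Ω] [Algebra Kb Ω]
  [IsScalarTower K Kb Ω] [IsScalarTower L Kb Ω] [IsScalarTower K L Ω] [FiniteDimensional K L]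
  {N e : ℕ} {𝒰 : Ultrafilter ℕ} {i₀ : Fin N}
  {F : Fin N → MvPolynomial (Fin N) K} {q : Fin N → L}
  {s : ℕ → ℕ → ℝ} {z : ℕ → ℕ → Fin N → K}

/-- The local part of the proof, at a fixed point of small nilpotency index, with a uniform
exponent: `D` only depends on `e`, `N`, a bound `B` for the constant of the height inequalities
and a bound `r` for the degree of the limit point. -/
theorem final_nil {Λ : Type} [Fintype Λ] (Z : PD K Ω Λ) {g : Λ → ℝ} (he : 2 ≤ e)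
    {r D : ℕ} {B : ℝ} (hD1 : 1 ≤ D)
    (hD : ∀ ρ : ℕ → ℕ, (∀ D, ρ D ≤ (D + 1) ^ N) →
      (∀ j D : ℕ, (D : ℝ) * B < (e : ℝ) ^ j * (1 / ((e - 1 : ℕ) : ℝ)) →
        (e - 1) ^ j * ρ D ≤ r * e ^ j * ρ (2 * (e - 1) ^ j)) →
      (ρ D : ℝ) ≤ 1 / 8 * (D : ℝ) ^ 2)
    (hB : Z.bd g ≤ B) (hr : Module.finrank K L ≤ r)
    (hF : ∀ i, (F i).totalDegree ≤ e)
    (hs : ∀ m, ∀ᶠ n in (𝒰 : Filter ℕ), s m n = e * s (m + 1) n)
    (hz : ∀ m, ∀ᶠ n in (𝒰 : Filter ℕ), ∀ i, z m n i = eval (z (m + 1) n) (F i))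
    (hlev : ∀ m, Lev Ω 𝒰 (s m) (z m) i₀) (hgrow : ∀ m, Grow Z g 𝒰 (s m) (z m))
    (hcen : ∀ m, IsCenter Ω 𝒰 (s m) (z m) i₀ (fun i => algebraMap L Kb (q i)))
    {c : L} (hc : c ≠ 0) (hfix : ∀ i, aeval q (homogeneousComponent e (F i)) = c * q i)
    (hnil : NilLT (fun i => homogeneousComponent e (F i)) (fun i => algebraMap L Kb (q i)) e) :
    ∃ k, 1 ≤ k ∧ k ≤ D ∧ ∀ P ∈ van 𝒰 (z 0), bind₁ (iter F k) P ∈ van 𝒰 (z 0) := by
  classical
  have hq : q i₀ = 1 := by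
    have h1 : algebraMap L Kb (q i₀) = 1 := (hcen 0).1
    exact (algebraMap L Kb).injective (by rw [h1, map_one])
  have hm := nil_slice (Kb := Kb) (by omega) (fun i => homogeneousComponent e (F i))
    (fun i => homogeneousComponent_isHomogeneous e (F i)) q i₀ hq hc hfix hnil
  obtain ⟨m₀, hcen'⟩ := kappa_nil he hF hq hc hfix hs hz hlev
    (fun m => IsCenter.exists_kappa (hlev m) (hcen m)) hm
  have he1 : (1 : ℝ) ≤ ((e - 1 : ℕ) : ℝ) := by
    have h1 : 1 ≤ e - 1 := by omega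
    exact_mod_cast h1
  have hκ : (0 : ℝ) < 1 / ((e - 1 : ℕ) : ℝ) := by positivity
  have hκ1 : 1 / ((e - 1 : ℕ) : ℝ) ≤ 1 := by
    rw [div_le_one (by linarith)]
    exact he1
  obtain ⟨m₁, hh⟩ := hilb Z he hF hq hc hfix hs hz hlev hgrow hκ hκ1 hcen' (ν := e - 1) (by
    rwa [show e - 1 + 1 = e by omega])
  have h2 : (rho (⨅ m : {m : ℕ // m₁ ≤ m}, van 𝒰 (z m)) D : ℝ) ≤ 1 / 8 * (D : ℝ) ^ 2 := by
    refine hD (rho (⨅ m : {m : ℕ // m₁ ≤ m}, van 𝒰 (z m))) (rho_le_pow _) fun j D' hD' => ?_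
    have h3 : (D' : ℝ) * Z.bd g < (e : ℝ) ^ j * (1 / ((e - 1 : ℕ) : ℝ)) :=
      (mul_le_mul_of_nonneg_left hB (Nat.cast_nonneg D')).trans_lt hD'
    refine (hh j D' h3).trans ?_
    exact Nat.mul_le_mul_right _ (Nat.mul_le_mul_right _ hr)
  have h3 : rho (⨅ m : {m : ℕ // m₁ ≤ m}, van 𝒰 (z m)) D < (D / 2 + 1) ^ 2 := by
    have h4 : (D : ℝ) ≤ 2 * ((D / 2 + 1 : ℕ) : ℝ) := by
      have h5 : D ≤ 2 * (D / 2 + 1) := by omega
      exact_mod_cast h5
    have h5 : (0 : ℝ) < D := by exact_mod_cast hD1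
    have h6 : (rho (⨅ m : {m : ℕ // m₁ ≤ m}, van 𝒰 (z m)) D : ℝ) <
        (((D / 2 + 1) ^ 2 : ℕ) : ℝ) := by
      rw [Nat.cast_pow]
      nlinarith
    exact_mod_cast h6
  obtain ⟨m, m', hmm, hmD, hvan⟩ := finite_levels_unif z i₀ (fun m p hp => (hlev m).eval_ne hp)
    (fun m i => (hlev m).alg i) h3
  exact ⟨m' - m, by omega, by omega, shift_le hz hmm hvan⟩

end local_

end Pool.Agent.Helper53.RC
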