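import Pool.Agent.Helper53.RC.OrdNil
import Pool.Agent.Helper45.RP.RhoInf

/-!
# The Hilbert function of the ideal of all levels, from the nilpotency index
-/

set_option autoImplicit false

namespace Pool.Agent.Helper53.RC

open MvPolynomial Filter Topology Pool.Agent.Helper65.RP
open Pool.Agent.Helper8.RP

section span_
variable {L : Type} [Field L] {N : ℕ}

theorem deg_one (q : Fin N → L) (T : Ideal (MvPolynomial (Option (Fin N)) L))
    (hT : (X none : MvPolynomial (Option (Fin N)) L) ∈ T)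
    {x : MvPolynomial (Option (Fin N)) L} (hx : x ∈ ptIdeal' q) :
    ∃ g : MvPolynomial (Fin N) L, g.totalDegree ≤ 1 ∧ rename some g ∈ ptIdeal' q ∧
      x - rename some g ∈ T ⊔ ptIdeal' q ^ 2 := by
  unfold ptIdeal' at hx
  induction hx using Submodule.span_induction with
  | mem x hx =>
    rcases hx with rfl | ⟨i, rfl⟩
    · refine ⟨0, by rw [totalDegree_zero]; exact Nat.zero_le _, ?_, ?_⟩
      · rw [map_zero]; exact zero_mem _
      · rw [map_zero, sub_zero]
        exact Ideal.mem_sup_left hT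
    · have h1 : rename some (X i - C (q i) : MvPolynomial (Fin N) L) =
          (X (some i) - C (q i) : MvPolynomial (Option (Fin N)) L) := by
        rw [map_sub, rename_X, rename_C]
      refine ⟨X i - C (q i), ?_, ?_, ?_⟩
      · refine (totalDegree_sub _ _).trans ?_
        rw [totalDegree_X, totalDegree_C]
        exact max_le le_rfl (Nat.zero_le _)
      · rw [h1]
        exact X_some_mem q i
      · rw [h1]
        simp only [sub_self]
        exact zero_mem _
  | zero =>
    refine ⟨0, by rw [totalDegree_zero]; exact Nat.zero_le _, ?_, ?_⟩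
    · rw [map_zero]; exact zero_mem _
    · rw [map_zero, sub_zero]; exact zero_mem _
  | add x y _ _ hx hy =>
    obtain ⟨g, h1, h2, h3⟩ := hx
    obtain ⟨g', h1', h2', h3'⟩ := hy
    refine ⟨g + g', (totalDegree_add _ _).trans (max_le h1 h1'), ?_, ?_⟩
    · rw [map_add]; exact add_mem h2 h2'
    · rw [map_add, add_sub_add_comm]; exact add_mem h3 h3'
  | smul a x hx0 hx =>
    obtain ⟨g, h1, h2, h3⟩ := hx
    have hxm : x ∈ ptIdeal' q := hx0
    refine ⟨C (eval (opt q) a) * g, ?_, ?_, ?_⟩
    · refine (totalDegree_mul _ _).trans ?_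
      rw [totalDegree_C, zero_add]
      exact h1
    · rw [map_mul]
      exact Ideal.mul_mem_left _ _ h2
    · rw [map_mul, rename_C, smul_eq_mul]
      have e1 : a * x - C (eval (opt q) a) * rename some g =
          (a - C (eval (opt q) a)) * x + C (eval (opt q) a) * (x - rename some g) := by ring
      rw [e1]
      refine add_mem (Ideal.mem_sup_right ?_) (Ideal.mul_mem_left _ _ h3)
      rw [sq]
      exact Ideal.mul_mem_mul (sub_eval_mem q a) hxm

theorem deg_pow (q : Fin N → L) (T : Ideal (MvPolynomial (Option (Fin N)) L))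
    (hT : (X none : MvPolynomial (Option (Fin N)) L) ∈ T) (l : ℕ)
    {x : MvPolynomial (Option (Fin N)) L} (hx : x ∈ ptIdeal' q ^ l) :
    ∃ g : MvPolynomial (Fin N) L, g.totalDegree ≤ l ∧ rename some g ∈ ptIdeal' q ^ l ∧
      x - rename some g ∈ T ⊔ ptIdeal' q ^ (l + 1) := by
  induction l generalizing x with
  | zero =>
    refine ⟨C (eval (opt q) x), by rw [totalDegree_C], ?_, ?_⟩
    · rw [pow_zero, Ideal.one_eq_top]; trivial
    · rw [rename_C, zero_add, pow_one]
      exact Ideal.mem_sup_right (sub_eval_mem q x)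
  | succ l ih =>
    rw [pow_succ] at hx
    refine Submodule.mul_induction_on hx ?_ ?_
    · intro a ha b hb
      obtain ⟨g, h1, h2, h3⟩ := ih ha
      obtain ⟨g', h1', h2', h3'⟩ := deg_one q T hT hb
      refine ⟨g * g', (totalDegree_mul _ _).trans (add_le_add h1 h1'), ?_, ?_⟩
      · rw [map_mul, pow_succ]
        exact Ideal.mul_mem_mul h2 h2'
      · rw [map_mul]
        have e1 : a * b - rename some g * rename some g' =
            a * (b - rename some g') + (a - rename some g) * rename some g' := by ring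
        rw [e1]
        refine add_mem ?_ ?_
        · have h4 := Ideal.mul_mem_mul ha h3'
          rw [Ideal.mul_sup, ← pow_add] at h4
          have h5 : ptIdeal' q ^ l * T ⊔ ptIdeal' q ^ (l + 2) ≤
              T ⊔ ptIdeal' q ^ (l + 1 + 1) := sup_le_sup Ideal.mul_le_right le_rfl
          exact h5 h4
        · have h4 := Ideal.mul_mem_mul h3 h2'
          rw [Ideal.sup_mul, ← pow_succ] at h4
          have h5 : T * ptIdeal' q ⊔ ptIdeal' q ^ (l + 1 + 1) ≤
              T ⊔ ptIdeal' q ^ (l + 1 + 1) := sup_le_sup Ideal.mul_le_left le_rfl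
          exact h5 h4
    · rintro x y ⟨g, h1, h2, h3⟩ ⟨g', h1', h2', h3'⟩
      refine ⟨g + g', (totalDegree_add _ _).trans (max_le h1 h1'), ?_, ?_⟩
      · rw [map_add]; exact add_mem h2 h2'
      · rw [map_add, add_sub_add_comm]; exact add_mem h3 h3'

/-- Every polynomial is, modulo `t` and a power of the ideal of the point, a polynomial in the
other variables of small degree. -/
theorem exists_trunc (q : Fin N → L) (T : Ideal (MvPolynomial (Option (Fin N)) L))
    (hT : (X none : MvPolynomial (Option (Fin N)) L) ∈ T) (l : ℕ)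
    (x : MvPolynomial (Option (Fin N)) L) :
    ∃ g : MvPolynomial (Fin N) L, g.totalDegree ≤ l ∧
      x - rename some g ∈ T ⊔ ptIdeal' q ^ (l + 1) := by
  induction l with
  | zero =>
    obtain ⟨g, h1, -, h3⟩ := deg_pow q T hT 0 (x := x) (by
      rw [pow_zero, Ideal.one_eq_top]; trivial)
    exact ⟨g, h1, h3⟩
  | succ l ih =>
    obtain ⟨g, h1, h2⟩ := ih
    obtain ⟨t, ht, w, hw, htw⟩ := Submodule.mem_sup.1 h2
    obtain ⟨g', h1', -, h3'⟩ := deg_pow q T hT (l + 1) hw
    refine ⟨g + g', (totalDegree_add _ _).trans (max_le (h1.trans (Nat.le_succ _)) h1'), ?_⟩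
    have e1 : x - rename some (g + g') = t + (w - rename some g') := by
      rw [map_add, sub_add_eq_sub_sub, ← htw]
      ring
    rw [e1]
    exact add_mem (Ideal.mem_sup_left ht) h3'

end span_

section quot
variable {K L : Type} [Field K] [Field L] [Algebra K L] {N : ℕ} {i₀ : Fin N}

theorem hmg_mem_of_lt {n : ℕ} {G : MvPolynomial (Fin N) K} (hG : G.totalDegree < n) :
    hmg L n G ∈ Ideal.span {(X none : MvPolynomial (Option (Fin N)) L)} := by
  have h1 := hmg_sub (L := L) n G
  rwa [homogeneousComponent_eq_zero _ _ hG, map_zero, map_zero, sub_zero] at h1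

/-- The homogenisation, as a linear map to the quotient. -/
noncomputable def hmgQ (K : Type) {L : Type} [Field K] [Field L] [Algebra K L] {N : ℕ} (n : ℕ)
    (T : Ideal (MvPolynomial (Option (Fin N)) L)) :
    MvPolynomial (Fin N) K →ₗ[K] (MvPolynomial (Option (Fin N)) L ⧸ T) where
  toFun G := Ideal.Quotient.mk T (hmg L n G)
  map_add' G G' := by rw [Pool.Agent.Helper45.RP.hmg_add, map_add]
  map_smul' c G := by
    rw [Pool.Agent.Helper45.RP.hmg_smul, RingHom.id_apply]
    rfl

theorem hmgQ_apply (n : ℕ) (T : Ideal (MvPolynomial (Option (Fin N)) L))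
    (G : MvPolynomial (Fin N) K) : hmgQ K n T G = Ideal.Quotient.mk T (hmg L n G) := rfl

/-- The rank of the homogenisation is at most the growth of the Hilbert function. -/
theorem rank_hmg (J : Ideal (MvPolynomial (Fin N) K))
    (T : Ideal (MvPolynomial (Option (Fin N)) L))
    (hT : (X none : MvPolynomial (Option (Fin N)) L) ∈ T) (k : ℕ)
    (hJ : ∀ G ∈ J, G.totalDegree ≤ k + 1 → hmg L (k + 1) G ∈ T) :
    Module.finrank K (LinearMap.range ((hmgQ K (k + 1) T).domRestrict
      (restrictTotalDegree (Fin N) K (k + 1)))) + rho J k ≤ rho J (k + 1) := by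
  classical
  set V := restrictTotalDegree (Fin N) K k with hV
  set V' := restrictTotalDegree (Fin N) K (k + 1) with hV'
  set π := (Ideal.Quotient.mkₐ K J).toLinearMap with hπ
  have hfinV' := Pool.Agent.Helper62.RP.finite_restrict K N (k + 1)
  have hfinA : Module.Finite K (V'.map π) := Module.Finite.map _ _
  have hVV' : V ≤ V' := by
    intro G hG
    rw [hV, mem_restrictTotalDegree] at hG
    rw [hV', mem_restrictTotalDegree]
    omega
  have hBA : V.map π ≤ V'.map π := Submodule.map_mono hVV'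
  set B' : Submodule K (V'.map π) := (V.map π).comap (V'.map π).subtype with hB'
  have hB'r : Module.finrank K B' = rho J k := by
    exact (Submodule.comapSubtypeEquivOfLe hBA).finrank_eq
  set f : V' →ₗ[K] (V'.map π) :=
    LinearMap.codRestrict (V'.map π) (π.domRestrict V') (fun x => Submodule.mem_map_of_mem x.2)
    with hf
  set Φ : V' →ₗ[K] ((V'.map π) ⧸ B') := B'.mkQ.comp f with hΦ
  set ψ := (hmgQ K (k + 1) T).domRestrict V' with hψ
  have hspan : Ideal.span {(X none : MvPolynomial (Option (Fin N)) L)} ≤ T := by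
    rw [Ideal.span_le, Set.singleton_subset_iff]
    exact hT
  have hker : LinearMap.ker Φ ≤ LinearMap.ker ψ := by
    rintro ⟨G, hG⟩ hx
    rw [LinearMap.mem_ker] at hx ⊢
    have h1 : f ⟨G, hG⟩ ∈ B' := (Submodule.Quotient.mk_eq_zero B').1 hx
    obtain ⟨G', hG', hGG⟩ : ∃ G' ∈ V, π G' = π G := h1
    have h2 : G - G' ∈ J := by
      have h3 : π (G - G') = 0 := by rw [map_sub, hGG, sub_self]
      exact Ideal.Quotient.eq_zero_iff_mem.1 h3
    have hd : (G - G').totalDegree ≤ k + 1 := by
      rw [← mem_restrictTotalDegree]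
      exact sub_mem hG (hVV' hG')
    have hd' : G'.totalDegree < k + 1 := by
      rw [hV, mem_restrictTotalDegree] at hG'
      omega
    have h4 : hmg L (k + 1) G = hmg L (k + 1) (G - G') + hmg L (k + 1) G' := by
      rw [← Pool.Agent.Helper45.RP.hmg_add, sub_add_cancel]
    change Ideal.Quotient.mk T (hmg L (k + 1) G) = 0
    rw [Ideal.Quotient.eq_zero_iff_mem, h4]
    exact add_mem (hJ _ h2 hd) (hspan (hmg_mem_of_lt hd'))
  have h1 : Module.finrank K (LinearMap.range ψ) ≤ Module.finrank K (LinearMap.range Φ) := by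
    rw [← (LinearMap.quotKerEquivRange ψ).finrank_eq, ← (LinearMap.quotKerEquivRange Φ).finrank_eq]
    have : Module.Finite K V' := hfinV'
    exact LinearMap.finrank_le_finrank_of_surjective (f := Submodule.factor hker)
      (Submodule.factor_surjective hker)
  have h2 : Module.finrank K (LinearMap.range Φ) ≤ Module.finrank K ((V'.map π) ⧸ B') :=
    Submodule.finrank_le _
  have h3 := Submodule.finrank_quotient_add_finrank B'
  have h4 : rho J (k + 1) = Module.finrank K (V'.map π) := rfl
  rw [hB'r] at h3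
  rw [h4]
  omega

/-- The image of the homogenisation spans. -/
theorem span_hmg (q : Fin N → L) (T : Ideal (MvPolynomial (Option (Fin N)) L))
    (hT : (X none : MvPolynomial (Option (Fin N)) L) ∈ T)
    (hi : (X (some i₀) - 1 : MvPolynomial (Option (Fin N)) L) ∈ T) {M n : ℕ}
    (hM : ptIdeal' q ^ M ≤ T) (hn : M ≤ n + 1) :
    Submodule.span L (LinearMap.range ((hmgQ K n T).domRestrict
      (restrictTotalDegree (Fin N) K n)) : Set (MvPolynomial (Option (Fin N)) L ⧸ T)) = ⊤ := by
  classical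
  rw [eq_top_iff]
  rintro x -
  obtain ⟨x, rfl⟩ := Ideal.Quotient.mk_surjective x
  obtain ⟨g, hg, hx⟩ := exists_trunc q T hT n x
  have h1 : x - rename some g ∈ T := (sup_le le_rfl
    ((Ideal.pow_le_pow_right hn).trans hM)) hx
  rw [(Ideal.Quotient.eq (I := T)).2 h1]
  set S := Submodule.span L (LinearMap.range ((hmgQ K n T).domRestrict
      (restrictTotalDegree (Fin N) K n)) : Set (MvPolynomial (Option (Fin N)) L ⧸ T)) with hS
  -- the class of a polynomial is the sum of the classes of its monomials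
  have h2 : Ideal.Quotient.mk T (rename some g) =
      ∑ m ∈ g.support, (coeff m g) • Ideal.Quotient.mk T (rename some (monomial m (1 : L))) := by
    conv_lhs => rw [g.as_sum]
    rw [map_sum, map_sum]
    refine Finset.sum_congr rfl fun m _ => ?_
    have e1 : monomial m (coeff m g) = (coeff m g) • monomial m (1 : L) := by
      rw [smul_monomial, smul_eq_mul, mul_one]
    rw [e1, map_smul]
    rfl
  rw [h2]
  refine Submodule.sum_mem _ fun m hm => Submodule.smul_mem _ _ (Submodule.subset_span ?_)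
  have hmd : m.degree ≤ n := by
    refine le_trans ?_ hg
    have := le_totalDegree hm
    exact this
  -- the polynomial that gives the monomial
  set G : MvPolynomial (Fin N) K := monomial m (1 : K) * X i₀ ^ (n - m.degree) with hG
  have hGh : G.IsHomogeneous n := by
    have e1 : (monomial m (1 : K)).IsHomogeneous m.degree := isHomogeneous_monomial _ rfl
    have e2 : (X i₀ ^ (n - m.degree) : MvPolynomial (Fin N) K).IsHomogeneous (n - m.degree) := by
      have := (isHomogeneous_X K i₀).pow (n - m.degree)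
      rwa [one_mul] at this
    have := e1.mul e2
    rwa [show m.degree + (n - m.degree) = n by omega] at this
  have hGd : G.totalDegree ≤ n := hGh.totalDegree_le
  refine ⟨⟨G, (mem_restrictTotalDegree _ _ _).2 hGd⟩, ?_⟩
  change Ideal.Quotient.mk T (hmg L n G) = _
  rw [Ideal.Quotient.eq]
  have h3 := hmg_sub (L := L) n G
  rw [homogeneousComponent_of_mem (m := n) (n := n)
    ((mem_homogeneousSubmodule n G).2 hGh), if_pos rfl] at h3
  have hspan : Ideal.span {(X none : MvPolynomial (Option (Fin N)) L)} ≤ T := by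
    rw [Ideal.span_le, Set.singleton_subset_iff]
    exact hT
  have h4 : rename some (map (algebraMap K L) G) - rename some (monomial m (1 : L)) ∈ T := by
    rw [hG, map_mul, map_monomial, map_one, map_pow, map_X, map_mul, map_pow, rename_X]
    have e1 : rename some (monomial m (1 : L)) * X (some i₀) ^ (n - m.degree) -
        rename some (monomial m (1 : L)) = rename some (monomial m (1 : L)) *
        ((X (some i₀) : MvPolynomial (Option (Fin N)) L) ^ (n - m.degree) - 1) := by ring
    rw [e1]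
    refine Ideal.mul_mem_left _ _ ?_
    exact Ideal.mem_of_dvd _ (sub_one_dvd_pow_sub_one _ _) hi
  have h5 := add_mem (hspan h3) h4
  rwa [sub_add_sub_cancel] at h5

/-- The quotient by `t` is controlled by the growth of the Hilbert function. -/
theorem quot_le (q : Fin N → L) (J : Ideal (MvPolynomial (Fin N) K))
    (T : Ideal (MvPolynomial (Option (Fin N)) L))
    (hT : (X none : MvPolynomial (Option (Fin N)) L) ∈ T)
    (hi : (X (some i₀) - 1 : MvPolynomial (Option (Fin N)) L) ∈ T) {M k : ℕ}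
    (hM : ptIdeal' q ^ M ≤ T) (hk : M ≤ k + 2)
    (hJ : ∀ G ∈ J, G.totalDegree ≤ k + 1 → hmg L (k + 1) G ∈ T) :
    FiniteDimensional L (MvPolynomial (Option (Fin N)) L ⧸ T) ∧
      Module.finrank L (MvPolynomial (Option (Fin N)) L ⧸ T) + rho J k ≤ rho J (k + 1) := by
  classical
  have h1 := rank_hmg J T hT k hJ
  have h2 := span_hmg (K := K) q T hT hi (n := k + 1) hM (by omega)
  set R := LinearMap.range ((hmgQ K (k + 1) T).domRestrict
      (restrictTotalDegree (Fin N) K (k + 1))) with hR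
  have hfinV' := Pool.Agent.Helper62.RP.finite_restrict K N (k + 1)
  have hfinR : Module.Finite K R := by
    have : Module.Finite K (restrictTotalDegree (Fin N) K (k + 1)) := hfinV'
    exact Module.Finite.range _
  set b := Module.finBasis K R with hb
  have h3 : Submodule.span L (Set.range fun i => (b i : MvPolynomial (Option (Fin N)) L ⧸ T)) =
      ⊤ := by
    rw [eq_top_iff, ← h2, Submodule.span_le]
    intro x hx
    have h4 := b.sum_repr ⟨x, hx⟩
    have h5 : (∑ i, (b.repr ⟨x, hx⟩ i) • (b i : MvPolynomial (Option (Fin N)) L ⧸ T)) = x := by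
      have h6 := congrArg (fun y : R => (y : MvPolynomial (Option (Fin N)) L ⧸ T)) h4
      simp only at h6
      refine Eq.trans ?_ h6
      rw [AddSubmonoidClass.coe_finsetSum]
      rfl
    rw [SetLike.mem_coe, ← h5]
    refine Submodule.sum_mem _ fun i _ => ?_
    rw [← algebraMap_smul L (b.repr ⟨x, hx⟩ i)]
    exact Submodule.smul_mem _ _ (Submodule.subset_span ⟨i, rfl⟩)
  have hfin : FiniteDimensional L (MvPolynomial (Option (Fin N)) L ⧸ T) :=
    Module.finite_def.2 ⟨Finset.univ.image
      (fun i => (b i : MvPolynomial (Option (Fin N)) L ⧸ T)), by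
        rw [Finset.coe_image, Finset.coe_univ, Set.image_univ]
        exact h3⟩
  refine ⟨hfin, ?_⟩
  have h4 : Module.finrank L (MvPolynomial (Option (Fin N)) L ⧸ T) ≤ Module.finrank K R := by
    have h5 := finrank_range_le_card (R := L)
      (fun i => (b i : MvPolynomial (Option (Fin N)) L ⧸ T))
    rw [Set.finrank, h3, finrank_top, Fintype.card_fin] at h5
    exact h5
  omega

end quot

section main
variable {K L Ω : Type} [Field K] [Field L] [Algebra K L] [NormedField Ω]
  [Algebra K Ω] [Algebra L Ω] [IsScalarTower K L Ω] [FiniteDimensional K L] {N e : ℕ}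
  {𝒰 : Ultrafilter ℕ} {i₀ : Fin N}
  {F : Fin N → MvPolynomial (Fin N) K} {q : Fin N → L}
  {s : ℕ → ℕ → ℝ} {z : ℕ → ℕ → Fin N → K}

omit [Algebra K L] [IsScalarTower K L Ω] [FiniteDimensional K L] in
theorem ordAll_mono (hlev : ∀ m, Lev Ω 𝒰 (s m) (z m) i₀) {m₁ m₂ : ℕ}
    (h0 : ∀ m, m₁ ≤ m → ∀ G : MvPolynomial (Option (Fin N)) L,
      GeOrd 𝒰 (s m) (fun k => aeval (fun o => algebraMap K Ω (pt (z m k) i₀ o)) G) 0)
    (h0' : ∀ m, m₂ ≤ m → ∀ G : MvPolynomial (Option (Fin N)) L,
      GeOrd 𝒰 (s m) (fun k => aeval (fun o => algebraMap K Ω (pt (z m k) i₀ o)) G) 0)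
    (h : m₁ ≤ m₂) (α : ℝ) : ordAll hlev m₁ h0 α ≤ ordAll hlev m₂ h0' α :=
  fun _ hG m hm => hG m (h.trans hm)

/-- The Hilbert function of the ideal of all levels. -/
theorem hilb {Λ : Type} [Fintype Λ] (Z : PD K Ω Λ) {g : Λ → ℝ}
    (he : 2 ≤ e) (hF : ∀ i, (F i).totalDegree ≤ e) (hq : q i₀ = 1)
    {c : L} (hc : c ≠ 0) (hfix : ∀ i, aeval q (homogeneousComponent e (F i)) = c * q i)
    (hs : ∀ m, ∀ᶠ n in (𝒰 : Filter ℕ), s m n = e * s (m + 1) n)
    (hz : ∀ m, ∀ᶠ n in (𝒰 : Filter ℕ), ∀ i, z m n i = eval (z (m + 1) n) (F i))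
    (hlev : ∀ m, Lev Ω 𝒰 (s m) (z m) i₀) (hgrow : ∀ m, Grow Z g 𝒰 (s m) (z m))
    {κ : ℝ} (hκ : 0 < κ) (hκ1 : κ ≤ 1) {m₀ : ℕ}
    (hcen : ∀ m, m₀ ≤ m → ∀ i, GeOrd 𝒰 (s m) (fun n =>
      algebraMap K Ω (z m n i / z m n i₀) - algebraMap L Ω (q i)) κ) {ν : ℕ}
    (hnil : ptIdeal q ^ ν ≤
      sliceIdeal (fun i => homogeneousComponent e (F i)) q i₀ ⊔ ptIdeal q ^ (ν + 1)) :
    ∃ m₁ : ℕ, ∀ j D : ℕ, (D : ℝ) * Z.bd g < (e : ℝ) ^ j * κ →
      ν ^ j * rho (⨅ m : {m : ℕ // m₁ ≤ m}, van 𝒰 (z m)) D ≤
        Module.finrank K L * e ^ j *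
          rho (⨅ m : {m : ℕ // m₁ ≤ m}, van 𝒰 (z m)) (2 * ν ^ j) := by
  classical
  have h0 : ∀ m, m₀ ≤ m → ∀ G : MvPolynomial (Option (Fin N)) L,
      GeOrd 𝒰 (s m) (fun n => aeval (fun o => algebraMap K Ω (pt (z m n) i₀ o)) G) 0 := by
    intro m hm G
    have := pow_ge (q := q) hlev hκ hκ1 hcen hm (n := 0) (G := G) (by
      rw [pow_zero, Ideal.one_eq_top]; trivial)
    rwa [Nat.cast_zero, zero_mul] at this
  -- the ideals stabilise
  set Jf : ℕ →o Ideal (MvPolynomial (Fin N) K) :=
    ⟨fun m₁ => ⨅ m : {m : ℕ // m₁ ≤ m}, van 𝒰 (z m), fun a b hab =>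
      le_iInf fun m => iInf_le (fun m : {m : ℕ // a ≤ m} => van 𝒰 (z m))
        ⟨m.1, hab.trans m.2⟩⟩ with hJf
  obtain ⟨m₁, hm₁⟩ := (monotone_stabilizes_iff_noetherian (R := MvPolynomial (Fin N) K)
    (M := MvPolynomial (Fin N) K)).2 inferInstance Jf
  refine ⟨m₁, fun j D hD => ?_⟩
  obtain ⟨m₂, hm₂, hord⟩ := exists_ord he hF hq hc hfix hs hz hlev hκ hκ1 hcen hnil h0 j
  set m₃ := max m₁ m₂ with hm₃
  have hm₀₃ : m₀ ≤ m₃ := hm₂.trans (le_max_right _ _)
  have hJ3 : (⨅ m : {m : ℕ // m₁ ≤ m}, van 𝒰 (z m)) = ⨅ m : {m : ℕ // m₃ ≤ m}, van 𝒰 (z m) :=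
    hm₁ m₃ (le_max_left _ _)
  rw [hJ3]
  set J := ⨅ m : {m : ℕ // m₃ ≤ m}, van 𝒰 (z m) with hJ
  set I := ordAll hlev m₃ (fun m hm => h0 m (hm₀₃.trans hm)) ((e : ℝ) ^ j * κ) with hI
  set T := Ideal.span {(X none : MvPolynomial (Option (Fin N)) L)} ⊔ I with hTdef
  have hordT : ptIdeal' q ^ (ν ^ j) ≤ T := by
    refine hord.trans (sup_le_sup_left ?_ _)
    exact ordAll_mono hlev _ _ (le_max_right _ _) _
  have hT : (X none : MvPolynomial (Option (Fin N)) L) ∈ T :=
    Ideal.mem_sup_left (Ideal.mem_span_singleton_self _)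
  have hiI : (X (some i₀) - 1 : MvPolynomial (Option (Fin N)) L) ∈ I := by
    intro m hm
    refine Pool.Agent.Helper13.RP.GeOrd.of_zero ?_
    filter_upwards [(hlev m).top.1] with k hk
    have hk0 : z m k i₀ ≠ 0 := by
      intro h0
      apply hk
      rw [h0, map_zero]
    have : pt (z m k) i₀ (some i₀) = 1 := div_self hk0
    rw [map_sub, aeval_X, this, map_one, map_one, sub_self]
  have hi : (X (some i₀) - 1 : MvPolynomial (Option (Fin N)) L) ∈ T := Ideal.mem_sup_right hiI
  have hJI : ∀ n, ∀ G ∈ J, G.totalDegree ≤ n → hmg L n G ∈ T := by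
    intro n G hG hGn
    refine Ideal.mem_sup_right ?_
    intro m hm
    have h1 : G ∈ van 𝒰 (z m) := by
      have := iInf_le (fun m : {m : ℕ // m₃ ≤ m} => van 𝒰 (z m)) ⟨m, hm⟩
      exact this hG
    refine Pool.Agent.Helper13.RP.GeOrd.of_zero ?_
    filter_upwards [(hlev m).top.1, h1] with k hk h2
    have h3 := Pool.Agent.Helper45.RP.aeval_hmg (L := L) hGn (z m k) hk
    rw [h2, map_zero] at h3
    exact (mul_eq_zero.1 h3).resolve_left (pow_ne_zero _ hk)
  have hquot : ∀ k, ν ^ j ≤ k + 2 →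
      FiniteDimensional L (MvPolynomial (Option (Fin N)) L ⧸ T) ∧
      Module.finrank L (MvPolynomial (Option (Fin N)) L ⧸ T) + rho J k ≤ rho J (k + 1) :=
    fun k hk => quot_le q J T hT hi hordT hk (hJI (k + 1))
  obtain ⟨hfinT, -⟩ := hquot (ν ^ j) (by omega)
  -- the ideal of finite colength
  have hej : 1 ≤ e ^ j := Nat.one_le_pow _ _ (by omega)
  obtain ⟨hfin, hfr⟩ := Pool.Agent.Helper74.RP.finrank_pow (L := L)
    (X none : MvPolynomial (Option (Fin N)) L) I hej
  have hpow : Ideal.span {(X none : MvPolynomial (Option (Fin N)) L) ^ (e ^ j)} ≤ I := by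
    rw [Ideal.span_le, Set.singleton_subset_iff]
    intro m hm
    have h1 := pow_ge (q := q) hlev hκ hκ1 hcen (hm₀₃.trans hm) (n := e ^ j)
      (G := X none ^ (e ^ j)) (Ideal.pow_mem_pow (X_none_mem q) _)
    rw [Nat.cast_pow] at h1
    exact h1
  have h1 := Pool.Agent.Helper45.RP.rho_inf_le Z hlev hgrow
    (Ideal.span {(X none : MvPolynomial (Option (Fin N)) L) ^ (e ^ j)} ⊔ I) (m₁ := m₃)
    (κ := (e : ℝ) ^ j * κ) (fun G hG => (sup_le hpow le_rfl : _ ≤ I) hG) hD
  have h2 : rho J D ≤ Module.finrank K L * e ^ j *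
      Module.finrank L (MvPolynomial (Option (Fin N)) L ⧸ T) := by
    refine h1.trans ?_
    rw [mul_assoc]
    exact Nat.mul_le_mul_left _ hfr
  set A := Module.finrank K L * e ^ j with hA
  have h3 : ∀ l, l * rho J D + A * rho J (ν ^ j) ≤ A * rho J (ν ^ j + l) := by
    intro l
    induction l with
    | zero => rw [zero_mul, zero_add, add_zero]
    | succ l ih =>
      obtain ⟨-, h4⟩ := hquot (ν ^ j + l) (by omega)
      have h5 := Nat.mul_le_mul_left A h4
      rw [mul_add] at h5
      rw [add_mul, one_mul, ← add_assoc (ν ^ j)]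
      omega
  have h4 := h3 (ν ^ j)
  rw [← two_mul] at h4
  omega

end main

end Pool.Agent.Helper53.RC
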