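import Pool.Agent.Helper33.RP.ExistsPD

/-!
# The Subspace theorem at one distinguished place, with a bound for the number of places
(after Helper33/RP/ExistsPD)
-/

set_option autoImplicit false
set_option linter.unusedSectionVars false
set_option linter.style.haveILetI false

namespace Pool.Agent.Helper53.RC

open Pool.Agent.Helper85.Sub Pool.Agent.Helper85.RC Pool.Agent.Helper10.Sub NumberField Polynomial
open IsDedekindDomain
open Pool.Agent.Helper33.RP
open Pool.Agent.Helper65.RP (PD)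

/-- The case of a complex embedding. -/
theorem case_inl_unif {K : Type} [Field K] [NumberField K] (T : Finset Nat.Primes) (σ₀ : K →+* ℂ) :
    ∃ (Ω : Type) (_ : NormedField Ω) (_ : IsAlgClosed Ω) (_ : CharZero Ω)
        (_ : Algebra K Ω) (Λ' : Type) (_ : Fintype Λ') (Z : PD K Ω Λ') (ι : Λ' → Lam K T),
        Z.O = OP K (pprod (pr T)) ∧ (∀ x, ‖algebraMap K Ω x‖ = av K T (Sum.inl σ₀) x) ∧
          (∀ l x, Z.abv l x = av K T (ι l) x) ∧ Fintype.card Λ' ≤ Fintype.card (Lam K T) := by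
  classical
  letI : Algebra K ℂ := σ₀.toAlgebra
  let G : Finset (Lam K T) := {Sum.inl σ₀, Sum.inl ((starRingEnd ℂ).comp σ₀)}
  have hG0 : (Sum.inl σ₀ : Lam K T) ∈ G := Finset.mem_insert_self _ _
  have hmem : ∀ l ∈ G, l = Sum.inl σ₀ ∨ l = Sum.inl ((starRingEnd ℂ).comp σ₀) := by
    intro l hl
    rcases Finset.mem_insert.1 hl with h | h
    · exact Or.inl h
    · exact Or.inr (Finset.mem_singleton.1 h)
  have hN : ∀ l ∈ G, ∀ x, av K T l x = ‖algebraMap K ℂ x‖ := by
    intro l hl x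
    rcases hmem l hl with rfl | rfl
    · rfl
    · rw [av_inl]
      exact Complex.norm_conj (σ₀ x)
  refine ⟨ℂ, inferInstance, inferInstance, inferInstance, inferInstance,
    {l : Lam K T // l ∉ G}, inferInstance,
    mkPD T G ⟨_, hG0⟩ hN ?_, fun l => l.1, rfl, fun x => rfl, fun l x => rfl,
    Fintype.card_le_of_injective _ Subtype.val_injective⟩
  intro M A hM hA hdet δ B hδ
  refine sub_gen (L := K) (RingHom.id K) T σ₀ G ?_ ?_ A hM (fun i j => ?_) hdet δ B hδ
  · intro σ hσ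
    rcases hmem _ hσ with h | h
    · refine ⟨RingHom.id ℂ, fun z => rfl, fun x => ?_⟩
      rw [Sum.inl.inj h]
      rfl
    · refine ⟨starRingEnd ℂ, fun z => Complex.norm_conj z, fun x => ?_⟩
      rw [Sum.inl.inj h]
      rfl
  · intro t σ hσ
    exfalso
    rcases hmem _ hσ with h | h
    · rw [idx] at h
      exact Sum.inr_ne_inl h
    · rw [idx] at h
      exact Sum.inr_ne_inl h
  · exact Pool.Agent.Helper94.Sub.isAlgebraic_map (K := K) (RingHom.id ℂ) (hA i j)

/-- The case of a `p`-adic embedding. -/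
theorem case_inr_unif {K : Type} [Field K] [NumberField K] (T : Finset Nat.Primes) (t₀ : T)
    (σ₀ : K →+* FF K (pr T t₀)) :
    ∃ (Ω : Type) (_ : NormedField Ω) (_ : IsAlgClosed Ω) (_ : CharZero Ω)
        (_ : Algebra K Ω) (Λ' : Type) (_ : Fintype Λ') (Z : PD K Ω Λ') (ι : Λ' → Lam K T),
        Z.O = OP K (pprod (pr T)) ∧
          (∀ x, ‖algebraMap K Ω x‖ = av K T (Sum.inr ⟨t₀, σ₀⟩) x) ∧
          (∀ l x, Z.abv l x = av K T (ι l) x) ∧ Fintype.card Λ' ≤ Fintype.card (Lam K T) := by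
  classical
  let s₀ : K →+* PadicAlgCl (pr T t₀) := liftEquiv σ₀
  letI : Algebra K (PadicAlgCl (pr T t₀)) := s₀.toAlgebra
  let G : Finset (Lam K T) := (Finset.univ.filter fun σ : K →+* FF K (pr T t₀) =>
    ∀ x, ‖σ x‖ = ‖σ₀ x‖).image fun σ => Sum.inr ⟨t₀, σ⟩
  have hG0 : (Sum.inr ⟨t₀, σ₀⟩ : Lam K T) ∈ G :=
    Finset.mem_image_of_mem _ (Finset.mem_filter.2 ⟨Finset.mem_univ _, fun _ => rfl⟩)
  have hmem : ∀ l ∈ G, ∃ σ : K →+* FF K (pr T t₀), (∀ x, ‖σ x‖ = ‖σ₀ x‖) ∧
      l = Sum.inr ⟨t₀, σ⟩ := by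
    intro l hl
    obtain ⟨σ, h1, h2⟩ := Finset.mem_image.1 hl
    exact ⟨σ, (Finset.mem_filter.1 h1).2, h2.symm⟩
  have hN : ∀ l ∈ G, ∀ x, av K T l x = ‖algebraMap K (PadicAlgCl (pr T t₀)) x‖ := by
    intro l hl x
    obtain ⟨σ, h1, rfl⟩ := hmem l hl
    rw [av_inr, h1 x]
    rfl
  refine ⟨PadicAlgCl (pr T t₀), inferInstance, inferInstance, inferInstance, inferInstance,
    {l : Lam K T // l ∉ G}, inferInstance,
    mkPD T G ⟨_, hG0⟩ hN ?_, fun l => l.1, rfl, fun x => rfl, fun l x => rfl,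
    Fintype.card_le_of_injective _ Subtype.val_injective⟩
  intro M A hM hA hdet δ B hδ
  have hAQ : ∀ i k, IsAlgebraic ℚ (A i k) := fun i k =>
    Pool.Agent.Helper94.Sub.isAlgebraic_map (K := K) (RingHom.id (PadicAlgCl (pr T t₀))) (hA i k)
  obtain ⟨L, _, _, j, ι, hj, hE⟩ := exists_nf s₀
    (Finset.univ.image fun q : Fin M × Fin M => A q.1 q.2) (by
      intro x hx
      obtain ⟨q, -, rfl⟩ := Finset.mem_image.1 hx
      exact hAQ _ _)
  have hE' : ∀ i k, ∃ y, ι y = A i k := fun i k =>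
    hE _ (Finset.mem_image.2 ⟨(i, k), Finset.mem_univ _, rfl⟩)
  choose y hy using hE'
  let A₀ : Matrix (Fin M) (Fin M) (FF L (pr T t₀)) := fun i k => lift ι (y i k)
  let v : FF L (pr T t₀) →+* PadicAlgCl (pr T t₀) :=
    ((FF L (pr T t₀)).val : FF L (pr T t₀) →+* PadicAlgCl (pr T t₀))
  have hv : ∀ i k, v (A₀ i k) = A i k := fun i k => hy i k
  let σ₁ : K →+* FF L (pr T t₀) := (lfe j).symm s₀
  have hσ₁ : ∀ x, v (σ₁ x) = algebraMap K (PadicAlgCl (pr T t₀)) x := by
    intro x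
    have h1 : lfe j σ₁ = s₀ := (lfe j).apply_symm_apply s₀
    have h2 : lfe j σ₁ x = s₀ x := by rw [h1]
    exact h2
  have hvn : ∀ z, ‖v z‖ = ‖z‖ := fun z => rfl
  have hσ₁n : ∀ x, ‖σ₁ x‖ = ‖σ₀ x‖ := by
    intro x
    rw [← hvn, hσ₁]
    rfl
  have hdet₀ : A₀.det ≠ 0 := by
    intro h0
    apply hdet
    have h1 : A = A₀.map v := by
      ext i k
      exact (hv i k).symm
    have h2 : (A₀.map v).det = v A₀.det := (RingHom.map_det v _).symm
    rw [h1, h2, h0, map_zero]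
  have hA₀ : ∀ i k, IsAlgebraic ℚ (A₀ i k) := fun i k => by
    have h1 : IsAlgebraic ℚ (y i k) := Algebra.IsAlgebraic.isAlgebraic _
    exact h1.algHom (lift ι).toRatAlgHom
  obtain ⟨𝒲, h𝒲, hmain⟩ := sub_gen (L := L) j T σ₁ G (by
      intro σ hσ
      exfalso
      obtain ⟨σ', -, h2⟩ := hmem _ hσ
      exact Sum.inl_ne_inr h2) (by
      intro t σ hσ
      obtain ⟨σ', h1, h2⟩ := hmem _ hσ
      rw [idx] at h2
      have h3 := Sum.inr.inj h2
      have ht : t = t₀ := congrArg Sigma.fst h3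
      subst ht
      have h4 : dn j σ = σ' := eq_of_heq (Sigma.mk.inj h3).2
      refine exists_conj (K := K) (L := L) σ₁ σ fun x => ?_
      rw [← dn_norm j σ x, h4, h1 x, hσ₁n x]) A₀ hM hA₀ hdet₀ δ B hδ
  refine ⟨𝒲, h𝒲, ?_⟩
  intro Q a b z hQ hz ha hb hrow hav hprod
  refine hmain Q a b z hQ hz ha hb ?_ hav hprod
  intro i
  have h1 : v (∑ k, A₀ i k * σ₁ (z k)) =
      ∑ k, A i k * algebraMap K (PadicAlgCl (pr T t₀)) (z k) := by
    rw [map_sum]
    refine Finset.sum_congr rfl fun k _ => ?_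
    rw [map_mul, hv, hσ₁]
  rw [← hvn, h1]
  exact hrow i

/-- The product inequality, the finiteness of bounded sets of integers and the Subspace theorem for
the ring of `l`-integers of a number field, with a bound for the number of places. -/
theorem exists_pd_unif (l : ℕ) (hl : l ≠ 0) (K : Type) [Field K] [NumberField K] :
    ∃ (Λ : Type) (_ : Fintype Λ) (abv : Λ → AbsoluteValue K ℝ) (O : Subring K),
      (∀ x : K, (∃ n : ℕ, IsIntegral ℤ ((l : K) ^ n * x)) → x ∈ O) ∧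
      (∀ B : ℝ, {x : K | x ∈ O ∧ ∀ l, abv l x ≤ B}.Finite) ∧
      Fintype.card Λ ≤ Module.finrank ℚ K * (1 + l.primeFactors.card) ∧
      ∀ l₀ : Λ, ∃ (Ω : Type) (_ : NormedField Ω) (_ : IsAlgClosed Ω) (_ : CharZero Ω)
        (_ : Algebra K Ω) (Λ' : Type) (_ : Fintype Λ') (Z : PD K Ω Λ') (ι : Λ' → Λ),
        Z.O = O ∧ (∀ x, ‖algebraMap K Ω x‖ = abv l₀ x) ∧ (∀ l x, Z.abv l x = abv (ι l) x) ∧
          Fintype.card Λ' ≤ Fintype.card Λ := by
  classical
  let T : Finset Nat.Primes := l.primeFactors.attach.image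
    fun p => ⟨p.1, Nat.prime_of_mem_primeFactors p.2⟩
  have hT : T.card ≤ l.primeFactors.card := by
    refine Finset.card_image_le.trans ?_
    rw [Finset.card_attach]
  refine ⟨Lam K T, inferInstance, av K T, OP K (pprod (pr T)), ?_, fun B => finite_le B, ?_, ?_⟩
  · rintro x ⟨n, hn⟩
    -- `l` divides a power of the product of its prime factors
    set P : ℕ := pprod (pr T) with hP
    have hP0 : P ≠ 0 := by
      rw [hP]
      unfold pprod
      exact Finset.prod_ne_zero_iff.2 fun t _ => t.1.2.ne_zero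
    have hpP : ∀ p, p.Prime → p ∣ l → p ∣ P := by
      intro p hp hpl
      have hmem : (⟨p, hp⟩ : Nat.Primes) ∈ T := by
        refine Finset.mem_image.2 ⟨⟨p, ?_⟩, Finset.mem_attach _ _, rfl⟩
        exact Nat.mem_primeFactors.2 ⟨hp, hpl, hl⟩
      rw [hP]
      unfold pprod
      exact Finset.dvd_prod_of_mem (pr T) (Finset.mem_univ (⟨⟨p, hp⟩, hmem⟩ : T))
    have hdvd : l ∣ P ^ l := by
      refine (Nat.factorization_prime_le_iff_dvd hl (pow_ne_zero _ hP0)).1 fun p hp => ?_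
      by_cases hpl : p ∣ l
      · rw [Nat.factorization_pow, Finsupp.smul_apply, smul_eq_mul]
        have h1 : 1 ≤ P.factorization p :=
          (hp.dvd_iff_one_le_factorization hP0).1 (hpP p hp hpl)
        have h2 : l.factorization p < l := Nat.factorization_lt p hl
        nlinarith
      · rw [Nat.factorization_eq_zero_of_not_dvd hpl]
        exact Nat.zero_le _
    obtain ⟨c, hc⟩ := hdvd
    refine ⟨l * n, ?_⟩
    have h1 : ((P : ℕ) : K) ^ (l * n) * x = (c : K) ^ n * ((l : K) ^ n * x) := by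
      have h2 : ((P : ℕ) : K) ^ l = (l : K) * c := by exact_mod_cast hc
      rw [pow_mul, h2, mul_pow]
      ring
    rw [h1]
    exact ((isIntegral_natCast _).pow _).mul hn
  · rw [Fintype.card_sum, Fintype.card_sigma, Embeddings.card K ℂ]
    have h1 : ∀ t : T, Fintype.card (K →+* FF K (pr T t)) = Module.finrank ℚ K := fun t => card_emb
    rw [Finset.sum_congr rfl fun t _ => h1 t, Finset.sum_const, smul_eq_mul, Finset.card_univ,
      Fintype.card_coe]
    have h2 : T.card * Module.finrank ℚ K ≤ l.primeFactors.card * Module.finrank ℚ K :=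
      Nat.mul_le_mul_right _ hT
    nlinarith
  · rintro (σ₀ | ⟨t₀, σ₀⟩)
    · exact case_inl_unif T σ₀
    · exact case_inr_unif T t₀ σ₀

end Pool.Agent.Helper53.RC
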