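import Pool.Agent.Helper57.RP.Period
import Pool.Agent.Helper65.RP.Ending

/-!
# Periods of backward orbits
-/

set_option autoImplicit false

namespace Pool.Agent.Helper53.RC

open MvPolynomial Filter Topology
open Pool.Agent.Helper65.RP
open Pool.Agent.Helper36 (PEq)

section
variable {Kb : Type} [Field Kb] {N : ℕ}

lemma iterate_peq {g : (Fin N → Kb) → Fin N → Kb} (hg : ∀ x y, PEq x y → PEq (g x) (g y)) (n : ℕ)
    (x y : Fin N → Kb) (h : PEq x y) : PEq (g^[n] x) (g^[n] y) := by
  induction n generalizing x y with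
  | zero => exact h
  | succ n ih =>
    rw [Function.iterate_succ_apply, Function.iterate_succ_apply]
    exact ih _ _ (hg _ _ h)

/-- A periodic backward orbit of a point of period dividing `k₀` has period `k₀`. -/
lemma per_mul {g : (Fin N → Kb) → Fin N → Kb} (hg : ∀ x y, PEq x y → PEq (g x) (g y))
    {q : ℕ → Fin N → Kb} (hback : ∀ j m : ℕ, PEq (q m) (g^[j] (q (m + j)))) {k k₀ : ℕ}
    (hk : 1 ≤ k) (hper : ∀ m, PEq (q m) (q (m + k))) (hk₀ : PEq (q 0) (g^[k₀] (q 0))) (m : ℕ) :
    PEq (q 0) (q (m * k₀)) := by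
  have hperm : ∀ t m, PEq (q m) (q (m + k * t)) := by
    intro t
    induction t with
    | zero => intro m; exact Pool.Agent.Helper36.PEq.refl
    | succ t ih =>
      intro m
      have h1 := (ih m).trans (hper (m + k * t))
      rwa [show m + k * t + k = m + k * (t + 1) by ring] at h1
  have hk₀t : ∀ t, PEq (q 0) (g^[t * k₀] (q 0)) := by
    intro t
    induction t with
    | zero => rw [zero_mul]; exact Pool.Agent.Helper36.PEq.refl
    | succ t ih =>
      have h1 := iterate_peq hg (t * k₀) _ _ hk₀
      rw [← Function.iterate_add_apply, show t * k₀ + k₀ = (t + 1) * k₀ by ring] at h1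
      exact ih.trans h1
  set n := m * k₀ with hn
  have h1 : PEq (q n) (g^[k * n] (q n)) :=
    (hback (k * n) n).trans (iterate_peq hg (k * n) _ _ (hperm n n)).symm
  have h2 : PEq (q 0) (g^[n] (q n)) := by
    have := hback n 0
    rwa [zero_add] at this
  have h3 := iterate_peq hg ((k - 1) * n) _ _ h2
  rw [← Function.iterate_add_apply, show (k - 1) * n + n = k * n by
    obtain ⟨k, rfl⟩ : ∃ j, k = j + 1 := ⟨k - 1, by omega⟩
    rw [Nat.add_sub_cancel]
    ring] at h3
  have h4 := hk₀t ((k - 1) * m)
  rw [show (k - 1) * m * k₀ = (k - 1) * n by rw [hn]; ring] at h4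
  exact (h4.trans h3).trans h1.symm

end

section
variable {K Kb : Type} [Field K] [Field Kb] [Algebra K Kb] {N : ℕ}

lemma iterate_eq (G : Fin N → MvPolynomial (Fin N) K) (j : ℕ) (x : Fin N → Kb) (i : Fin N) :
    (fun (x : Fin N → Kb) i => aeval x (G i))^[j] x i = aeval x (iter G j i) := by
  induction j generalizing i with
  | zero => simp [iter]
  | succ j ih =>
    rw [Function.iterate_succ_apply', iter]
    simp only
    rw [aeval_bind₁]
    congr 2
    funext l
    exact ih l

lemma step_peq {d : ℕ} {G : Fin N → MvPolynomial (Fin N) K} (hG : ∀ i, (G i).IsHomogeneous d)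
    (x y : Fin N → Kb) (h : PEq x y) :
    PEq (fun i => aeval x (G i)) (fun i => aeval y (G i)) := by
  obtain ⟨c, hc, rfl⟩ := h
  refine ⟨c ^ d, pow_ne_zero _ hc, ?_⟩
  funext i
  exact Pool.Agent.Helper36.aeval_smul_homogeneous (hG i) c x

/-- Invariance under an iterate is inherited by its multiples. -/
lemma inv_mul (f : Fin N → MvPolynomial (Fin N) K) (I : Ideal (MvPolynomial (Fin N) K)) {k : ℕ}
    (h : ∀ P ∈ I, bind₁ (iter f k) P ∈ I) (t : ℕ) : ∀ P ∈ I, bind₁ (iter f (k * t)) P ∈ I := by
  induction t with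
  | zero =>
    intro P hP
    have h1 : iter f (k * 0) = X := by rw [mul_zero]; rfl
    rw [h1, bind₁_X_left]
    exact hP
  | succ t ih =>
    intro P hP
    have h1 : iter f (k * (t + 1)) = fun i => bind₁ (iter f (k * t)) (iter f k i) := by
      funext i
      rw [← iter_add]
      rfl
    rw [h1, ← bind₁_bind₁]
    exact ih _ (h P hP)

end

end Pool.Agent.Helper53.RC
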