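import Pool.Agent.Helper65.RP.Main3
import Pool.Agent.Helper53.RC.Final
import Pool.Agent.Helper53.RC.Per
import Pool.Agent.Helper53.RC.PDu

/-!
# Dynamical Mordell-Lang for curves and regular polynomial maps: number fields, with a uniform
exponent (after Helper65/RP/Main3)
-/

set_option autoImplicit false
set_option linter.unusedVariables false
set_option linter.style.haveILetI false

namespace Pool.Agent.Helper53.RC

open MvPolynomial Filter Topology
open Pool.Agent.Helper65.RP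

section main
variable {K Kb : Type} [Field K] [NumberField K] [Field Kb] [Algebra K Kb] [IsAlgClosure K Kb]
  {N d : ℕ} {f : Fin N → MvPolynomial (Fin N) K}

/-- The key step with a uniform exponent: `e`, `j`, `D`, `B`, `r` are fixed in advance. -/
theorem key_core (hd : 2 ≤ d) {k₀ l j D : ℕ} {B : ℝ} (hk₀ : 1 ≤ k₀) (hl0 : l ≠ 0) (hD1 : 1 ≤ D)
    (hD2 : (D : ℝ) * B < ((d ^ k₀ : ℕ) : ℝ) ^ j * (1 / ((d ^ k₀ - 1 : ℕ) : ℝ)))
    (hD3 : (⌊2 * B⌋₊ : ℝ) * ((d ^ k₀ * (d ^ k₀ - 1) : ℕ) : ℝ) ^ j ≤ 1 / 8 * (D : ℝ) ^ 2)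
    (hB : (1 : ℝ) + (Module.finrank ℚ K * (1 + l.primeFactors.card) : ℕ) ≤ B)
    (hf : Regular Kb d f) (S : Set (MvPolynomial (Fin N) K))
    (hdim : ringKrullDim (MvPolynomial (Fin N) K ⧸ Ideal.span S) ≤ 1)
    (hfl : ∀ i m, ∃ n : ℕ, IsIntegral ℤ ((l : K) ^ n * (f i).coeff m))
    (a : Fin N → K) (hal : ∀ i, ∃ n : ℕ, IsIntegral ℤ ((l : K) ^ n * a i))
    (hmul : ∀ y : Fin N → Kb, y ≠ 0 →
      (∀ F ∈ Ideal.span S, aeval y (homogeneousComponent F.totalDegree F) = 0) →
      (∃ (k : ℕ) (c : Kb), 1 ≤ k ∧ ∀ i, aeval y (iter (lead d f) k i) = c * y i) →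
      (∃ c : Kb, ∀ i, aeval y (iter (lead d f) k₀ i) = c * y i) ∧
        MultLT (iter (lead d f) k₀) y (d ^ k₀))
    (hinf : (Set.range (orb f a)).Infinite) (𝒰 : Ultrafilter ℕ)
    (h𝒰 : (𝒰 : Filter ℕ) ≤ atTop)
    (hS : ∀ᶠ n in (𝒰 : Filter ℕ), ∀ F ∈ S, eval (orb f a n) F = 0) :
    ∃ k, 1 ≤ k ∧ k ≤ D ∧
      ∀ P ∈ van 𝒰 (orb f a), bind₁ (iter f (k₀ * k)) P ∈ van 𝒰 (orb f a) := by
  classical
  haveI : IsAlgClosed Kb := IsAlgClosure.isAlgClosed K
  -- places
  obtain ⟨Λ₀, _, abv, O, hF, hfin, hcard, hl⟩ := exists_pd_unif l hl0 K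
  have ha : ∀ i, a i ∈ O := fun i => hF _ (hal i)
  have hfO : ∀ i m, (f i).coeff m ∈ O := fun i m => hF _ (hfl i m)
  have hO : ∀ n i, orb f a n i ∈ O := fun n i => orb_mem O ha hfO n i
  have hgr := fun l => orbit_growth (f := f) hd (abv l) (growth_step (by omega) hf (abv l)) a
  choose Gl Cl hGl hCl using hgr
  -- one place with positive growth
  obtain ⟨l₁, hl₁⟩ : ∃ l₀, 0 < Gl l₀ := by
    by_contra hcon
    push Not at hcon
    have h0 : ∀ l, Gl l = 0 := fun l => le_antisymm (hcon l) (hGl l)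
    apply hinf
    set B : ℝ := Real.exp (∑ l, |Cl l|) with hB
    have hpi : (Set.pi Set.univ (fun _ : Fin N => {x : K | x ∈ O ∧ ∀ l, abv l x ≤ B})).Finite :=
      Set.Finite.pi fun _ => hfin B
    refine hpi.subset ?_
    rintro _ ⟨n, rfl⟩ i _
    refine ⟨hO n i, fun l => ?_⟩
    have h1 := hCl l n
    rw [h0 l, mul_zero, sub_zero] at h1
    have h2 : lh (abv l) (orb f a n) ≤ ∑ l, |Cl l| := by
      refine (le_abs_self _).trans (h1.trans ((le_abs_self _).trans ?_))
      exact Finset.single_le_sum (f := fun l => |Cl l|) (fun l _ => abs_nonneg _)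
        (Finset.mem_univ l)
    have h3 : abv l (orb f a n i) ≤ ⨆ i, abv l (orb f a n i) :=
      Finite.le_ciSup (fun i => abv l (orb f a n i)) i
    have h4 : 0 < max 1 (⨆ i, abv l (orb f a n i)) := lt_of_lt_of_le one_pos (le_max_left _ _)
    calc abv l (orb f a n i) ≤ max 1 (⨆ i, abv l (orb f a n i)) := h3.trans (le_max_right _ _)
      _ = Real.exp (lh (abv l) (orb f a n)) := by
          unfold lh
          rw [Real.exp_log h4]
      _ ≤ B := Real.exp_le_exp.2 h2
  -- the place with the largest growth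
  haveI : Nonempty Λ₀ := ⟨l₁⟩
  obtain ⟨l₀, hmax⟩ := Finite.exists_max Gl
  have hl₀ : 0 < Gl l₀ := hl₁.trans_le (hmax l₁)
  obtain ⟨Ω, _, _, _, _, Λ, _, Z, ι, hZO, hnorm, hZabv, hcardΛ⟩ := hl l₀
  set G₀ : ℝ := Gl l₀ with hG₀
  letI : Algebra Kb Ω := (IsAlgClosed.lift (R := K) (M := Ω) (S := Kb)).toRingHom.toAlgebra
  haveI : IsScalarTower K Kb Ω := IsScalarTower.of_algebraMap_eq fun x =>
    ((IsAlgClosed.lift (R := K) (M := Ω) (S := Kb)).commutes x).symm
  -- levels
  set z : ℕ → ℕ → Fin N → K := fun m n => orb f a (n - m) with hz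
  set s : ℕ → ℕ → ℝ := fun m n => (d : ℝ) ^ (n - m) * G₀ with hs
  have hvan : van 𝒰 (orb f a) = van 𝒰 (z 0) := rfl
  have hspan : Ideal.span S ≤ van 𝒰 (orb f a) := by
    refine Ideal.span_le.2 fun F hF => ?_
    change ∀ᶠ n in (𝒰 : Filter ℕ), eval (orb f a n) F = 0
    filter_upwards [hS] with n hn
    exact hn F hF
  have hdim' : ringKrullDim (MvPolynomial (Fin N) K ⧸ van 𝒰 (orb f a)) ≤ 1 :=
    (ringKrullDim_le_of_surjective (Ideal.Quotient.factor hspan)
      (Ideal.Quotient.factor_surjective hspan)).trans hdim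
  have halg := fun (m : ℕ) (i₀ i : Fin N) htr => alg_dep (f := f) h𝒰 a hdim'
    (fun i => integral_step (Kb := Kb) (by omega) hf i) m i₀ i htr
  have hlev' := fun m => exists_lev (Ω := Ω) (f := f) h𝒰 hd a (abv l₀) hnorm G₀ (Cl l₀) hl₀
    (hCl l₀) halg m
  choose i₀ hlev using hlev'
  set g : Λ → ℝ := fun l => Gl (ι l) / G₀ with hg
  have hgrow : ∀ m, Grow Z g 𝒰 (s m) (z m) := by
    intro m
    refine exists_grow h𝒰 hd a Z G₀ hl₀ (fun l => Gl (ι l)) (fun l => hGl _)
      (∑ l, |Cl l|) ?_ (fun n i => by rw [hZO]; exact hO n i) m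
    intro l n
    have h1 : lh (Z.abv l) (orb f a n) = lh (abv (ι l)) (orb f a n) := by
      unfold lh
      simp only [hZabv]
    rw [h1]
    refine (hCl (ι l) n).trans ((le_abs_self _).trans ?_)
    exact Finset.single_le_sum (f := fun l => |Cl l|) (fun l _ => abs_nonneg _)
      (Finset.mem_univ (ι l))
  have hbdB : Z.bd g ≤ B := by
    have h1 : ∑ l, g l ≤ Fintype.card Λ := by
      calc ∑ l, g l ≤ ∑ _l : Λ, (1 : ℝ) := Finset.sum_le_sum fun l _ => by
            rw [hg]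
            exact (div_le_one hl₀).2 (hmax (ι l))
        _ = Fintype.card Λ := by rw [Finset.sum_const, Finset.card_univ, nsmul_eq_mul, mul_one]
    have hn : (1 : ℝ) ≤ Z.n := by exact_mod_cast Z.hn
    have h0 : 0 ≤ ∑ l, g l := Finset.sum_nonneg fun l _ => (hgrow 0).pos l
    have h2 : (∑ l, g l) / Z.n ≤ ∑ l, g l := div_le_self h0 hn
    have h3 : (Fintype.card Λ : ℝ) ≤ (Module.finrank ℚ K * (1 + l.primeFactors.card) : ℕ) := by
      exact_mod_cast hcardΛ.trans hcard
    unfold PD.bd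
    linarith
  have hcen' := fun m => exists_center (Kb := Kb) (hlev m)
  choose q hq using hcen'
  -- transition between levels
  have hsz : ∀ m k, ∀ᶠ n in (𝒰 : Filter ℕ), s m n = (d : ℝ) ^ k * s (m + k) n := by
    intro m k
    filter_upwards [h𝒰 (eventually_ge_atTop (m + k))] with n hn
    simp only [hs]
    rw [← mul_assoc, ← pow_add]
    congr 2
    omega
  have hzz : ∀ m k, ∀ᶠ n in (𝒰 : Filter ℕ), ∀ i, z m n i = eval (z (m + k) n) (iter f k i) := by
    intro m k
    filter_upwards [h𝒰 (eventually_ge_atTop (m + k))] with n hn i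
    simp only [hz]
    rw [← orb_add]
    congr 1
    omega
  -- degrees of the limit points
  have hR : ∀ (m r : ℕ) (σ : Fin r → (Kb ≃ₐ[K] Kb)),
      (∀ i j, i ≠ j → (fun l => σ i (q m l)) ≠ (fun l => σ j (q m l))) →
      r ≤ ⌊2 * Z.bd g⌋₊ := by
    intro m r σ hσ
    obtain ⟨e, A, α, he, hA, hα, hval⟩ := exists_group (Kb := Kb) (hlev m)
    obtain ⟨C, hC⟩ := lower_bound (hlev m) hA hα hval (hq m) σ hσ
    have hup := fun D => upper_bound (hlev m) Z (hgrow m) he hval D
    apply Nat.le_floor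
    by_contra hcon
    push Not at hcon
    have he' : (0 : ℝ) < e := by exact_mod_cast he
    have hbd : 1 ≤ Z.bd g := by
      unfold PD.bd
      have h1 : 0 ≤ (∑ l, g l) / Z.n :=
        div_nonneg (Finset.sum_nonneg fun l _ => (hgrow m).pos l) (Nat.cast_nonneg _)
      linarith
    -- choose D large
    obtain ⟨D, hD⟩ := exists_nat_gt ((r * e * C + 1) / (e * (r - 2 * Z.bd g)) + C + 1 : ℝ)
    have hDC : (C : ℝ) + 1 < D := by
      have h1 : (0 : ℝ) ≤ (r * e * C + 1) / (e * (r - 2 * Z.bd g)) := by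
        apply div_nonneg
        · positivity
        · exact mul_nonneg he'.le (by linarith)
      linarith
    have hDC' : C + 1 ≤ D := by exact_mod_cast hDC.le
    have h2 := hC D
    have h3 := hup D
    have h4 : (r : ℝ) * e * (D - C) ≤ 2 * e * Z.bd g * D + 1 := by
      calc (r : ℝ) * e * (D - C) = ((r * e * (D - C) : ℕ) : ℝ) := by
            rw [Nat.cast_mul, Nat.cast_mul, Nat.cast_sub (by omega)]
        _ ≤ rho (van 𝒰 (z m)) D := by exact_mod_cast h2
        _ ≤ _ := h3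
    have h5 : (r * e * C + 1) / (e * (r - 2 * Z.bd g)) < (D : ℝ) := by
      have : (0 : ℝ) ≤ C := Nat.cast_nonneg _
      linarith
    rw [div_lt_iff₀ (mul_pos he' (by linarith))] at h5
    nlinarith
  -- periodicity
  have hstep : ∀ m, ∃ c : Kb, c ≠ 0 ∧ ∀ i, aeval (q (m + 1)) (lead d f i) = c * q m i := by
    intro m
    refine center_map hf (hlev m) (hq m) (hlev (m + 1)) (hq (m + 1)) ?_ ?_
    · filter_upwards [hsz m 1] with n hn
      rw [pow_one] at hn
      exact hn
    · filter_upwards [hzz m 1] with n hn i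
      have h1 := hn i
      have h2 : iter f 1 i = f i := by simp [iter, bind₁_X_left]
      rw [h2] at h1
      exact h1
  obtain ⟨k', hk', hper⟩ := exists_period hd (lead d f)
    (fun i => homogeneousComponent_isHomogeneous d (f i)) hf.2 q i₀ (fun m => (hq m).1) hstep
    ⌊2 * Z.bd g⌋₊ hR
  have hGhom : ∀ i, (lead d f i).IsHomogeneous d := fun i =>
    homogeneousComponent_isHomogeneous d (f i)
  set G : (Fin N → Kb) → Fin N → Kb := fun x i => aeval x (lead d f i) with hG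
  have hGp : ∀ x y, Pool.Agent.Helper36.PEq x y → Pool.Agent.Helper36.PEq (G x) (G y) :=
    fun x y h => step_peq hGhom x y h
  have hback : ∀ (j m : ℕ), Pool.Agent.Helper36.PEq (q m) (G^[j] (q (m + j))) := by
    intro j
    induction j with
    | zero => intro m; exact Pool.Agent.Helper36.PEq.refl
    | succ j ih =>
      intro m
      obtain ⟨c, hc, hcq⟩ := hstep (m + j)
      have h1 : Pool.Agent.Helper36.PEq (q (m + j)) (G (q (m + j + 1))) := ⟨c, hc, by
        funext i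
        exact hcq i⟩
      have h2 := (ih m).trans (iterate_peq hGp j _ _ h1)
      rw [← Function.iterate_succ_apply] at h2
      exact h2
  have hperP : ∀ m, Pool.Agent.Helper36.PEq (q m) (q (m + k')) := by
    intro m
    obtain ⟨c, hc, h1⟩ := hper m
    exact ⟨c, hc, funext h1⟩
  have hq0 : q 0 ≠ 0 := by
    intro h0
    have h1 := (hq 0).1
    rw [h0] at h1
    exact zero_ne_one h1
  have hinfty : ∀ F ∈ Ideal.span S, aeval (q 0) (homogeneousComponent F.totalDegree F) = 0 :=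
    fun F hF => center_mem (hlev 0) (hq 0) (hspan hF)
  -- the point `q 0` is periodic
  obtain ⟨⟨c₀, hfix0⟩, hmul0⟩ := hmul (q 0) hq0 hinfty (by
    have h1 := hback k' 0
    rw [zero_add] at h1
    have h2 := h1.trans (iterate_peq hGp k' _ _ (by
      have := hperP 0
      rw [zero_add] at this
      exact this.symm))
    obtain ⟨c, hc, h3⟩ := h2
    refine ⟨k', c, hk', fun i => ?_⟩
    rw [← iterate_eq]
    exact congrFun h3 i)
  have hc₀ : c₀ ≠ 0 := by
    intro h0
    obtain ⟨hregk, hleadk⟩ := regular_iter (Kb := Kb) hf k₀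
    apply hq0
    apply hregk.2
    intro i
    rw [hleadk i]
    have := hfix0 i
    rw [h0, zero_mul] at this
    exact this
  have hP0 : Pool.Agent.Helper36.PEq (q 0) (G^[k₀] (q 0)) := by
    refine ⟨c₀, hc₀, funext fun i => ?_⟩
    rw [hG, iterate_eq]
    exact hfix0 i
  set k := k₀ with hkk
  have hk : 1 ≤ k := hk₀
  -- the levels `m * k` with the index and centre of level `0`
  have hper' : ∀ m, ∃ c : Kb, c ≠ 0 ∧ ∀ i, q (m * k) i = c * q 0 i := by
    intro m
    obtain ⟨c, hc, h1⟩ := per_mul hGp hback hk' hperP hP0 m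
    exact ⟨c, hc, fun i => congrFun h1 i⟩
  have hchg : ∀ m, Lev Ω 𝒰 (s (m * k)) (z (m * k)) (i₀ 0) ∧
      IsCenter Ω 𝒰 (s (m * k)) (z (m * k)) (i₀ 0) (q 0) := by
    intro m
    obtain ⟨c, hc, h1⟩ := hper' m
    exact change_index (hlev (m * k)) (hq (m * k)) (q 0) c hc h1 (hq 0).1
  have he : 2 ≤ d ^ k := hd.trans (Nat.le_self_pow (by omega) d)
  obtain ⟨hregk, hleadk⟩ := regular_iter (Kb := Kb) hf k
  obtain ⟨c, hc, hfix⟩ := center_map (f := iter f k) hregk (hlev 0) (hq 0)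
    (by simpa using (hchg 1).1) (by simpa using (hchg 1).2)
    (by
      filter_upwards [hsz 0 k] with n hn
      rw [zero_add] at hn
      push_cast
      exact hn)
    (by
      filter_upwards [hzz 0 k] with n hn
      rw [zero_add] at hn
      exact hn)
  have hs' : ∀ m, ∀ᶠ n in (𝒰 : Filter ℕ), s (m * k) n = ((d ^ k : ℕ) : ℝ) * s ((m + 1) * k) n := by
    intro m
    filter_upwards [hsz (m * k) k] with n hn
    rw [show (m + 1) * k = m * k + k by ring]
    push_cast
    exact hn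
  have hz' : ∀ m, ∀ᶠ n in (𝒰 : Filter ℕ), ∀ i, z (m * k) n i =
      eval (z ((m + 1) * k) n) (iter f k i) := by
    intro m
    filter_upwards [hzz (m * k) k] with n hn
    rw [show (m + 1) * k = m * k + k by ring]
    exact hn
  -- the field of definition of the limit point
  have hfd : FiniteDimensional K (IntermediateField.adjoin K (Set.range (q 0))) :=
    IntermediateField.finiteDimensional_adjoin fun x _ =>
      (Algebra.IsAlgebraic.isAlgebraic (R := K) x).isIntegral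
  set L := IntermediateField.adjoin K (Set.range (q 0)) with hL
  set qL : Fin N → L := fun i => ⟨q 0 i, IntermediateField.subset_adjoin K _ ⟨i, rfl⟩⟩ with hqL
  have hqL' : (fun i => algebraMap L Kb (qL i)) = q 0 := rfl
  haveI : IsScalarTower K L Ω := IsScalarTower.of_algebraMap_eq fun x => by
    rw [IsScalarTower.algebraMap_apply K Kb Ω, IsScalarTower.algebraMap_apply K L Kb]
    rfl
  set cL : L := aeval qL (homogeneousComponent (d ^ k) (iter f k (i₀ 0))) with hcL
  have haev : ∀ p : MvPolynomial (Fin N) K, algebraMap L Kb (aeval qL p) = aeval (q 0) p := by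
    intro p
    rw [← hqL', ← aeval_algebraMap_apply]
    rfl
  have hcc : algebraMap L Kb cL = c := by
    rw [hcL, haev, hfix, (hq 0).1, mul_one]
  have hcL0 : cL ≠ 0 := by
    intro h0
    rw [h0, map_zero] at hcc
    exact hc hcc.symm
  have hfixL : ∀ i, aeval qL (homogeneousComponent (d ^ k) (iter f k i)) = cL * qL i := by
    intro i
    apply (algebraMap L Kb).injective
    rw [haev, hfix, map_mul, hcc]
    rfl
  have hlk : (fun i => homogeneousComponent (d ^ k) (iter f k i)) = iter (lead d f) k :=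
    funext hleadk
  have hrL : Module.finrank K L ≤ ⌊2 * B⌋₊ := by
    obtain ⟨σ, hσ⟩ := Pool.Agent.Helper57.RP.exists_conj (K := K) (q 0)
    exact (hR 0 _ σ hσ).trans (Nat.floor_le_floor (by linarith))
  obtain ⟨k', hk', hk'D, hfinal⟩ := final_unif (L := L) (Kb := Kb) (q := qL) Z he hD1 hD2 hD3
    hbdB hrL hregk.1
    (s := fun m => s (m * k)) (z := fun m => z (m * k)) hs' hz'
    (fun m => (hchg m).1) (fun m => hgrow (m * k)) (fun m => (hchg m).2) hcL0 hfixL
    (by
      rw [hlk, hqL']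
      exact hmul0)
  refine ⟨k', hk', hk'D, ?_⟩
  intro P hP
  have hP' : P ∈ van 𝒰 (z (0 * k)) := by
    rw [zero_mul]
    exact hP
  have h1 := hfinal P hP'
  rw [zero_mul, iter_iter] at h1
  exact h1

end main

/-- The exponent only depends on `d`, on a common multiple `k₀` of the periods at infinity, on the
degree of the number field and on the primes of bad reduction. -/
theorem key_unif {N d : ℕ} (hd : 2 ≤ d) (k₀ δ l : ℕ) (hk₀ : 1 ≤ k₀) (hl : l ≠ 0) :
    ∃ k₁ : ℕ, 1 ≤ k₁ ∧ ∀ (K Kb : Type) [Field K] [NumberField K] [Field Kb] [Algebra K Kb]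
      [IsAlgClosure K Kb] (f : Fin N → MvPolynomial (Fin N) K)
      (S : Set (MvPolynomial (Fin N) K)) (a : Fin N → K) (𝒰 : Ultrafilter ℕ),
      Module.finrank ℚ K ≤ δ → Regular Kb d f →
      ringKrullDim (MvPolynomial (Fin N) K ⧸ Ideal.span S) ≤ 1 →
      (∀ i m, ∃ n : ℕ, IsIntegral ℤ ((l : K) ^ n * (f i).coeff m)) →
      (∀ i, ∃ n : ℕ, IsIntegral ℤ ((l : K) ^ n * a i)) →
      (∀ y : Fin N → Kb, y ≠ 0 →
        (∀ F ∈ Ideal.span S, aeval y (homogeneousComponent F.totalDegree F) = 0) →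
        (∃ (k : ℕ) (c : Kb), 1 ≤ k ∧ ∀ i, aeval y (iter (lead d f) k i) = c * y i) →
        (∃ c : Kb, ∀ i, aeval y (iter (lead d f) k₀ i) = c * y i) ∧
          MultLT (iter (lead d f) k₀) y (d ^ k₀)) →
      (Set.range (orb f a)).Infinite → (𝒰 : Filter ℕ) ≤ atTop →
      (∀ᶠ n in (𝒰 : Filter ℕ), ∀ F ∈ S, eval (orb f a n) F = 0) →
      ∀ P ∈ van 𝒰 (orb f a), bind₁ (iter f k₁) P ∈ van 𝒰 (orb f a) := by
  classical
  set e : ℕ := d ^ k₀ with he'
  have he : 2 ≤ e := hd.trans (Nat.le_self_pow (by omega) d)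
  set B : ℝ := 1 + (δ * (1 + l.primeFactors.card) : ℕ) with hB
  have hB1 : 1 ≤ B := by
    rw [hB]
    have : (0 : ℝ) ≤ (δ * (1 + l.primeFactors.card) : ℕ) := Nat.cast_nonneg _
    linarith
  have he1 : (0 : ℝ) < ((e - 1 : ℕ) : ℝ) := by
    have : 0 < e - 1 := by omega
    exact_mod_cast this
  obtain ⟨j, D, hD1, hD2, hD3⟩ := exists_degree (κ := 1 / ((e - 1 : ℕ) : ℝ)) (by positivity) hB1
    (Nat.cast_nonneg ⌊2 * B⌋₊ : (0 : ℝ) ≤ _) he (show e - 1 < e by omega)
    (show (0 : ℝ) < 1 / 8 by norm_num)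
  refine ⟨k₀ * D.factorial, Nat.mul_pos hk₀ (Nat.factorial_pos D), ?_⟩
  intro K Kb _ _ _ _ _ f S a 𝒰 hδ hf hdim hfl hal hmul hinf h𝒰 hS
  obtain ⟨k, hk, hkD, hP⟩ := key_core (K := K) (Kb := Kb) (B := B) hd hk₀ hl hD1 hD2 hD3 (by
    rw [hB]
    have h1 : Module.finrank ℚ K * (1 + l.primeFactors.card) ≤ δ * (1 + l.primeFactors.card) :=
      Nat.mul_le_mul_right _ hδ
    have h2 : ((Module.finrank ℚ K * (1 + l.primeFactors.card) : ℕ) : ℝ) ≤
      (δ * (1 + l.primeFactors.card) : ℕ) := by exact_mod_cast h1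
    linarith) hf S hdim hfl a hal hmul hinf 𝒰 h𝒰 hS
  obtain ⟨t, ht⟩ := Nat.dvd_factorial hk hkD
  have h1 := inv_mul f (van 𝒰 (orb f a)) hP t
  rwa [show k₀ * k * t = k₀ * D.factorial by rw [ht]; ring] at h1

end Pool.Agent.Helper53.RC
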