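import Pool.Agent.Helper65.RP.Defs2
import Pool.Agent.Helper57.RP.Kappa
import Pool.Agent.Helper47.RP.MultSlice
import Mathlib.RingTheory.MvPolynomial.Ideal

/-!
# Small local multiplicity is kept by specialisations
-/

set_option autoImplicit false

namespace Pool.Agent.Helper53.RC

open MvPolynomial
open Pool.Agent.Helper65.RP
open Pool.Agent.Helper57.RP (kappa_finite kappa_chain)
open Pool.Agent.Helper47.RP (finrank_map)

section ring
variable {A : Type} [CommRing A] {N : ℕ}

/-- Translation by `q`. -/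
noncomputable def tr (q : Fin N → A) : MvPolynomial (Fin N) A →ₐ[A] MvPolynomial (Fin N) A :=
  aeval fun i => X i + C (q i)

lemma tr_neg (q : Fin N → A) (p : MvPolynomial (Fin N) A) : tr (-q) (tr q p) = p := by
  have h : (tr (-q)).comp (tr q) = AlgHom.id A _ := by
    ext i : 1
    simp [tr]
  exact DFunLike.congr_fun h p

lemma tr_neg' (q : Fin N → A) (p : MvPolynomial (Fin N) A) : tr q (tr (-q) p) = p := by
  have h := tr_neg (-q) p
  rwa [neg_neg] at h

/-- The quotient by the fibre ideal and the `n`-th power of the ideal of the point `q` is generated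
by `ν` elements; written in the coordinates with origin `q`, with explicit certificates. -/
def Gen (H : Fin N → MvPolynomial (Fin N) A) (q : Fin N → A) (n ν : ℕ) : Prop :=
  ∃ b : Fin ν → MvPolynomial (Fin N) A, ∀ s : Fin N →₀ ℕ, s.degree < n →
    ∃ (c : Fin ν → A) (g : Fin N → MvPolynomial (Fin N) A), ∀ t : Fin N →₀ ℕ, t.degree < n →
      coeff t (monomial s 1 - ∑ i, C (c i) * b i -
        ∑ j, g j * (tr q (H j) - C (eval q (H j)))) = 0

variable {A' : Type} [CommRing A'] (φ : A →+* A')

lemma map_tr (q : Fin N → A) (p : MvPolynomial (Fin N) A) :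
    map φ (tr q p) = tr (fun i => φ (q i)) (map φ p) := by
  induction p using MvPolynomial.induction_on with
  | C a => simp [tr]
  | add p r hp hr => rw [map_add, map_add, map_add, map_add, hp, hr]
  | mul_X p i hp => rw [map_mul, map_mul, map_mul, map_mul, hp]; simp [tr]

lemma map_eval' (q : Fin N → A) (p : MvPolynomial (Fin N) A) :
    φ (eval q p) = eval (fun i => φ (q i)) (map φ p) := by
  induction p using MvPolynomial.induction_on with
  | C a => simp
  | add p r hp hr => rw [map_add, map_add, map_add, map_add, hp, hr]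
  | mul_X p i hp => rw [map_mul, map_mul, map_mul, map_mul, hp]; simp

lemma map_expr (H : Fin N → MvPolynomial (Fin N) A) (q : Fin N → A) {ν : ℕ} (s : Fin N →₀ ℕ)
    (c : Fin ν → A) (b : Fin ν → MvPolynomial (Fin N) A) (g : Fin N → MvPolynomial (Fin N) A) :
    map φ (monomial s 1 - ∑ i, C (c i) * b i - ∑ j, g j * (tr q (H j) - C (eval q (H j)))) =
      monomial s 1 - ∑ i, C (φ (c i)) * map φ (b i) -
        ∑ j, map φ (g j) * (tr (fun i => φ (q i)) (map φ (H j)) -
          C (eval (fun i => φ (q i)) (map φ (H j)))) := by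
  have e1 : map φ (monomial s (1 : A)) = monomial s 1 := by
    rw [map_monomial, φ.map_one]
  have e2 : map φ (∑ i, C (c i) * b i) = ∑ i, C (φ (c i)) * map φ (b i) := by
    rw [map_sum]
    refine Finset.sum_congr rfl fun i _ => ?_
    rw [map_mul, map_C]
  have e3 : map φ (∑ j, g j * (tr q (H j) - C (eval q (H j)))) =
      ∑ j, map φ (g j) * (tr (fun i => φ (q i)) (map φ (H j)) -
        C (eval (fun i => φ (q i)) (map φ (H j)))) := by
    rw [map_sum]
    refine Finset.sum_congr rfl fun j _ => ?_
    rw [map_mul, map_sub, map_tr, map_C, map_eval']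
  rw [map_sub, map_sub, e1, e2, e3]

lemma Gen.map {H : Fin N → MvPolynomial (Fin N) A} {q : Fin N → A} {n ν : ℕ}
    (h : Gen H q n ν) : Gen (fun i => MvPolynomial.map φ (H i)) (fun i => φ (q i)) n ν := by
  obtain ⟨b, hb⟩ := h
  refine ⟨fun i => MvPolynomial.map φ (b i), fun s hs => ?_⟩
  obtain ⟨c, g, hcg⟩ := hb s hs
  refine ⟨fun i => φ (c i), fun j => MvPolynomial.map φ (g j), fun t ht => ?_⟩
  have h1 := congrArg φ (hcg t ht)
  rw [map_zero, ← coeff_map, map_expr] at h1
  exact h1

end ring

section field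
variable {K : Type} [Field K] {N : ℕ}

lemma mem_pow_iff (q : Fin N → K) (n : ℕ) (w : MvPolynomial (Fin N) K) :
    w ∈ ptIdeal q ^ n ↔ ∀ t : Fin N →₀ ℕ, t.degree < n → coeff t (tr q w) = 0 := by
  rw [← mem_pow_idealOfVars_iff' n (tr q w)]
  constructor
  · intro h
    have h1 : (ptIdeal q).map (tr q) ≤ idealOfVars (Fin N) K := by
      unfold ptIdeal
      rw [Ideal.map_span, Ideal.span_le]
      rintro _ ⟨_, ⟨i, rfl⟩, rfl⟩
      have h2 : tr q (X i - C (q i)) = X i := by simp [tr]
      change tr q (X i - C (q i)) ∈ idealOfVars (Fin N) K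
      rw [h2]
      exact Ideal.subset_span ⟨i, rfl⟩
    have h2 := Ideal.mem_map_of_mem (tr q) h
    rw [Ideal.map_pow] at h2
    exact Ideal.pow_right_mono h1 n h2
  · intro h
    have h1 : (idealOfVars (Fin N) K).map (tr (-q)) ≤ ptIdeal q := by
      rw [idealOfVars, Ideal.map_span, Ideal.span_le]
      rintro _ ⟨_, ⟨i, rfl⟩, rfl⟩
      have h2 : tr (-q) (X i : MvPolynomial (Fin N) K) = X i - C (q i) := by
        simp [tr, sub_eq_add_neg]
      change tr (-q) (X i : MvPolynomial (Fin N) K) ∈ ptIdeal q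
      rw [h2]
      exact Ideal.subset_span ⟨i, rfl⟩
    have h2 := Ideal.mem_map_of_mem (tr (-q)) h
    rw [Ideal.map_pow, tr_neg] at h2
    exact Ideal.pow_right_mono h1 n h2

/-- The fibre ideal at a rational point. -/
lemma fibre_eq (H : Fin N → MvPolynomial (Fin N) K) (q : Fin N → K) :
    fibreIdeal H q = Ideal.span (Set.range fun i => H i - C (eval q (H i))) := by
  unfold fibreIdeal
  congr 1
  congr 1
  funext i
  rw [Algebra.algebraMap_self, MvPolynomial.map_id]
  rfl

/-- A surjection from the space of dimension `ν`. -/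
lemma exists_surj {V : Type} [AddCommGroup V] [Module K V] [FiniteDimensional K V] {ν : ℕ}
    (h : Module.finrank K V ≤ ν) :
    ∃ f : (Fin ν → K) →ₗ[K] V, Function.Surjective f := by
  let bs := Module.finBasis K V
  refine ⟨(bs.equivFun.symm : (Fin (Module.finrank K V) → K) →ₗ[K] V).comp
    (LinearMap.funLeft K K (Fin.castLE h)), ?_⟩
  rw [LinearMap.coe_comp]
  refine Function.Surjective.comp bs.equivFun.symm.surjective ?_
  exact LinearMap.funLeft_surjective_of_injective K K _ (Fin.castLE_injective h)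

/-- From multiplicity to certificates. -/
theorem gen_of_finrank (H : Fin N → MvPolynomial (Fin N) K) (q : Fin N → K) {n ν : ℕ}
    (h : Module.finrank K (MvPolynomial (Fin N) K ⧸ (fibreIdeal H q ⊔ ptIdeal q ^ n)) ≤ ν) :
    Gen H q n ν := by
  classical
  have hfd := kappa_finite q n (fibreIdeal H q)
  obtain ⟨f, hf⟩ := exists_surj h
  choose b hb using fun i : Fin ν => Ideal.Quotient.mk_surjective (f (Pi.single i 1))
  refine ⟨fun i => tr q (b i), fun s hs => ?_⟩
  obtain ⟨c, hc⟩ := hf (Ideal.Quotient.mk _ (tr (-q) (monomial s 1)))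
  have h1 : f c = ∑ i, c i • f (Pi.single i 1) := by
    have h0 : c = ∑ i, c i • (Pi.single i 1 : Fin ν → K) := by
      funext j
      rw [Finset.sum_apply, Finset.sum_eq_single j]
      · simp
      · intro i _ hij
        rw [Pi.smul_apply, Pi.single_eq_of_ne hij.symm, smul_zero]
      · simp
    conv_lhs => rw [h0]
    rw [map_sum]
    exact Finset.sum_congr rfl fun i _ => map_smul f (c i) _
  have h2 : Ideal.Quotient.mk (fibreIdeal H q ⊔ ptIdeal q ^ n)
      (tr (-q) (monomial s 1) - ∑ i, C (c i) * b i) = 0 := by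
    rw [map_sub, ← hc, h1, map_sum, sub_eq_zero]
    refine Finset.sum_congr rfl fun i _ => ?_
    rw [map_mul, hb, Algebra.smul_def]
    rfl
  have h3 := Ideal.Quotient.eq_zero_iff_mem.1 h2
  obtain ⟨y, hy, w, hw, hyw⟩ := Submodule.mem_sup.1 h3
  rw [fibre_eq] at hy
  obtain ⟨g, hg⟩ := (Ideal.mem_span_range_iff_exists_fun).1 hy
  refine ⟨c, fun j => tr q (g j), fun t ht => ?_⟩
  have h4 : monomial s 1 - ∑ i, C (c i) * tr q (b i) -
      ∑ j, tr q (g j) * (tr q (H j) - C (eval q (H j))) = tr q w := by
    have h5 : w = tr (-q) (monomial s 1) - ∑ i, C (c i) * b i -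
        ∑ j, g j * (H j - C (eval q (H j))) := by
      rw [hg, ← hyw]
      ring
    have hC : ∀ a : K, tr q (C a : MvPolynomial (Fin N) K) = C a := fun a => by simp [tr]
    rw [h5, map_sub, map_sub, map_sum, map_sum, tr_neg']
    congr 1
    · congr 1
      refine Finset.sum_congr rfl fun i _ => ?_
      rw [map_mul, hC]
    · refine Finset.sum_congr rfl fun j _ => ?_
      rw [map_mul, map_sub, hC]
  rw [h4]
  exact (mem_pow_iff q n w).1 hw t ht

/-- From certificates to multiplicity, for one `n`. -/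
theorem finrank_of_gen (H : Fin N → MvPolynomial (Fin N) K) (q : Fin N → K) {n ν : ℕ}
    (h : Gen H q n ν) :
    Module.finrank K (MvPolynomial (Fin N) K ⧸ (fibreIdeal H q ⊔ ptIdeal q ^ n)) ≤ ν := by
  classical
  obtain ⟨b, hb⟩ := h
  set I := fibreIdeal H q ⊔ ptIdeal q ^ n with hI
  set v : Fin ν → MvPolynomial (Fin N) K ⧸ I := fun i => Ideal.Quotient.mk I (tr (-q) (b i)) with hv
  have hmon : ∀ s : Fin N →₀ ℕ, Ideal.Quotient.mk I (tr (-q) (monomial s 1)) ∈
      Submodule.span K (Set.range v) := by
    intro s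
    by_cases hs : s.degree < n
    · obtain ⟨c, g, hcg⟩ := hb s hs
      have h1 : tr (-q) (monomial s 1 - ∑ i, C (c i) * b i -
          ∑ j, g j * (tr q (H j) - C (eval q (H j)))) ∈ ptIdeal q ^ n := by
        rw [mem_pow_iff]
        intro t ht
        rw [tr_neg']
        exact hcg t ht
      have hC : ∀ a : K, tr (-q) (C a : MvPolynomial (Fin N) K) = C a := fun a => by simp [tr]
      have h2 : ∑ j, tr (-q) (g j) * (H j - C (eval q (H j))) ∈ fibreIdeal H q := by
        refine Ideal.sum_mem _ fun j _ => Ideal.mul_mem_left _ _ ?_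
        rw [fibre_eq]
        exact Ideal.subset_span ⟨j, rfl⟩
      rw [map_sub, map_sub, map_sum, map_sum] at h1
      have h3 : ∑ j, tr (-q) (g j * (tr q (H j) - C (eval q (H j)))) =
          ∑ j, tr (-q) (g j) * (H j - C (eval q (H j))) := by
        refine Finset.sum_congr rfl fun j _ => ?_
        rw [map_mul, map_sub, hC, tr_neg]
      rw [h3] at h1
      have h4 : tr (-q) (monomial s 1) - ∑ i, tr (-q) (C (c i) * b i) ∈ I := by
        have h5 := add_mem ((le_sup_right : ptIdeal q ^ n ≤ I) h1)
          ((le_sup_left : fibreIdeal H q ≤ I) h2)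
        rwa [sub_add_cancel] at h5
      have h5 := Ideal.Quotient.eq.2 h4
      rw [h5, map_sum]
      refine Submodule.sum_mem _ fun i _ => ?_
      rw [map_mul, hC, map_mul]
      have h6 : Ideal.Quotient.mk I (C (c i)) * Ideal.Quotient.mk I (tr (-q) (b i)) =
          c i • v i := by
        rw [Algebra.smul_def]
        rfl
      rw [h6]
      exact Submodule.smul_mem _ _ (Submodule.subset_span ⟨i, rfl⟩)
    · have h1 : tr (-q) (monomial s 1) ∈ ptIdeal q ^ n := by
        rw [mem_pow_iff]
        intro t ht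
        rw [tr_neg', coeff_monomial, if_neg]
        rintro rfl
        exact hs ht
      rw [Ideal.Quotient.eq_zero_iff_mem.2 ((le_sup_right : ptIdeal q ^ n ≤ I) h1)]
      exact zero_mem _
  have htop : Submodule.span K (Set.range v) = ⊤ := by
    rw [eq_top_iff]
    rintro x -
    obtain ⟨p, rfl⟩ := Ideal.Quotient.mk_surjective x
    have h1 : p = ∑ s ∈ (tr q p).support, C (coeff s (tr q p)) * tr (-q) (monomial s 1) := by
      have hC : ∀ a : K, tr (-q) (C a : MvPolynomial (Fin N) K) = C a := fun a => by simp [tr]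
      conv_lhs => rw [← tr_neg q p, (tr q p).as_sum, map_sum]
      refine Finset.sum_congr rfl fun s _ => ?_
      rw [← hC, ← map_mul, C_mul_monomial, mul_one]
    rw [h1, map_sum]
    refine Submodule.sum_mem _ fun s _ => ?_
    have h2 : Ideal.Quotient.mk I (C (coeff s (tr q p)) * tr (-q) (monomial s 1)) =
        coeff s (tr q p) • Ideal.Quotient.mk I (tr (-q) (monomial s 1)) := by
      rw [map_mul, Algebra.smul_def]
      rfl
    rw [h2]
    exact Submodule.smul_mem _ _ (hmon s)
  have h1 : (Set.range v).finrank K ≤ Fintype.card (Fin ν) := finrank_range_le_card v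
  rw [Fintype.card_fin] at h1
  have h2 : (Set.range v).finrank K = Module.finrank K (MvPolynomial (Fin N) K ⧸ I) := by
    unfold Set.finrank
    rw [htop, finrank_top]
  rwa [h2] at h1

/-- The multiplicity is decided by one power. -/
theorem mult_of_one (H : Fin N → MvPolynomial (Fin N) K) (q : Fin N → K) {e : ℕ}
    (h : Module.finrank K (MvPolynomial (Fin N) K ⧸ (fibreIdeal H q ⊔ ptIdeal q ^ e)) < e) :
    MultLT H q e := by
  obtain ⟨ν, rfl⟩ : ∃ ν, e = ν + 1 := ⟨e - 1, by omega⟩
  have h1 := kappa_chain q (fibreIdeal H q) (Nat.lt_succ_iff.1 h)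
  have h2 : ∀ m, ptIdeal q ^ ν ≤ fibreIdeal H q ⊔ ptIdeal q ^ (ν + m) := by
    intro m
    induction m with
    | zero => exact le_sup_right
    | succ m ih =>
      refine ih.trans (sup_le le_sup_left ?_)
      rw [pow_add]
      refine (Ideal.mul_mono_left h1).trans ?_
      rw [Ideal.sup_mul]
      refine sup_le_sup Ideal.mul_le_left (le_of_eq ?_)
      rw [← pow_add]
      congr 1
      omega
  intro n
  have hle : fibreIdeal H q ⊔ ptIdeal q ^ (ν + 1) ≤ fibreIdeal H q ⊔ ptIdeal q ^ n := by
    refine sup_le le_sup_left ?_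
    rcases le_total n (ν + 1) with hn | hn
    · exact (Ideal.pow_le_pow_right hn).trans le_sup_right
    · refine (Ideal.pow_le_pow_right (Nat.le_succ ν)).trans ?_
      have := h2 (n - ν)
      rwa [show ν + (n - ν) = n by omega] at this
  refine lt_of_le_of_lt ?_ h
  have hfd := kappa_finite q (ν + 1) (fibreIdeal H q)
  exact LinearMap.finrank_le_finrank_of_surjective (f := (Ideal.Quotient.factorₐ K hle).toLinearMap)
    (Ideal.Quotient.factor_surjective hle)

/-- Base change of the multiplicity. -/
theorem mult_base {Kb : Type} [Field Kb] [Algebra K Kb] (H : Fin N → MvPolynomial (Fin N) K)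
    (q : Fin N → K) (e : ℕ) :
    MultLT H (fun i => algebraMap K Kb (q i)) e ↔ MultLT H q e := by
  have h1 : ∀ n, Module.finrank Kb (MvPolynomial (Fin N) Kb ⧸
      (fibreIdeal H (fun i => algebraMap K Kb (q i)) ⊔
        ptIdeal (fun i => algebraMap K Kb (q i)) ^ n)) =
      Module.finrank K (MvPolynomial (Fin N) K ⧸ (fibreIdeal H q ⊔ ptIdeal q ^ n)) := by
    intro n
    rw [← finrank_map (Kb := Kb) (fibreIdeal H q ⊔ ptIdeal q ^ n)]
    have h2 : (fibreIdeal H q ⊔ ptIdeal q ^ n).map (MvPolynomial.map (algebraMap K Kb)) =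
        fibreIdeal H (fun i => algebraMap K Kb (q i)) ⊔
          ptIdeal (fun i => algebraMap K Kb (q i)) ^ n := by
      rw [Ideal.map_sup, Ideal.map_pow, fibre_eq]
      congr 1
      · unfold fibreIdeal
        rw [Ideal.map_span, ← Set.range_comp]
        congr 1
        congr 1
        funext i
        simp only [Function.comp_apply]
        rw [map_sub, map_C]
        congr 2
        exact (aeval_algebraMap_apply Kb q (H i)).symm
      · congr 1
        unfold ptIdeal
        rw [Ideal.map_span, ← Set.range_comp]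
        congr 1
        congr 1
        funext i
        simp only [Function.comp_apply]
        rw [map_sub, map_C, map_X]
    rw [h2]
  unfold MultLT
  simp only [h1]

/-- Certificates are defined over every subring that contains finitely many elements. -/
theorem Gen.spread {H : Fin N → MvPolynomial (Fin N) K} {q : Fin N → K} {n ν : ℕ}
    (h : Gen H q n ν) : ∃ Fc : Finset K, ∀ R : Subring K, (∀ x ∈ Fc, x ∈ R) →
      ∀ (HR : Fin N → MvPolynomial (Fin N) R) (qR : Fin N → R),
        (∀ i, MvPolynomial.map R.subtype (HR i) = H i) → (∀ i, (qR i : K) = q i) →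
        Gen HR qR n ν := by
  classical
  obtain ⟨b, hb⟩ := h
  choose c g hcg using hb
  have hfin := Finsupp.finite_of_degree_lt (σ := Fin N) n
  set T := hfin.toFinset with hT
  have hTs : ∀ s ∈ T, s.degree < n := fun s hs => by
    rw [hT, Set.Finite.mem_toFinset] at hs
    exact hs
  let Fc : Finset K := (Finset.univ.biUnion fun i => (b i).coeffs) ∪
    T.attach.biUnion fun s => (Finset.univ.image fun i => c s.1 (hTs s.1 s.2) i) ∪
      (Finset.univ.biUnion fun j => (g s.1 (hTs s.1 s.2) j).coeffs)
  refine ⟨Fc, fun R hR HR qR hHR hqR => ?_⟩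
  have hlift : ∀ p : MvPolynomial (Fin N) K, (∀ x ∈ p.coeffs, x ∈ R) →
      ∃ p' : MvPolynomial (Fin N) R, MvPolynomial.map R.subtype p' = p := by
    intro p hp
    have h1 : p ∈ Set.range (MvPolynomial.map R.subtype) := by
      rw [mem_range_map_iff_coeffs_subset]
      intro x hx
      exact ⟨⟨x, hp x hx⟩, rfl⟩
    exact h1
  have hbR : ∀ i, ∃ p' : MvPolynomial (Fin N) R, MvPolynomial.map R.subtype p' = b i := fun i =>
    hlift _ fun x hx => hR x (Finset.mem_union_left _ (Finset.mem_biUnion.2 ⟨i, Finset.mem_univ i, hx⟩))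
  choose b' hb' using hbR
  refine ⟨b', fun s hs => ?_⟩
  have hsT : s ∈ T := by
    rw [hT, Set.Finite.mem_toFinset]
    exact hs
  have hc' : ∀ i, c s hs i ∈ R := fun i => hR _ (Finset.mem_union_right _ (Finset.mem_biUnion.2
    ⟨⟨s, hsT⟩, Finset.mem_attach _ _, Finset.mem_union_left _
      (Finset.mem_image_of_mem _ (Finset.mem_univ i))⟩))
  have hg' : ∀ j, ∃ p' : MvPolynomial (Fin N) R, MvPolynomial.map R.subtype p' = g s hs j :=
    fun j => hlift _ fun x hx => hR x (Finset.mem_union_right _ (Finset.mem_biUnion.2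
      ⟨⟨s, hsT⟩, Finset.mem_attach _ _, Finset.mem_union_right _
        (Finset.mem_biUnion.2 ⟨j, Finset.mem_univ j, hx⟩)⟩))
  choose g' hg'' using hg'
  refine ⟨fun i => ⟨c s hs i, hc' i⟩, g', fun t ht => ?_⟩
  apply (R.subtype_injective : Function.Injective R.subtype)
  rw [map_zero, ← coeff_map, ← hcg s hs t ht, map_expr]
  congr 1
  have hqq : (fun i => R.subtype (qR i)) = q := funext hqR
  simp only [hqq, hHR, hg'', hb']
  rfl

/-- Small multiplicity is kept by all specialisations of a subring that contains finitely many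
certificates. -/
theorem mult_spread {e : ℕ} (H : Fin N → MvPolynomial (Fin N) K) (q : Fin N → K)
    (h : MultLT H q e) : ∃ Fc : Finset K, ∀ R : Subring K, (∀ x ∈ Fc, x ∈ R) →
      ∀ (HR : Fin N → MvPolynomial (Fin N) R) (qR : Fin N → R),
        (∀ i, MvPolynomial.map R.subtype (HR i) = H i) → (∀ i, (qR i : K) = q i) →
        ∀ (K' Kb' : Type) [Field K'] [Field Kb'] [Algebra K' Kb'] (y : R →+* K'),
          MultLT (fun i => MvPolynomial.map y (HR i)) (fun i => algebraMap K' Kb' (y (qR i))) e := by
  have he : 0 < e := lt_of_le_of_lt (Nat.zero_le _) (h 0)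
  have h1 : Gen H q e (e - 1) := gen_of_finrank H q (Nat.le_sub_one_of_lt (h e))
  obtain ⟨Fc, hFc⟩ := h1.spread
  refine ⟨Fc, fun R hR HR qR hHR hqR K' Kb' _ _ _ y => ?_⟩
  have h2 := (hFc R hR HR qR hHR hqR).map y
  have h3 := finrank_of_gen _ _ h2
  rw [mult_base]
  refine mult_of_one _ _ ?_
  omega

end field

end Pool.Agent.Helper53.RC
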