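import Pool.Agent.Helper53.RC.NilDefs
import Pool.Agent.Helper53.RC.Spread
import Pool.Agent.Helper53.RC.Per

/-!
# Nilpotency index of a fibre: base change, iterates, specialisation
-/

set_option autoImplicit false

namespace Pool.Agent.Helper53.RC

open MvPolynomial
open Pool.Agent.Helper65.RP
open Pool.Agent.Helper57.RP (kappa_finite kappa_chain finrank_quot_lt)
open Pool.Agent.Helper47.RP (finrank_map mem_ptIdeal aeval_mul_hom)

section field
variable {K : Type} [Field K] {N : ℕ}

/-- The nilpotency index is decided by one power. -/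
theorem nil_all (q : Fin N → K) (J : Ideal (MvPolynomial (Fin N) K)) {ν : ℕ}
    (h : ptIdeal q ^ ν ≤ J ⊔ ptIdeal q ^ (ν + 1)) (n : ℕ) :
    ptIdeal q ^ ν ≤ J ⊔ ptIdeal q ^ n := by
  have h2 : ∀ m, ptIdeal q ^ ν ≤ J ⊔ ptIdeal q ^ (ν + m) := by
    intro m
    induction m with
    | zero => exact le_sup_right
    | succ m ih =>
      refine ih.trans (sup_le le_sup_left ?_)
      rw [pow_add]
      refine (Ideal.mul_mono_left h).trans ?_
      rw [Ideal.sup_mul]
      refine sup_le_sup Ideal.mul_le_left (le_of_eq ?_)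
      rw [← pow_add]
      congr 1
      omega
  rcases le_total n ν with hn | hn
  · exact (Ideal.pow_le_pow_right hn).trans le_sup_right
  · have := h2 (n - ν)
    rwa [show ν + (n - ν) = n by omega] at this

theorem nil_iff_finrank (q : Fin N → K) (J : Ideal (MvPolynomial (Fin N) K)) (ν : ℕ) :
    ptIdeal q ^ ν ≤ J ⊔ ptIdeal q ^ (ν + 1) ↔
      Module.finrank K (MvPolynomial (Fin N) K ⧸ (J ⊔ ptIdeal q ^ ν)) =
        Module.finrank K (MvPolynomial (Fin N) K ⧸ (J ⊔ ptIdeal q ^ (ν + 1))) := by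
  have hle : J ⊔ ptIdeal q ^ (ν + 1) ≤ J ⊔ ptIdeal q ^ ν :=
    sup_le_sup_left (Ideal.pow_le_pow_right (Nat.le_succ ν)) J
  constructor
  · intro h
    have : J ⊔ ptIdeal q ^ ν = J ⊔ ptIdeal q ^ (ν + 1) :=
      le_antisymm (sup_le le_sup_left h) hle
    rw [this]
  · intro h
    by_contra hcon
    have hne : J ⊔ ptIdeal q ^ (ν + 1) ≠ J ⊔ ptIdeal q ^ ν := by
      intro h1
      apply hcon
      rw [h1]
      exact le_sup_right
    have hfd := kappa_finite q (ν + 1) J
    have := finrank_quot_lt (L := K) hle hne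
    omega

end field

section base
variable {K L Kb : Type} [Field K] [Field L] [Field Kb] [Algebra K L] [Algebra K Kb] [Algebra L Kb]
  [IsScalarTower K L Kb] {N : ℕ}

lemma map_fibre (H : Fin N → MvPolynomial (Fin N) K) (q : Fin N → L) :
    (fibreIdeal H q).map (MvPolynomial.map (algebraMap L Kb)) =
      fibreIdeal H (fun i => algebraMap L Kb (q i)) := by
  unfold fibreIdeal
  rw [Ideal.map_span, ← Set.range_comp]
  congr 1
  congr 1
  funext i
  simp only [Function.comp_apply]
  rw [map_sub, map_C, MvPolynomial.map_map, ← IsScalarTower.algebraMap_eq K L Kb]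
  congr 2
  exact (aeval_algebraMap_apply Kb q (H i)).symm

lemma map_ptIdeal (q : Fin N → L) :
    (ptIdeal q).map (MvPolynomial.map (algebraMap L Kb)) =
      ptIdeal (fun i => algebraMap L Kb (q i)) := by
  unfold ptIdeal
  rw [Ideal.map_span, ← Set.range_comp]
  congr 1
  congr 1
  funext i
  simp only [Function.comp_apply]
  rw [map_sub, map_C, map_X]

/-- Base change of the nilpotency index. -/
theorem nil_base (H : Fin N → MvPolynomial (Fin N) K) (q : Fin N → L) {e : ℕ} (he : 1 ≤ e) :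
    NilLT H (fun i => algebraMap L Kb (q i)) e ↔ NilLT H q e := by
  obtain ⟨ν, rfl⟩ : ∃ ν, e = ν + 1 := ⟨e - 1, by omega⟩
  unfold NilLT
  rw [show ν + 1 - 1 = ν by omega, nil_iff_finrank, nil_iff_finrank, ← map_fibre (L := L),
    ← map_ptIdeal (L := L), ← Ideal.map_pow, ← Ideal.map_pow, ← Ideal.map_sup, ← Ideal.map_sup,
    finrank_map, finrank_map]

end base

section kb
variable {K Kb : Type} [Field K] [Field Kb] [Algebra K Kb] {N : ℕ}

/-- Small multiplicity implies small nilpotency index. -/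
theorem nil_of_mult {H : Fin N → MvPolynomial (Fin N) K} {y : Fin N → Kb} {e : ℕ}
    (h : MultLT H y e) : NilLT H y e := by
  have he : 0 < e := lt_of_le_of_lt (Nat.zero_le _) (h 0)
  obtain ⟨ν, rfl⟩ : ∃ ν, e = ν + 1 := ⟨e - 1, by omega⟩
  unfold NilLT
  rw [show ν + 1 - 1 = ν by omega]
  exact kappa_chain y (fibreIdeal H y) (Nat.lt_succ_iff.1 (h (ν + 1)))

lemma nil_pow {H : Fin N → MvPolynomial (Fin N) K} {y : Fin N → Kb} {e : ℕ} (he : 1 ≤ e)
    (h : NilLT H y e) (n : ℕ) : ptIdeal y ^ (e - 1) ≤ fibreIdeal H y ⊔ ptIdeal y ^ n := by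
  obtain ⟨ν, rfl⟩ : ∃ ν, e = ν + 1 := ⟨e - 1, by omega⟩
  unfold NilLT at h
  rw [show ν + 1 - 1 = ν by omega] at h ⊢
  exact nil_all y _ h n

lemma fibre_le (H : Fin N → MvPolynomial (Fin N) K) (y : Fin N → Kb) :
    fibreIdeal H y ≤ ptIdeal y := by
  unfold fibreIdeal
  rw [Ideal.span_le]
  rintro _ ⟨i, rfl⟩
  rw [SetLike.mem_coe, mem_ptIdeal, map_sub, eval_C, eval_map, ← aeval_def, sub_self]

lemma sup_pow_le {A : Type} [CommRing A] (I J : Ideal A) (n : ℕ) : (I ⊔ J) ^ n ≤ I ^ n ⊔ J := by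
  induction n with
  | zero => rw [pow_zero, pow_zero]; exact le_sup_left
  | succ n ih =>
    rw [pow_succ, pow_succ]
    refine (Ideal.mul_mono_left ih).trans ?_
    rw [Ideal.sup_mul, Ideal.mul_sup]
    refine sup_le (sup_le le_sup_left ?_) ?_
    · exact Ideal.mul_le_right.trans le_sup_right
    · exact Ideal.mul_le_left.trans le_sup_right

/-- Nilpotency index of a composition. -/
theorem nil_comp {G G' : Fin N → MvPolynomial (Fin N) K} {y : Fin N → Kb} {a b : ℕ} (ha : 1 ≤ a)
    (hb : 1 ≤ b) (h : NilLT G y a) (h' : NilLT G' (fun i => aeval y (G i)) b) :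
    NilLT (fun i => bind₁ G (G' i)) y (a * b) := by
  set y' : Fin N → Kb := fun i => aeval y (G i) with hy'
  set η : MvPolynomial (Fin N) Kb →ₐ[Kb] MvPolynomial (Fin N) Kb :=
    aeval fun i => map (algebraMap K Kb) (G i) with hη
  have hηmap : ∀ P : MvPolynomial (Fin N) K, η (map (algebraMap K Kb) P) =
      map (algebraMap K Kb) (bind₁ G P) := by
    intro P
    induction P using MvPolynomial.induction_on with
    | C x => simp [hη]
    | add p r hp hr => rw [map_add, map_add, map_add, map_add, hp, hr]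
    | mul_X p i hp => rw [map_mul, map_mul, map_mul, map_mul, hp]; simp [hη]
  have hηC : ∀ x : Kb, η (C x) = C x := fun x => by simp [hη]
  have h1 : (ptIdeal y').map η.toRingHom = fibreIdeal G y := by
    unfold ptIdeal fibreIdeal
    rw [Ideal.map_span, ← Set.range_comp]
    congr 1
    congr 1
    funext i
    simp only [Function.comp_apply]
    change η (X i - C (y' i)) = _
    rw [map_sub, hηC, hη, aeval_X]
  have hev : ∀ i, aeval y (bind₁ G (G' i)) = aeval y' (G' i) := fun i => aeval_bind₁ y G (G' i)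
  have h2 : (fibreIdeal G' y').map η.toRingHom = fibreIdeal (fun i => bind₁ G (G' i)) y := by
    unfold fibreIdeal
    rw [Ideal.map_span, ← Set.range_comp]
    congr 1
    congr 1
    funext i
    simp only [Function.comp_apply]
    change η (map (algebraMap K Kb) (G' i) - C (aeval y' (G' i))) = _
    rw [map_sub, hηC, hηmap, hev]
  have h3 : ∀ n, ptIdeal y ^ ((a - 1) * (b - 1)) ≤
      fibreIdeal (fun i => bind₁ G (G' i)) y ⊔ ptIdeal y ^ n := by
    intro n
    rw [pow_mul]
    refine (Ideal.pow_right_mono (nil_pow ha h n) (b - 1)).trans ?_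
    refine (sup_pow_le _ _ _).trans (sup_le ?_ le_sup_right)
    have h4 := Ideal.map_mono (f := η.toRingHom) (nil_pow hb h' n)
    rw [Ideal.map_pow, Ideal.map_sup, Ideal.map_pow, h1, h2] at h4
    exact h4.trans (sup_le_sup_left (Ideal.pow_right_mono (fibre_le G y) n) _)
  unfold NilLT
  refine le_trans (Ideal.pow_le_pow_right ?_) (h3 (a * b))
  obtain ⟨a, rfl⟩ : ∃ a', a = a' + 1 := ⟨a - 1, by omega⟩
  obtain ⟨b, rfl⟩ : ∃ b', b = b' + 1 := ⟨b - 1, by omega⟩
  simp only [Nat.add_sub_cancel]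
  have : (a + 1) * (b + 1) = a * b + a + b + 1 := by ring
  omega

/-- Scaling. -/
theorem nil_smul {H : Fin N → MvPolynomial (Fin N) K} {e : ℕ} (hH : ∀ i, (H i).IsHomogeneous e)
    {y : Fin N → Kb} {c : Kb} (hc : c ≠ 0) {a : ℕ} (h : NilLT H y a) :
    NilLT H (fun i => c * y i) a := by
  set σ : MvPolynomial (Fin N) Kb →ₐ[Kb] MvPolynomial (Fin N) Kb :=
    aeval fun i => C c⁻¹ * X i with hσ
  have hσC : ∀ x : Kb, σ (C x) = C x := fun x => by simp [hσ]
  have h1 : (ptIdeal y).map σ.toRingHom ≤ ptIdeal (fun i => c * y i) := by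
    unfold ptIdeal
    rw [Ideal.map_span, Ideal.span_le]
    rintro _ ⟨_, ⟨i, rfl⟩, rfl⟩
    change σ (X i - C (y i)) ∈ _
    have h2 : σ (X i - C (y i)) = C c⁻¹ * (X i - C (c * y i)) := by
      rw [map_sub, hσC, hσ, aeval_X, mul_sub, ← C_mul, inv_mul_cancel_left₀ hc]
    rw [h2]
    exact Ideal.mul_mem_left _ _ (Ideal.subset_span ⟨i, rfl⟩)
  have h1' : ptIdeal (fun i => c * y i) ≤ (ptIdeal y).map σ.toRingHom := by
    conv_lhs => unfold ptIdeal
    rw [Ideal.span_le]
    rintro _ ⟨i, rfl⟩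
    have h2 : (X i - C (c * y i) : MvPolynomial (Fin N) Kb) = C c * σ (X i - C (y i)) := by
      rw [map_sub, hσC, hσ, aeval_X, mul_sub, ← mul_assoc, ← C_mul, mul_inv_cancel₀ hc, C_1,
        one_mul, C_mul]
    change (X i - C (c * y i) : MvPolynomial (Fin N) Kb) ∈ _
    rw [h2]
    exact Ideal.mul_mem_left _ _ (Ideal.mem_map_of_mem σ.toRingHom (Ideal.subset_span ⟨i, rfl⟩))
  have hmapH : ∀ i, σ (map (algebraMap K Kb) (H i)) = C (c⁻¹ ^ e) * map (algebraMap K Kb) (H i) := by
    intro i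
    rw [hσ, MvPolynomial.aeval_map_algebraMap]
    have h3 := aeval_mul_hom (A := MvPolynomial (Fin N) Kb) (hH i) (C c⁻¹)
      (fun i => (X i : MvPolynomial (Fin N) Kb))
    rw [h3, C_pow]
    congr 1
    rw [← MvPolynomial.aeval_map_algebraMap Kb, MvPolynomial.aeval_X_left_apply]
  have hval : ∀ i, aeval (fun i => c * y i) (H i) = c ^ e * aeval y (H i) := fun i =>
    aeval_mul_hom (hH i) c y
  have h2 : (fibreIdeal H y).map σ.toRingHom ≤ fibreIdeal H (fun i => c * y i) := by
    unfold fibreIdeal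
    rw [Ideal.map_span, Ideal.span_le]
    rintro _ ⟨_, ⟨i, rfl⟩, rfl⟩
    change σ (map (algebraMap K Kb) (H i) - C (aeval y (H i))) ∈ _
    have h3 : σ (map (algebraMap K Kb) (H i) - C (aeval y (H i))) =
        C (c⁻¹ ^ e) * (map (algebraMap K Kb) (H i) - C (aeval (fun i => c * y i) (H i))) := by
      rw [map_sub, hσC, hmapH, hval, mul_sub, ← C_mul, ← mul_assoc, ← mul_pow,
        inv_mul_cancel₀ hc, one_pow, one_mul]
    rw [h3]
    exact Ideal.mul_mem_left _ _ (Ideal.subset_span ⟨i, rfl⟩)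
  unfold NilLT at h ⊢
  have h4 := Ideal.map_mono (f := σ.toRingHom) h
  rw [Ideal.map_pow, Ideal.map_sup, Ideal.map_pow] at h4
  refine (Ideal.pow_right_mono h1' _).trans (h4.trans (sup_le_sup h2 (Ideal.pow_right_mono h1 _)))

/-- The iterates of homogeneous maps. -/
lemma iter_hom {d : ℕ} {G : Fin N → MvPolynomial (Fin N) K} (hG : ∀ i, (G i).IsHomogeneous d)
    (k : ℕ) (i : Fin N) : (iter G k i).IsHomogeneous (d ^ k) := by
  induction k generalizing i with
  | zero => rw [pow_zero]; exact isHomogeneous_X K i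
  | succ k ih =>
    have h1 : iter G (k + 1) i = bind₁ (iter G k) (G i) := rfl
    rw [h1, pow_succ]
    exact (hG i).aeval (iter G k) ih

lemma iter_fix {d : ℕ} {G : Fin N → MvPolynomial (Fin N) K} (hG : ∀ i, (G i).IsHomogeneous d)
    {k : ℕ} {y : Fin N → Kb} {c : Kb} (hc : c ≠ 0) (h : ∀ i, aeval y (iter G k i) = c * y i)
    (t : ℕ) : ∃ c' : Kb, c' ≠ 0 ∧ ∀ i, aeval y (iter G (k * t) i) = c' * y i := by
  induction t with
  | zero => exact ⟨1, one_ne_zero, fun i => by rw [mul_zero, one_mul]; simp [iter]⟩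
  | succ t ih =>
    obtain ⟨c', hc', h'⟩ := ih
    refine ⟨c' ^ d ^ k * c, mul_ne_zero (pow_ne_zero _ hc') hc, fun i => ?_⟩
    rw [show k * (t + 1) = k * t + k by ring, iter_add, aeval_bind₁]
    have h1 : (fun i => aeval y (iter G (k * t) i)) = fun i => c' * y i := funext h'
    rw [h1, aeval_mul_hom (iter_hom hG k i), h, mul_assoc]

/-- A period of small nilpotency index may be replaced by its multiples. -/
theorem nil_iter {d : ℕ} (hd : 1 ≤ d) {G : Fin N → MvPolynomial (Fin N) K}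
    (hG : ∀ i, (G i).IsHomogeneous d)
    {k : ℕ} {y : Fin N → Kb} {c : Kb} (hc : c ≠ 0) (hfix : ∀ i, aeval y (iter G k i) = c * y i)
    (h : NilLT (iter G k) y (d ^ k)) {t : ℕ} (ht : 1 ≤ t) :
    NilLT (iter G (k * t)) y (d ^ (k * t)) := by
  induction t, ht using Nat.le_induction with
  | base => rw [mul_one]; exact h
  | succ t ht ih =>
    obtain ⟨c', hc', h'⟩ := iter_fix hG hc hfix t
    have h1 : iter G (k * (t + 1)) = fun i => bind₁ (iter G (k * t)) (iter G k i) := by
      funext i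
      rw [show k * (t + 1) = k * t + k by ring, iter_add]
    rw [h1, show k * (t + 1) = k * t + k by ring, pow_add]
    refine nil_comp (Nat.one_le_pow _ _ hd) (Nat.one_le_pow _ _ hd) ih ?_
    have h2 : (fun i => aeval y (iter G (k * t) i)) = fun i => c' * y i := funext h'
    rw [h2]
    exact nil_smul (iter_hom hG k) hc' h

end kb

end Pool.Agent.Helper53.RC
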