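import Pool.Agent.Helper65.RP.Defs2

/-!
# Nilpotency index of a fibre: definition
-/

set_option autoImplicit false

namespace Pool.Agent.Helper53.RC

open MvPolynomial
open Pool.Agent.Helper65.RP

/-- The nilpotency index of the local fibre of the map `H` at `y` is smaller than `e`. -/
def NilLT {K : Type} [Field K] {N : ℕ} {Kb : Type} [Field Kb] [Algebra K Kb]
    (H : Fin N → MvPolynomial (Fin N) K) (y : Fin N → Kb) (e : ℕ) : Prop :=
  ptIdeal y ^ (e - 1) ≤ fibreIdeal H y ⊔ ptIdeal y ^ e

end Pool.Agent.Helper53.RC
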