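import Pool.Agent.Helper53.RC.Nil

/-!
# Small nilpotency index is kept by specialisations
-/

set_option autoImplicit false

namespace Pool.Agent.Helper53.RC

open MvPolynomial
open Pool.Agent.Helper65.RP

section ring
variable {A : Type} [CommRing A] {N : ℕ}

/-- Certificates for the nilpotency index, in the coordinates with origin `q`. -/
def GenN (H : Fin N → MvPolynomial (Fin N) A) (q : Fin N → A) (ν : ℕ) : Prop :=
  ∀ s : Fin N →₀ ℕ, s.degree = ν → ∃ g : Fin N → MvPolynomial (Fin N) A,
    ∀ t : Fin N →₀ ℕ, t.degree < ν + 1 →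
      coeff t (monomial s 1 - ∑ j, g j * (tr q (H j) - C (eval q (H j)))) = 0

variable {A' : Type} [CommRing A'] (φ : A →+* A')

lemma map_exprN (H : Fin N → MvPolynomial (Fin N) A) (q : Fin N → A) (s : Fin N →₀ ℕ)
    (g : Fin N → MvPolynomial (Fin N) A) :
    map φ (monomial s 1 - ∑ j, g j * (tr q (H j) - C (eval q (H j)))) =
      monomial s 1 - ∑ j, map φ (g j) * (tr (fun i => φ (q i)) (map φ (H j)) -
          C (eval (fun i => φ (q i)) (map φ (H j)))) := by
  have h := map_expr φ H q (ν := 0) s (fun _ => 0) (fun _ => 0) g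
  simpa using h

lemma GenN.map {H : Fin N → MvPolynomial (Fin N) A} {q : Fin N → A} {ν : ℕ}
    (h : GenN H q ν) : GenN (fun i => MvPolynomial.map φ (H i)) (fun i => φ (q i)) ν := by
  intro s hs
  obtain ⟨g, hg⟩ := h s hs
  refine ⟨fun j => MvPolynomial.map φ (g j), fun t ht => ?_⟩
  have h1 := congrArg φ (hg t ht)
  rw [map_zero, ← coeff_map, map_exprN] at h1
  exact h1

end ring

section field
variable {K : Type} [Field K] {N : ℕ}

/-- From the nilpotency index to certificates. -/
theorem genN_of_nil (H : Fin N → MvPolynomial (Fin N) K) (q : Fin N → K) {ν : ℕ}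
    (h : ptIdeal q ^ ν ≤ fibreIdeal H q ⊔ ptIdeal q ^ (ν + 1)) : GenN H q ν := by
  intro s hs
  have h1 : tr (-q) (monomial s 1) ∈ ptIdeal q ^ ν := by
    rw [mem_pow_iff]
    intro t ht
    rw [tr_neg', coeff_monomial, if_neg]
    rintro rfl
    omega
  obtain ⟨y, hy, w, hw, hyw⟩ := Submodule.mem_sup.1 (h h1)
  rw [fibre_eq] at hy
  obtain ⟨g, hg⟩ := (Ideal.mem_span_range_iff_exists_fun).1 hy
  refine ⟨fun j => tr q (g j), fun t ht => ?_⟩
  have h4 : monomial s 1 - ∑ j, tr q (g j) * (tr q (H j) - C (eval q (H j))) = tr q w := by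
    have h5 : w = tr (-q) (monomial s 1) - ∑ j, g j * (H j - C (eval q (H j))) := by
      rw [hg, ← hyw]
      ring
    have hC : ∀ a : K, tr q (C a : MvPolynomial (Fin N) K) = C a := fun a => by simp [tr]
    rw [h5, map_sub, map_sum, tr_neg']
    congr 1
    refine Finset.sum_congr rfl fun j _ => ?_
    rw [map_mul, map_sub, hC]
  rw [h4]
  exact (mem_pow_iff q (ν + 1) w).1 hw t ht

/-- From certificates to the nilpotency index. -/
theorem nil_of_genN (H : Fin N → MvPolynomial (Fin N) K) (q : Fin N → K) {ν : ℕ}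
    (h : GenN H q ν) : ptIdeal q ^ ν ≤ fibreIdeal H q ⊔ ptIdeal q ^ (ν + 1) := by
  classical
  have hC : ∀ a : K, tr (-q) (C a : MvPolynomial (Fin N) K) = C a := fun a => by simp [tr]
  -- monomials of degree at least `ν`
  have hmon : ∀ s : Fin N →₀ ℕ, ν ≤ s.degree → tr (-q) (monomial s 1) ∈
      fibreIdeal H q ⊔ ptIdeal q ^ (ν + 1) := by
    intro s hs
    rcases hs.lt_or_eq with hs | hs
    · refine (le_sup_right : ptIdeal q ^ (ν + 1) ≤ _) ?_
      rw [mem_pow_iff]
      intro t ht
      rw [tr_neg', coeff_monomial, if_neg]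
      rintro rfl
      omega
    · obtain ⟨g, hg⟩ := h s hs.symm
      have h1 : tr (-q) (monomial s 1 - ∑ j, g j * (tr q (H j) - C (eval q (H j)))) ∈
          ptIdeal q ^ (ν + 1) := by
        rw [mem_pow_iff]
        intro t ht
        rw [tr_neg']
        exact hg t ht
      have h2 : ∑ j, tr (-q) (g j) * (H j - C (eval q (H j))) ∈ fibreIdeal H q := by
        refine Ideal.sum_mem _ fun j _ => Ideal.mul_mem_left _ _ ?_
        rw [fibre_eq]
        exact Ideal.subset_span ⟨j, rfl⟩
      rw [map_sub, map_sum] at h1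
      have h3 : ∑ j, tr (-q) (g j * (tr q (H j) - C (eval q (H j)))) =
          ∑ j, tr (-q) (g j) * (H j - C (eval q (H j))) := by
        refine Finset.sum_congr rfl fun j _ => ?_
        rw [map_mul, map_sub, hC, tr_neg]
      rw [h3] at h1
      have h5 := add_mem ((le_sup_right : ptIdeal q ^ (ν + 1) ≤ fibreIdeal H q ⊔
        ptIdeal q ^ (ν + 1)) h1) ((le_sup_left : fibreIdeal H q ≤ fibreIdeal H q ⊔
        ptIdeal q ^ (ν + 1)) h2)
      rwa [sub_add_cancel] at h5
  intro p hp
  rw [mem_pow_iff] at hp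
  have h1 : p = ∑ s ∈ (tr q p).support, C (coeff s (tr q p)) * tr (-q) (monomial s 1) := by
    conv_lhs => rw [← tr_neg q p, (tr q p).as_sum, map_sum]
    refine Finset.sum_congr rfl fun s _ => ?_
    rw [← hC, ← map_mul, C_mul_monomial, mul_one]
  rw [h1]
  refine Ideal.sum_mem _ fun s hs => Ideal.mul_mem_left _ _ (hmon s ?_)
  by_contra hcon
  push Not at hcon
  exact (mem_support_iff.1 hs) (hp s hcon)

/-- Certificates are defined over every subring that contains finitely many elements. -/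
theorem GenN.spread {H : Fin N → MvPolynomial (Fin N) K} {q : Fin N → K} {ν : ℕ}
    (h : GenN H q ν) : ∃ Fc : Finset K, ∀ R : Subring K, (∀ x ∈ Fc, x ∈ R) →
      ∀ (HR : Fin N → MvPolynomial (Fin N) R) (qR : Fin N → R),
        (∀ i, MvPolynomial.map R.subtype (HR i) = H i) → (∀ i, (qR i : K) = q i) →
        GenN HR qR ν := by
  classical
  choose g hg using h
  have hfin := Finsupp.finite_of_degree_eq (σ := Fin N) ν
  set T := hfin.toFinset with hT
  have hTs : ∀ s ∈ T, s.degree = ν := fun s hs => by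
    rw [hT, Set.Finite.mem_toFinset] at hs
    exact hs
  let Fc : Finset K := T.attach.biUnion fun s =>
    Finset.univ.biUnion fun j => (g s.1 (hTs s.1 s.2) j).coeffs
  refine ⟨Fc, fun R hR HR qR hHR hqR s hs => ?_⟩
  have hlift : ∀ p : MvPolynomial (Fin N) K, (∀ x ∈ p.coeffs, x ∈ R) →
      ∃ p' : MvPolynomial (Fin N) R, MvPolynomial.map R.subtype p' = p := by
    intro p hp
    have h1 : p ∈ Set.range (MvPolynomial.map R.subtype) := by
      rw [mem_range_map_iff_coeffs_subset]
      intro x hx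
      exact ⟨⟨x, hp x hx⟩, rfl⟩
    exact h1
  have hsT : s ∈ T := by
    rw [hT, Set.Finite.mem_toFinset]
    exact hs
  have hg' : ∀ j, ∃ p' : MvPolynomial (Fin N) R, MvPolynomial.map R.subtype p' = g s hs j :=
    fun j => hlift _ fun x hx => hR x (Finset.mem_biUnion.2
      ⟨⟨s, hsT⟩, Finset.mem_attach _ _, Finset.mem_biUnion.2 ⟨j, Finset.mem_univ j, hx⟩⟩)
  choose g' hg'' using hg'
  refine ⟨g', fun t ht => ?_⟩
  apply (R.subtype_injective : Function.Injective R.subtype)
  rw [map_zero, ← coeff_map, ← hg s hs t ht, map_exprN]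
  have hqq : (fun i => R.subtype (qR i)) = q := funext hqR
  congr 2
  refine Finset.sum_congr rfl fun j _ => ?_
  rw [hg'', hqq, hHR]

/-- Small nilpotency index is kept by all specialisations of a subring that contains finitely many
certificates. -/
theorem nil_spread {e : ℕ} (he : 1 ≤ e) (H : Fin N → MvPolynomial (Fin N) K) (q : Fin N → K)
    (h : NilLT H q e) : ∃ Fc : Finset K, ∀ R : Subring K, (∀ x ∈ Fc, x ∈ R) →
      ∀ (HR : Fin N → MvPolynomial (Fin N) R) (qR : Fin N → R),
        (∀ i, MvPolynomial.map R.subtype (HR i) = H i) → (∀ i, (qR i : K) = q i) →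
        ∀ (K' Kb' : Type) [Field K'] [Field Kb'] [Algebra K' Kb'] (y : R →+* K'),
          NilLT (fun i => MvPolynomial.map y (HR i)) (fun i => algebraMap K' Kb' (y (qR i))) e := by
  obtain ⟨ν, rfl⟩ : ∃ ν, e = ν + 1 := ⟨e - 1, by omega⟩
  have h1 : GenN H q ν := genN_of_nil H q h
  obtain ⟨Fc, hFc⟩ := h1.spread
  refine ⟨Fc, fun R hR HR qR hHR hqR K' Kb' _ _ _ y => ?_⟩
  have h2 := (hFc R hR HR qR hHR hqR).map y
  rw [nil_base _ _ he]
  exact nil_of_genN _ _ h2

end field

end Pool.Agent.Helper53.RC
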