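import Pool.Agent.Helper8.RP.ExistsIdeal
import Pool.Agent.Helper53.RC.Nil

/-!
# Orders of the iterated fibre ideals, from the nilpotency index
-/

set_option autoImplicit false

namespace Pool.Agent.Helper53.RC

open MvPolynomial Filter Topology Pool.Agent.Helper65.RP Pool.Agent.Helper13.RP
open Pool.Agent.Helper8.RP

section ring
variable {A : Type} [CommRing A]

theorem nil_ring (M J : Ideal A) {ν : ℕ} (h : M ^ ν ≤ J ⊔ M ^ (ν + 1)) (n : ℕ) :
    M ^ ν ≤ J ⊔ M ^ n := by
  have h2 : ∀ m, M ^ ν ≤ J ⊔ M ^ (ν + m) := by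
    intro m
    induction m with
    | zero => exact le_sup_right
    | succ m ih =>
      refine ih.trans (sup_le le_sup_left ?_)
      rw [pow_add]
      refine (Ideal.mul_mono_left h).trans ?_
      rw [Ideal.sup_mul]
      refine sup_le_sup Ideal.mul_le_left (le_of_eq ?_)
      rw [← pow_add]
      congr 1
      omega
  rcases le_total n ν with hn | hn
  · exact (Ideal.pow_le_pow_right hn).trans le_sup_right
  · have := h2 (n - ν)
    rwa [show ν + (n - ν) = n by omega] at this

end ring

section alg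
variable {K L : Type} [Field K] [Field L] [Algebra K L] {N : ℕ}
  {e : ℕ} {F : Fin N → MvPolynomial (Fin N) K} {q : Fin N → L} {i₀ : Fin N} {c : L}

/-- One step: the fibre of `phi` over the centre, modulo `t`. -/
theorem nil_step (hq : q i₀ = 1) (hc : c ≠ 0)
    (hfix : ∀ i, aeval q (homogeneousComponent e (F i)) = c * q i) {ν : ℕ}
    (hnil : ptIdeal q ^ ν ≤
      sliceIdeal (fun i => homogeneousComponent e (F i)) q i₀ ⊔ ptIdeal q ^ (ν + 1)) (n : ℕ) :
    ptIdeal' q ^ ν ≤ (ptIdeal' q).map (phi e F i₀ c n : MvPolynomial (Option (Fin N)) L →+*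
      MvPolynomial (Option (Fin N)) L) ⊔
        (Ideal.span {(X none : MvPolynomial (Option (Fin N)) L)} ⊔ cI q i₀ n) := by
  set T := (ptIdeal' q).map (phi e F i₀ c n : MvPolynomial (Option (Fin N)) L →+*
      MvPolynomial (Option (Fin N)) L) ⊔
        (Ideal.span {(X none : MvPolynomial (Option (Fin N)) L)} ⊔ cI q i₀ n) with hT
  have ht : Ideal.span {(X none : MvPolynomial (Option (Fin N)) L)} ≤ T :=
    le_sup_left.trans le_sup_right
  have hcI : cI q i₀ n ≤ T := le_sup_right.trans le_sup_right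
  set R : MvPolynomial (Fin N) L →+* MvPolynomial (Option (Fin N)) L :=
    ((rename some : MvPolynomial (Fin N) L →ₐ[L] MvPolynomial (Option (Fin N)) L) :
      MvPolynomial (Fin N) L →+* MvPolynomial (Option (Fin N)) L) with hR
  have hle : (ptIdeal q).map R ≤ ptIdeal' q := by
    unfold ptIdeal
    rw [Ideal.map_span, Ideal.span_le]
    rintro _ ⟨_, ⟨i, rfl⟩, rfl⟩
    change rename some (X i - C (q i)) ∈ ptIdeal' q
    rw [map_sub, rename_X, rename_C]
    exact X_some_mem q i
  have hge : ptIdeal' q ≤ (ptIdeal q).map R ⊔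
      Ideal.span {(X none : MvPolynomial (Option (Fin N)) L)} := by
    unfold ptIdeal'
    rw [Ideal.span_le]
    rintro _ (rfl | ⟨i, rfl⟩)
    · exact Ideal.mem_sup_right (Ideal.mem_span_singleton_self _)
    · refine Ideal.mem_sup_left ?_
      have h1 : (X (some i) - C (q i) : MvPolynomial (Option (Fin N)) L) = R (X i - C (q i)) := by
        change _ = rename some (X i - C (q i))
        rw [map_sub, rename_X, rename_C]
      change (X (some i) - C (q i) : MvPolynomial (Option (Fin N)) L) ∈ _
      rw [h1]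
      exact Ideal.mem_map_of_mem R (Ideal.subset_span ⟨i, rfl⟩)
  have hphi : hI e F q i₀ n ≤ T := by
    refine (le_sup_right.trans (le_map_phi (F := F) hq hc hfix n)).trans ?_
    exact sup_le le_sup_left hcI
  have hslice : (sliceIdeal (fun i => homogeneousComponent e (F i)) q i₀).map R ≤ T := by
    unfold sliceIdeal
    rw [Ideal.map_span, Ideal.span_le]
    rintro _ ⟨f, (rfl | ⟨i, rfl⟩), rfl⟩
    · change rename some (X i₀ - 1) ∈ T
      rw [map_sub, rename_X, map_one]
      refine hcI ?_
      unfold cI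
      exact Ideal.mem_sup_left (Ideal.mem_span_singleton_self _)
    · change rename some (map (algebraMap K L) (homogeneousComponent e (F i)) -
        C (q i) * map (algebraMap K L) (homogeneousComponent e (F i₀))) ∈ T
      rw [map_sub, map_mul, rename_C]
      have h1 := hmg_sub (L := L) e (F i)
      have h2 := hmg_sub (L := L) e (F i₀)
      have h3 : hmg L e (F i) - C (q i) * hmg L e (F i₀) ∈ T := by
        apply hphi
        unfold hI
        exact Ideal.mem_sup_left (Ideal.subset_span ⟨i, rfl⟩)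
      have h4 : (rename some (map (algebraMap K L) (homogeneousComponent e (F i))) -
          C (q i) * rename some (map (algebraMap K L) (homogeneousComponent e (F i₀))) :
          MvPolynomial (Option (Fin N)) L) =
          (hmg L e (F i) - C (q i) * hmg L e (F i₀)) -
          (hmg L e (F i) - rename some (map (algebraMap K L)
            (homogeneousComponent e (F i)))) +
          C (q i) * (hmg L e (F i₀) - rename some (map (algebraMap K L)
            (homogeneousComponent e (F i₀)))) := by ring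
      rw [h4]
      exact add_mem (sub_mem h3 (ht h1)) (Ideal.mul_mem_left _ _ (ht h2))
  have h1 : ptIdeal' q ^ ν ≤ T ⊔ ptIdeal' q ^ (ν + 1) := by
    refine (Ideal.pow_right_mono hge ν).trans ?_
    refine (sup_pow_le _ _ _).trans (sup_le ?_ (ht.trans le_sup_left))
    rw [← Ideal.map_pow]
    refine (Ideal.map_mono hnil).trans ?_
    rw [Ideal.map_sup, Ideal.map_pow]
    exact sup_le_sup hslice (Ideal.pow_right_mono hle _)
  refine (nil_ring _ _ h1 n).trans (sup_le le_rfl ?_)
  refine le_trans ?_ hcI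
  unfold cI
  exact le_sup_right

end alg

section local_
variable {K L Ω : Type} [Field K] [Field L] [Algebra K L] [NormedField Ω]
  [Algebra K Ω] [Algebra L Ω] {N : ℕ}
  {𝒰 : Ultrafilter ℕ} {i₀ : Fin N}
  {s : ℕ → ℕ → ℝ} {z : ℕ → ℕ → Fin N → K}

/-- The ideal of the elements of order at least `α` at all levels from `m₁` on. -/
def ordAll (hlev : ∀ m, Lev Ω 𝒰 (s m) (z m) i₀) (m₁ : ℕ)
    (h0 : ∀ m, m₁ ≤ m → ∀ G : MvPolynomial (Option (Fin N)) L,
      GeOrd 𝒰 (s m) (fun k => aeval (fun o => algebraMap K Ω (pt (z m k) i₀ o)) G) 0) (α : ℝ) :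
    Ideal (MvPolynomial (Option (Fin N)) L) where
  carrier := {G | ∀ m, m₁ ≤ m →
    GeOrd 𝒰 (s m) (fun k => aeval (fun o => algebraMap K Ω (pt (z m k) i₀ o)) G) α}
  add_mem' := by
    intro F G hF hG m hm
    have := Pool.Agent.Helper13.RP.GeOrd.add (hlev m).hs (hF m hm) (hG m hm)
    refine Pool.Agent.Helper13.RP.GeOrd.congr this (Eventually.of_forall fun n => ?_)
    rw [Pi.add_apply, map_add]
  zero_mem' := by
    intro m hm
    refine Pool.Agent.Helper13.RP.GeOrd.of_zero (Eventually.of_forall fun n => ?_)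
    rw [map_zero]
  smul_mem' := by
    intro F G hG m hm
    have := Pool.Agent.Helper13.RP.GeOrd.mul_left (h0 m hm F) (hG m hm)
    refine Pool.Agent.Helper13.RP.GeOrd.congr this (Eventually.of_forall fun n => ?_)
    rw [Pi.mul_apply, smul_eq_mul, map_mul]

end local_

section main
variable {K L Ω : Type} [Field K] [Field L] [Algebra K L] [NormedField Ω]
  [Algebra K Ω] [Algebra L Ω] [IsScalarTower K L Ω] {N e : ℕ}
  {𝒰 : Ultrafilter ℕ} {i₀ : Fin N}
  {F : Fin N → MvPolynomial (Fin N) K} {q : Fin N → L}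
  {s : ℕ → ℕ → ℝ} {z : ℕ → ℕ → Fin N → K}

/-- The powers of the ideal of the centre are contained in `(t)` plus the elements of high
order. -/
theorem exists_ord (he : 2 ≤ e) (hF : ∀ i, (F i).totalDegree ≤ e) (hq : q i₀ = 1)
    {c : L} (hc : c ≠ 0) (hfix : ∀ i, aeval q (homogeneousComponent e (F i)) = c * q i)
    (hs : ∀ m, ∀ᶠ n in (𝒰 : Filter ℕ), s m n = e * s (m + 1) n)
    (hz : ∀ m, ∀ᶠ n in (𝒰 : Filter ℕ), ∀ i, z m n i = eval (z (m + 1) n) (F i))
    (hlev : ∀ m, Lev Ω 𝒰 (s m) (z m) i₀) {κ : ℝ} (hκ : 0 < κ) (hκ1 : κ ≤ 1) {m₀ : ℕ}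
    (hcen : ∀ m, m₀ ≤ m → ∀ i, GeOrd 𝒰 (s m) (fun n =>
      algebraMap K Ω (z m n i / z m n i₀) - algebraMap L Ω (q i)) κ) {ν : ℕ}
    (hnil : ptIdeal q ^ ν ≤
      sliceIdeal (fun i => homogeneousComponent e (F i)) q i₀ ⊔ ptIdeal q ^ (ν + 1))
    (h0 : ∀ m, m₀ ≤ m → ∀ G : MvPolynomial (Option (Fin N)) L,
      GeOrd 𝒰 (s m) (fun k => aeval (fun o => algebraMap K Ω (pt (z m k) i₀ o)) G) 0) (j : ℕ) :
    ∃ (m₁ : ℕ) (hm₁ : m₀ ≤ m₁), ptIdeal' q ^ (ν ^ j) ≤
      Ideal.span {(X none : MvPolynomial (Option (Fin N)) L)} ⊔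
        ordAll hlev m₁ (fun m hm => h0 m (hm₁.trans hm)) ((e : ℝ) ^ j * κ) := by
  induction j with
  | zero =>
    refine ⟨m₀, le_rfl, le_trans ?_ le_sup_right⟩
    rw [pow_zero, pow_one]
    intro G hG m hm
    have := pow_ge (q := q) hlev hκ hκ1 hcen hm (n := 1) (G := G) (by rwa [pow_one])
    rw [Nat.cast_one, one_mul] at this
    rwa [pow_zero, one_mul]
  | succ j ih =>
    obtain ⟨m₁, hm₁, ih⟩ := ih
    set n := e ^ (j + 1) with hn
    have hcast : ((n : ℕ) : ℝ) = (e : ℝ) ^ (j + 1) := by
      rw [hn, Nat.cast_pow]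
    have hm₁' : m₀ ≤ m₁ + 1 := by omega
    refine ⟨m₁ + 1, hm₁', ?_⟩
    set O1 := ordAll hlev m₁ (fun m hm => h0 m (hm₁.trans hm)) ((e : ℝ) ^ j * κ) with hO1
    set O2 := ordAll hlev (m₁ + 1) (fun m hm => h0 m (hm₁'.trans hm))
      ((e : ℝ) ^ (j + 1) * κ) with hO2
    set φ : MvPolynomial (Option (Fin N)) L →+* MvPolynomial (Option (Fin N)) L :=
      (phi e F i₀ c n : MvPolynomial (Option (Fin N)) L →+*
        MvPolynomial (Option (Fin N)) L) with hφ
    -- the map `phi` raises the order
    have hφO : O1.map φ ≤ O2 := by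
      rw [Ideal.map_le_iff_le_comap]
      intro H hH
      rw [Ideal.mem_comap]
      intro m hm
      obtain ⟨m', rfl⟩ : ∃ m', m = m' + 1 := ⟨m - 1, by omega⟩
      have hm' : m₁ ≤ m' := by omega
      have hm0 : m₀ ≤ m' := by omega
      have hst := (hlev (m' + 1)).hs
      have e1 := hH m' hm'
      have e2 : GeOrd 𝒰 (s (m' + 1)) (fun k =>
          aeval (fun o => algebraMap K Ω (pt (z m' k) i₀ o)) H)
          ((e : ℝ) ^ (j + 1) * κ) := by
        intro ε hε
        have hepos : (0 : ℝ) < e := by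
          have : 0 < e := by omega
          exact_mod_cast this
        filter_upwards [e1 (ε / e) (by positivity), hs m'] with k h3 h4
        refine h3.trans (le_of_eq ?_)
        rw [h4, pow_succ]
        congr 1
        field_simp
      have e3 := phi_close (F := F) he hF hq hc hfix hs hz hlev hκ hκ1 hcen hm0
        (n := n) (μ := (e : ℝ) ^ (j + 1) * κ) (by rw [hcast]) H
      have e4 := Pool.Agent.Helper13.RP.GeOrd.add hst e3 e2
      refine Pool.Agent.Helper13.RP.GeOrd.congr e4 (Eventually.of_forall fun k => ?_)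
      rw [Pi.add_apply, sub_add_cancel]
      rfl
    have hcO : cI q i₀ n ≤ O2 := by
      unfold cI
      refine sup_le ?_ ?_
      · rw [Ideal.span_le, Set.singleton_subset_iff]
        intro m hm
        refine Pool.Agent.Helper13.RP.GeOrd.of_zero ?_
        filter_upwards [(hlev m).top.1] with k hk
        have hk0 : z m k i₀ ≠ 0 := by
          intro h0
          apply hk
          rw [h0, map_zero]
        have : pt (z m k) i₀ (some i₀) = 1 := div_self hk0
        rw [map_sub, aeval_X, this, map_one, map_one, sub_self]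
      · intro H hH m hm
        have := pow_ge (q := q) hlev hκ hκ1 hcen (hm₁'.trans hm) (n := n) (G := H) hH
        rw [hcast] at this
        exact this
    have h1 := nil_step (F := F) (e := e) hq hc hfix hnil n
    rw [pow_succ, mul_comm, pow_mul]
    refine (Ideal.pow_right_mono h1 _).trans ?_
    refine (sup_pow_le _ _ _).trans (sup_le ?_ ?_)
    · rw [← Ideal.map_pow]
      refine (Ideal.map_mono ih).trans ?_
      rw [Ideal.map_sup]
      refine sup_le_sup ?_ hφO
      rw [Ideal.map_span, Set.image_singleton, Ideal.span_le, Set.singleton_subset_iff]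
      have h2 : φ (X none) = X none ^ e * lamS e (F i₀) c n := phi_X_none n
      rw [SetLike.mem_coe, h2]
      refine Ideal.mul_mem_right _ _ ?_
      exact Ideal.pow_mem_of_mem _ (Ideal.mem_span_singleton_self _) e (by omega)
    · exact sup_le_sup_left hcO _

end main

end Pool.Agent.Helper53.RC
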